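import Pool.Agent.Lib.TCH.D2

/-!
# Towers of coherent levels: statements of the modules
-/

set_option autoImplicit false

namespace Pool.Agent.Lib.TCH

open Finset Classical
open Pool.Agent.Lib.GSR3 (Tree)
open Pool.Agent.Lib.FracGS (TAdj)

/-! ### The extension lemma -/

/-- Module `Nc`: conflicts are rare if the labels on the sets of `R` stages do not collide. -/
def StNc : Prop :=
  ∀ (R m : ℕ) (ε : ℝ), 0 < ε → ∃ q0 : ℕ, ∀ K : ℝ, ∃ δ : ℝ, 0 < δ ∧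
    ∀ (V : Type) (G : SimpleGraph V) (C : V → V → Prop) (Q : ℕ) (W : Set V) (D : Lv V),
      OK G m C Q W D → D.K ≤ K → q0 ≤ D.q → ∀ t ∈ D.dom, ∀ P : V →₀ ℝ, (∀ y, 0 ≤ P y) →
        ∑ y ∈ P.support, P y ≤ 1 → (∀ y, P y ≠ 0 → y ∈ D.dom) →
        (∀ I ⊆ range D.q, I.card = R → col D I P P ≤ δ) →
          ∑ y ∈ P.support, P y * ms (av D y) {z | G.Adj z t} ≤ ε

/-- Module `Kil`: if no level of quality `R + 1` can be made coherent, then there is a sequence of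
levels in which the labels on `R + 1` stages do not collide. -/
def StKil : Prop :=
  ∀ (V : Type) (G : SimpleGraph V) (big : Set V → Prop) (m R : ℕ) (C : V → V → Prop) (W : Set V),
    Ide big → big W → Good G big m C W →
      (¬ ∃ D : Lv V, OK G m C (R + 1) W D ∧ big D.dom ∧
        Good G big m (fun x y => C x y ∧ ∀ s < D.q, D.p s y = D.mu s x) D.dom) →
      ∃ (D : ℕ → Lv V) (X : ℕ → Set V),
        (∀ e, (X e).Nonempty ∧ OK G m C (e + 1) (X e) (D e) ∧ X (e + 1) ⊆ (D e).dom) ∧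
        ∀ b c e, b < c → c < e → ∀ I ⊆ range (D b).q, I.card = R + 1 → ∀ x ∈ X (e + 1),
          (e : ℝ) * col (D b) I (av (D c) x) (av (D e) x) ≤ 1

/-- Module `Sib`: copies of the tree in which siblings may be adjacent. -/
def StSib : Prop :=
  ∀ h M k : ℕ, ∃ M' : ℕ, ∀ (V : Type) (G : SimpleGraph V), G.CliqueFree k →
    ∀ φ : List (Fin M') → V,
      (∀ u w, u.length ≤ h → w.length ≤ h → φ u = φ w → u = w) →
      (∀ t u, (t :: u).length ≤ h → G.Adj (φ (t :: u)) (φ u)) →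
      (∀ u w, u.length ≤ h → w.length ≤ h → G.Adj (φ u) (φ w) →
        TAdj u w ∨ ∃ t t' z, u = t :: z ∧ w = t' :: z) →
        ∃ ψ : List (Fin M) → V, Tree G h M ψ

/-- Module `Plc`: the trees are placed downwards in a sequence of levels in which the labels on
`R + 1` stages do not collide. -/
def StPlc : Prop :=
  ∀ (V : Type) (G : SimpleGraph V) (m k h M R : ℕ) (C : V → V → Prop) (D : ℕ → Lv V)
    (X : ℕ → Set V), G.CliqueFree k → (∀ φ : List (Fin M) → V, ¬ Tree G h M φ) →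
      ¬ ((∀ e, (X e).Nonempty ∧ OK G m C (e + 1) (X e) (D e) ∧ X (e + 1) ⊆ (D e).dom) ∧
        ∀ b c e, b < c → c < e → ∀ I ⊆ range (D b).q, I.card = R + 1 → ∀ x ∈ X (e + 1),
          (e : ℝ) * col (D b) I (av (D c) x) (av (D e) x) ≤ 1)

/-- The extension lemma. -/
def StExt : Prop :=
  ∀ (V : Type) (G : SimpleGraph V) (big : Set V → Prop) (m k h M : ℕ), Ide big →
    G.CliqueFree k → (∀ φ : List (Fin M) → V, ¬ Tree G h M φ) →
      ∀ (C : V → V → Prop) (W : Set V) (R : ℕ), big W → Good G big m C W →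
        ∃ D : Lv V, OK G m C (R + 1) W D ∧ big D.dom ∧
          Good G big m (fun x y => C x y ∧ ∀ s < D.q, D.p s y = D.mu s x) D.dom

/-- Module `Tw`: towers of coherent levels on which given families of bounded functions are
constant. -/
def StTw : Prop :=
  ∀ (V : Type) (G : SimpleGraph V) (big : Set V → Prop) (m k h M : ℕ), Ide big →
    G.CliqueFree k → (∀ φ : List (Fin M) → V, ¬ Tree G h M φ) →
      ∀ (W0 : Set V), big W0 → Good G big m (fun _ _ => True) W0 →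
        ∀ Fam : ℕ → (ℕ → Lv V) → Set (V → ℕ), (∀ n D, (Fam n D).Finite) →
          (∀ n D, ∀ φ ∈ Fam n D, ∃ B, ∀ x, φ x < B) →
            ∃ (D : ℕ → Lv V) (W : ℕ → Set V), Twr G m D W ∧
              ∀ n, ∀ φ ∈ Fam n (tr n D), ∀ x ∈ W n, ∀ y ∈ W n, φ x = φ y

/-! ### Labels -/

/-- Module `Sh`: the shift of labels. -/
def StSh : Prop :=
  ∀ (V : Type) (G : SimpleGraph V) (m : ℕ) (D : ℕ → Lv V) (W : ℕ → Set V), Twr G m D W →
    (∀ b j v, v ∈ W (b + j + 1) → own D j b v ∈ W (b + 1)) ∧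
    ∀ c j v, v ∈ W (c + j + 1) → ∀ s < (D c).q, ∀ y, (D c).p s (own D j c v) y ≠ 0 →
      ∀ b i, b + i < c → ∀ r < (D b).q,
        (D b).p r (own D i b y) = (D b).p r (own D (i + j + 1) b v)

/-- Module `Sr`: the labels of one vertex at a high level are pairwise different. -/
def StSr : Prop :=
  ∀ (V : Type) (G : SimpleGraph V) (m k : ℕ) (D : ℕ → Lv V) (W : ℕ → Set V), Twr G m D W →
    G.CliqueFree k →
      (∀ b, ∀ s < (D b).q, ∀ x ∈ W (b + 1), ∀ y ∈ W (b + 1),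
        sgn ((D b).p s x) ((D b).mu s x) = sgn ((D b).p s y) ((D b).mu s y)) →
        ∃ b0 : ℕ, ∀ b, b0 ≤ b → Dif D W b

/-- Module `Bu`: a vertex sees its hubs at few distances only. -/
def StBu : Prop :=
  ∀ (V : Type) (G : SimpleGraph V) (m b : ℕ) (D : ℕ → Lv V) (W : ℕ → Set V), Twr G m D W →
    Dif D W b → ∀ (N : ℕ) (x : V), x ∈ W (b + N + 1) → ∀ F ⊆ range (N + 1),
      ∑ j ∈ F, U G D b j x ≤ (D b).K + F.card * (m : ℝ) / (D b).q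

/-- Module `Ty`: the types of the working levels. -/
def StTy : Prop :=
  ∀ (h : ℕ) (th : ℕ → ℝ) (u : ℕ → ℕ → ℝ) (K q : ℕ → ℝ) (m b0 : ℕ),
    (∀ k, 0 < th k ∧ th k ≤ 1 / 2) → (∀ b : ℕ, (b : ℝ) ≤ q b) →
    (∀ b, b0 ≤ b → 1 / 2 ≤ u b 0) →
    (∀ b, b0 ≤ b → ∀ F : Finset ℕ, ∑ j ∈ F, u b j ≤ K b + F.card * (m : ℝ) / q b) →
      ∃ (S : Set ℕ) (d : ℕ → ℕ → ℕ), S.Infinite ∧
        ∀ b ∈ S, b0 ≤ b ∧ ∀ k < h, th k ≤ u b (d k b) ∧ (∀ j, d k b < j → u b j < th k) ∧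
          ∀ b' ∈ S, b ≤ b' → d k b ≤ d k b'

/-! ### Words -/

/-- Module `EW`: elementary properties of the expectation over random words. -/
def StEW : Prop :=
  ∀ (V : Type) (G : SimpleGraph V) (m : ℕ) (D : ℕ → Lv V) (W : ℕ → Set V), Twr G m D W →
    ∀ (fs : List (ℕ × ℕ)) (j : ℕ), ∀ v ∈ W (hg fs j),
      (∀ c : ℝ, EW D v fs j (fun _ => c) = c) ∧
      (∀ g g' : List V → ℝ, (∀ xs, Wd D v fs j xs → g xs ≤ g' xs) →
        EW D v fs j g ≤ EW D v fs j g') ∧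
      (∀ (a b : ℝ) (g g' : List V → ℝ), EW D v fs j (fun xs => a * g xs + b * g' xs) =
        a * EW D v fs j g + b * EW D v fs j g') ∧
      ∀ xs, Wd D v fs j xs → List.Forall₂ (fun p x => x ∈ W p.1 ∧ x ∈ sl D p.1) fs xs

/-- Module `Fc`: the words below `v` and the words below a hub of `v`; the law of the words is
determined by the label at the first level. -/
def StFc : Prop :=
  ∀ (V : Type) (G : SimpleGraph V) (m : ℕ) (D : ℕ → Lv V) (W : ℕ → Set V), Twr G m D W →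
    (∀ f j v, v ∈ W (f + j + 1) → ∀ X, av (D f) (own D j f v) X ≠ 0 →
      ∀ (fs : List (ℕ × ℕ)) (o : ℕ), hg fs (o + ty fs) ≤ f → ∀ g : List V → ℝ,
        EW D v fs (j + o + ty fs + 1) g = EW D X fs (o + ty fs) g) ∧
    ∀ (p : ℕ × ℕ) (fs : List (ℕ × ℕ)) (j : ℕ), hg fs (ty fs) ≤ p.1 →
      ∀ v ∈ W (p.1 + j + 1), ∀ v' ∈ W (p.1 + j + 1), lb D p.1 j v = lb D p.1 j v' →
        ∀ g : List V → ℝ, EW D v (p :: fs) j g = EW D v' (p :: fs) j g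

/-- Module `Iw`: random words are induced with probability at least `κ`. -/
def StIw : Prop :=
  ∀ h : ℕ, ∃ κ : ℝ, 0 < κ ∧ ∀ (V : Type) (G : SimpleGraph V) (m : ℕ) (D : ℕ → Lv V)
    (W : ℕ → Set V), Twr G m D W → ∀ (u : ℕ → ℕ → ℝ),
      (∀ b j (ε : ℝ), 0 < ε → ∃ N : ℕ, ∀ x ∈ W N, |U G D b j x - u b j| ≤ ε) →
      ∀ (S : Set ℕ) (d : ℕ → ℕ → ℕ),
        (∀ b ∈ S, ∀ k < h, (8 : ℝ)⁻¹ ^ (h - k) ≤ u b (d k b) ∧
          (∀ j, d k b < j → u b j < (8 : ℝ)⁻¹ ^ (h - k)) ∧ ∀ b' ∈ S, b ≤ b' → d k b ≤ d k b') →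
          ∃ Θ : List (ℕ × ℕ) → ℕ, ∀ fs : List (ℕ × ℕ), fs.length = h + 1 → Adm S h d Θ fs →
            ∀ j : ℕ, ∀ v ∈ W (hg fs j), κ ≤ EW D v fs j (fun xs => if Ind G xs then 1 else 0)

/-! ### The tree above -/

/-- Module `Em`: the tree above a good vertex. -/
def StEm : Prop :=
  ∀ h M : ℕ, ∃ ε : ℝ, 0 < ε ∧ ∀ (V : Type) (G : SimpleGraph V) (D : ℕ → Lv V) (x : V) (a b : ℕ),
    GD G D M ε h [x] (a + 1) b → ∃ φ : List (Fin M) → V, Tree G h M φ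

/-- Module `Ne`: a spread law or a bounded cover, for neighbourhoods. -/
def StNe : Prop :=
  ∀ (D0 : ℕ) (ε : ℝ), 0 < ε → ∃ n1 : ℕ, ∀ (V : Type) (G : SimpleGraph V), GIT.VC G D0 →
    (∀ v, {u | G.Adj v u}.Finite) → ∀ (dom A : Set V) (x : V), (∀ X ∈ A, G.Adj X x) →
      (∃ ζ : V →₀ ℝ, (∀ X, 0 ≤ ζ X) ∧ ∑ X ∈ ζ.support, ζ X = 1 ∧ (∀ X, ζ X ≠ 0 → X ∈ A) ∧
        ∀ q ∈ dom, ms ζ {X | X = q ∨ G.Adj X q} ≤ ε) ∨
      (∃ F : Finset V, F.card ≤ n1 ∧ (∀ q ∈ F, q ∈ dom) ∧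
        ∀ X ∈ A, ∃ q ∈ F, X = q ∨ G.Adj X q)

/-- Module `Dq`: the properties of the colouring `dg`. -/
def StDq : Prop :=
  ∀ (V B : Type) (S : Set V) (β γ : V → B) (Δ : ℕ), (∀ v, dg S β γ Δ v < 3 ^ Δ) ∧
    ((∀ b, (Gm S β γ b).Finite ∧ (Gm S β γ b).ncard ≤ Δ) → ∀ v ∈ S, γ v ≠ β v →
      ∀ y, β y = γ v → dg S β γ Δ y ≠ dg S β γ Δ v)

/-- Module `Ct`: for a given label there are few successors with bad vertices. -/
def StCt : Prop :=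
  ∀ (V : Type) (G : SimpleGraph V) (m : ℕ) (D : ℕ → Lv V) (W : ℕ → Set V), Twr G m D W →
    ∀ (p p0 : ℕ × ℕ) (fs : List (ℕ × ℕ)) (j n n1 : ℕ) (η : ℝ) (A : List V → Prop), 0 < η →
      hg fs (ty fs) ≤ p0.1 → hg (p0 :: fs) p0.2 ≤ p.1 → p0.1 + p0.2 + 1 < p.1 →
      hg (p :: p0 :: fs) j ≤ n → 4 * (n1 : ℝ) * (m + 1) ≤ η * (p.1 + 1) →
      (∀ xs, ∃ F : Finset V, F.card ≤ n1 ∧ (∀ q ∈ F, q ∈ (D p.1).dom) ∧
        ∀ X, A (X :: xs) → ∃ q ∈ F, X = q ∨ G.Adj X q) →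
        ∀ S ⊆ W n ∩ Bd D (p :: p0 :: fs) j η A, ∀ b,
          (Gm S (lb D p0.1 (j + p0.2 + 1)) (lb D p0.1 (j + p0.2 + 2)) b).Finite ∧
          (Gm S (lb D p0.1 (j + p0.2 + 1)) (lb D p0.1 (j + p0.2 + 2)) b).ncard ≤
            (D p.1).q * ⌊2 * n1 * (D p.1).K / η⌋₊

/-- Module `C6`: there are no bad vertices above a level on which the colouring is constant. -/
def StC6 : Prop :=
  ∀ (V : Type) (G : SimpleGraph V) (m : ℕ) (D : ℕ → Lv V) (W : ℕ → Set V), Twr G m D W →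
    ∀ (p p0 : ℕ × ℕ) (fs : List (ℕ × ℕ)) (j n n1 : ℕ) (η : ℝ) (A : List V → Prop), 0 < η →
      Dif D W p0.1 →
      hg fs (ty fs) ≤ p0.1 → hg (p0 :: fs) p0.2 ≤ p.1 → p0.1 + p0.2 + 1 < p.1 →
      hg (p :: p0 :: fs) j ≤ n → p0.1 + j + p0.2 + 3 ≤ n →
      4 * (n1 : ℝ) * (m + 1) ≤ η * (p.1 + 1) →
      (∀ xs, ∃ F : Finset V, F.card ≤ n1 ∧ (∀ q ∈ F, q ∈ (D p.1).dom) ∧
        ∀ X, A (X :: xs) → ∃ q ∈ F, X = q ∨ G.Adj X q) →
      (∀ x ∈ W (n + 1), ∀ y ∈ W (n + 1),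
        dg ((D n).dom ∩ Bd D (p :: p0 :: fs) j η A) (lb D p0.1 (j + p0.2 + 1))
          (lb D p0.1 (j + p0.2 + 2)) ((D p.1).q * ⌊2 * n1 * (D p.1).K / η⌋₊) x =
        dg ((D n).dom ∩ Bd D (p :: p0 :: fs) j η A) (lb D p0.1 (j + p0.2 + 1))
          (lb D p0.1 (j + p0.2 + 2)) ((D p.1).q * ⌊2 * n1 * (D p.1).K / η⌋₊) y) →
        ∀ v ∈ W (n + 2), v ∉ Bd D (p :: p0 :: fs) j η A

/-- Module `Up`: words with the tree above. -/
def StUp : Prop :=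
  ∀ (V : Type) (G : SimpleGraph V) (m h M : ℕ) (κ ε : ℝ) (D : ℕ → Lv V) (W : ℕ → Set V)
    (S : Set ℕ) (d : ℕ → ℕ → ℕ) (Θ : List (ℕ × ℕ) → ℕ), Twr G m D W → S.Infinite → 0 < κ →
      (∀ fs : List (ℕ × ℕ), fs.length = h + 1 → Adm S h d Θ fs → ∀ j : ℕ, ∃ N : ℕ, ∀ v ∈ W N,
        κ ≤ EW D v fs j (fun xs => if Ind G xs then 1 else 0)) →
      (∀ n < h, ∀ (p : ℕ × ℕ) (fs : List (ℕ × ℕ)), fs.length = h - n → Adm S h d Θ (p :: fs) →
        ∀ g j : ℕ, ∃ N : ℕ, ∀ v ∈ W N, v ∉ Bd D (p :: fs) j (κ / 4 ^ n / 2)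
          (Fl G D M ε n p.1 g)) →
        ∃ (a b : ℕ) (x : V), GD G D M ε h [x] (a + 1) b

/-- Module `Tc`: everything is determined by the levels in use. -/
def StTc : Prop :=
  ∀ (V : Type) (G : SimpleGraph V) (M : ℕ) (ε : ℝ) (D D' : ℕ → Lv V) (N : ℕ),
    (∀ e < N, D e = D' e) →
    (∀ b i v, b + i < N → own D i b v = own D' i b v) ∧
    (∀ b i v, b + i < N → lb D b i v = lb D' b i v) ∧
    (∀ b i x, b + i < N → U G D b i x = U G D' b i x) ∧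
    (∀ fs j v g, hg fs j ≤ N → EW D v fs j g = EW D' v fs j g) ∧
    (∀ n xs a b, b ≤ N → (GD G D M ε n xs a b ↔ GD G D' M ε n xs a b)) ∧
    ∀ n f g ws, f < N → g ≤ N → (Fl G D M ε n f g ws ↔ Fl G D' M ε n f g ws)

/-! ### The theorem -/

/-- **The chain theorem.** -/
def StChain : Prop :=
  ∀ (V : Type) (G : SimpleGraph V) (big : Set V → Prop) (m k h M D0 : ℕ), Ide big →
    (∀ v, {u | G.Adj v u}.Finite) → G.CliqueFree k → (∀ φ : List (Fin M) → V, ¬ Tree G h M φ) →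
      GIT.VC G D0 → ∀ W0 : Set V, big W0 → ¬ Good G big m (fun _ _ => True) W0

end Pool.Agent.Lib.TCH
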