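import Pool.Agent.Lib.TCH.Lvl
import Pool.Agent.Lib.GR3.Basic

/-!
# From self-linked incidences in the fibres to small sets

If a set is not good then there is a big subset `W0` such that all the self-linked incidences in
the fibres of `W0` live on `C`-colourable sets, with a uniform `C` (compactness).
-/

set_option autoImplicit false

namespace Pool.Agent.Lib.TCH

open Finset Classical
open Pool.Agent.Lib.GR3 (Env Cl Sm)

/-- A self-linked incidence in the fibre `n` of `W` with `q` stages. -/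
structure FB {V Ω : Type} (E : Env V) (W : Set V) (n m q : ℕ) (K ε : ℝ) (A : Finset V)
    (As : ℕ → Finset V) (O : ℕ → Finset Ω) (hub : ℕ → Ω → V) (Ow Nr : ℕ → V → Ω → Prop)
    (r : ℕ → V → ℝ) (w : ℕ → Ω → ℝ) : Prop where
  mem : ∀ x ∈ A, x ∈ W ∧ E.c x = n
  stg : ∀ s < q, Stg E.G K ε A (As s) (O s) (hub s) (Ow s) (Nr s) (r s) (w s)
  hb : ∀ s < q, ∀ o ∈ O s, hub s o ∈ W ∧ E.c (hub s o) = n
  conf : ∀ x ∈ A, ∀ t ∈ A, ((range q).filter fun s =>
    ¬ Conf E.G (As s) (O s) (hub s) (Ow s) (Nr s) x t).card ≤ m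

/-- Compactness. -/
def StUnif : Prop :=
  ∀ (V : Type) (E : Env V) (D0 m : ℕ) (W : Set V), GIT.VC E.G D0 →
    ¬ Good E.G (fun A => ¬ Sm E A) m (fun _ _ => True) W →
      ∃ (W0 : Set V) (R : ℕ), W0 ⊆ W ∧ ¬ Sm E W0 ∧
        ∀ (q : ℕ) (K ε : ℝ), 0 < K → 0 < ε → R + 1 ≤ q → ∃ C : ℕ,
          ∀ (Ω : Type) (n : ℕ) (A : Finset V) (As : ℕ → Finset V) (O : ℕ → Finset Ω)
            (hub : ℕ → Ω → V) (Ow Nr : ℕ → V → Ω → Prop) (r : ℕ → V → ℝ) (w : ℕ → Ω → ℝ),
            FB E W0 n m q K ε A As O hub Ow Nr r w → Cl E {x | x ∈ A} C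

namespace Unif_

/-- Levels in different fibres form one level. -/
theorem comb {V : Type} (E : Env V) (m R q : ℕ) (K : ℝ) (W : Set V) (n : ℕ → ℕ)
    (hn : Function.Injective n) (D : ℕ → Lv V) (hR : R + 1 ≤ q)
    (hq : ∀ j, (D j).q = q) (hDK : ∀ j, (D j).K = K)
    (hD : ∀ j, OK E.G m (fun _ _ => True) (R + 1) {v | v ∈ W ∧ E.c v = n j} (D j)) :
    ∃ D' : Lv V, OK E.G m (fun _ _ => True) (R + 1) W D' ∧ D'.dom = {x | ∃ j, x ∈ (D j).dom} := by
  have hc : ∀ j, ∀ x ∈ (D j).dom, E.c x = n j := fun j x hx => ((hD j).sub hx).2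
  set J : V → ℕ := fun x => if h : ∃ j, n j = E.c x then h.choose else 0 with hJ
  have hJ1 : ∀ j x, E.c x = n j → J x = j := by
    intro j x hx
    have h : ∃ j, n j = E.c x := ⟨j, hx.symm⟩
    rw [hJ]
    simp only
    rw [dif_pos h]
    exact hn (h.choose_spec.trans hx)
  have hsup : ∀ j, ∀ s < q, ∀ x ∈ (D j).dom, ∀ y, (D j).p s x y ≠ 0 → y ∈ W ∧ E.c y = n j :=
    fun j s hs x hx y hy => ((hD j).sup s (by rw [hq]; exact hs) x hx y hy).1
  obtain ⟨nr, hnr⟩ : ∃ nr : ℕ → V → V → Prop, ∀ s x t,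
      nr s x t ↔ (E.c x = E.c t → (D (J x)).near s x t) := ⟨_, fun _ _ _ => Iff.rfl⟩
  refine ⟨⟨q, fun s x => (D (J x)).p s x, nr, K, {x | ∃ j, x ∈ (D j).dom}, fun _ _ => 0⟩, ?_,
    rfl⟩
  refine ⟨?_, by omega, hR, ?_, ?_, ?_, ?_, ?_, ?_, ?_⟩
  · rintro x ⟨j, hj⟩
    exact ((hD j).sub hj).1
  · rintro s hs x ⟨j, hj⟩ y
    have h1 := hJ1 j x (hc j x hj)
    simp only
    rw [h1]
    exact (hD j).nn s (by rw [hq]; exact hs) x hj y
  · rintro s hs x ⟨j, hj⟩
    have h1 := hJ1 j x (hc j x hj)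
    simp only
    rw [h1]
    exact (hD j).one s (by rw [hq]; exact hs) x hj
  · rintro s hs x ⟨j, hj⟩ y hy
    have h1 := hJ1 j x (hc j x hj)
    simp only at hy
    rw [h1] at hy
    exact ⟨(hsup j s hs x hj y hy).1, trivial⟩
  · rintro s hs x ⟨j, hj⟩ y ⟨i, hi⟩
    have h1 := hJ1 j x (hc j x hj)
    simp only
    rw [h1]
    by_cases hij : i = j
    · rw [hij] at hi
      exact (hD j).atm s (by rw [hq]; exact hs) x hj y hi
    · have h2 : (D j).p s x y = 0 := by
        by_contra h3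
        have h4 := (hsup j s hs x hj y h3).2
        exact hij (hn ((hc i y hi).symm.trans h4))
      rw [h2, mul_zero]
      exact zero_le_one
  · rintro s hs x ⟨j, hj⟩
    have h1 := hJ1 j x (hc j x hj)
    simp only
    rw [h1]
    exact (hD j).adj s (by rw [hq]; exact hs) x hj
  · rintro s hs t ⟨i, hi⟩ X hX hinj
    simp only
    have h1 : ∀ x ∈ X, E.c x ≠ E.c t → ms ((D (J x)).p s x) {y | E.G.Adj y t} = 0 := by
      intro x hx hxt
      obtain ⟨⟨j, hj⟩, -⟩ := hX x hx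
      rw [hJ1 j x (hc j x hj)]
      refine Finset.sum_eq_zero fun y hy => ?_
      rw [Finset.mem_filter, Finsupp.mem_support_iff] at hy
      have h2 := (hsup j s hs x hj y hy.1).2
      exact absurd ((hc j x hj).trans (h2.symm.trans (E.adj_c y t hy.2))) hxt
    have h2 : ∑ x ∈ X, ms ((D (J x)).p s x) {y | E.G.Adj y t} =
        ∑ x ∈ X with E.c x = E.c t, ms ((D i).p s x) {y | E.G.Adj y t} := by
      rw [Finset.sum_filter]
      refine Finset.sum_congr rfl fun x hx => ?_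
      split_ifs with h3
      · rw [hJ1 i x (h3.trans (hc i t hi))]
      · exact h1 x hx h3
    rw [h2]
    have h3 : ∀ x ∈ X, E.c x = E.c t → x ∈ (D i).dom ∧ (D i).near s x t ∧ J x = i := by
      intro x hx hxt
      obtain ⟨⟨j, hj⟩, hnr'⟩ := hX x hx
      have h4 : J x = j := hJ1 j x (hc j x hj)
      have h5 : J x = i := hJ1 i x (hxt.trans (hc i t hi))
      have h6 : j = i := h4.symm.trans h5
      rw [h6] at hj
      have h7 := (hnr s x t).1 hnr' hxt
      rw [h5] at h7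
      exact ⟨hj, h7, h5⟩
    have h4 := (hD i).bud s (by rw [hq]; exact hs) t hi (X.filter fun x => E.c x = E.c t) (by
      intro x hx
      rw [Finset.mem_filter] at hx
      exact ⟨(h3 x hx.1 hx.2).1, (h3 x hx.1 hx.2).2.1⟩) (by
      intro x hx x' hx' he
      rw [Finset.mem_filter] at hx hx'
      refine hinj x hx.1 x' hx'.1 ?_
      simp only
      rw [(h3 x hx.1 hx.2).2.2, (h3 x' hx'.1 hx'.2).2.2]
      exact he)
    rw [hDK] at h4
    exact h4
  · rintro x ⟨j, hj⟩ t ⟨i, hi⟩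
    have h1 := hJ1 j x (hc j x hj)
    by_cases hij : i = j
    · rw [hij] at hi
      refine le_trans (Finset.card_le_card ?_) ((hD j).conf x hj t hi)
      intro s hs
      rw [Finset.mem_filter] at hs ⊢
      rw [hq]
      refine ⟨hs.1, fun h => hs.2 ((hnr s x t).2 fun _ => ?_)⟩
      rw [h1]
      exact h
    · have h2 : ((range q).filter fun s => ¬ nr s x t) = ∅ := by
        refine Finset.filter_eq_empty_iff.2 fun s _ h => h ((hnr s x t).2 fun h3 => ?_)
        exact absurd (hn ((hc i t hi).symm.trans (h3.symm.trans (hc j x hj)))) hij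
      simp only
      rw [h2, Finset.card_empty]
      exact Nat.zero_le _

/-- The sets in one fibre are colourable. -/
theorem fibre {V : Type} (E : Env V) (n : ℕ) (A : Set V) (hA : ∀ x ∈ A, E.c x = n) :
    Cl E A (E.fib n).card := by
  refine ⟨fun v => if h : v ∈ E.fib n then ((E.fib n).equivFin ⟨v, h⟩).1 else 0, ?_, ?_⟩
  · intro v hv
    have h : v ∈ E.fib n := (E.mem_fib n v).2 (hA v hv)
    simp only
    rw [dif_pos h]
    exact Fin.is_lt _
  · intro u hu v hv huv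
    have h : u ∈ E.fib n := (E.mem_fib n u).2 (hA u hu)
    have h' : v ∈ E.fib n := (E.mem_fib n v).2 (hA v hv)
    simp only
    rw [dif_pos h, dif_pos h']
    intro he
    have h2 := (E.fib n).equivFin.injective (Fin.ext he)
    exact huv.ne (Subtype.ext_iff.1 h2)

end Unif_

open Unif_

theorem stUnif : StUnif := by
  intro V E D0 m W hvc hgood
  unfold Good at hgood
  push Not at hgood
  obtain ⟨W0, hW0, hbig, R, hno⟩ := hgood
  refine ⟨W0, R, hW0, hbig, ?_⟩
  intro q K ε hK hε hq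
  obtain ⟨N, K', hL⟩ := stLvl D0 R q K ε hK hε hq
  by_contra hcon
  push Not at hcon
  -- bad structures in the fibres
  have hlev : ∀ C : ℕ, ∃ (n : ℕ) (f : V → Fin N) (D : Fin N → Lv V) (A : Finset V),
      ¬ Cl E {x | x ∈ A} C ∧ (∀ x ∈ A, E.c x = n) ∧
      ∀ i, (D i).q = q ∧ (D i).K = K' ∧ (D i).dom = {x | x ∈ A ∧ f x = i} ∧
        OK E.G m (fun _ _ => True) (R + 1) {v | v ∈ W0 ∧ E.c v = n} (D i) := by
    intro C
    obtain ⟨Ω, n, A, As, O, hub, Ow, Nr, r, w, hFB, hA⟩ := hcon C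
    obtain ⟨f, D, hfD⟩ := hL V Ω E.G m {v | v ∈ W0 ∧ E.c v = n} A As O hub Ow Nr r w hvc
      hFB.mem hFB.stg hFB.hb hFB.conf
    exact ⟨n, f, D, A, hA, fun x hx => (hFB.mem x hx).2, hfD⟩
  choose n f D A hA hAn hD using hlev
  -- a sequence of bad structures in different fibres
  have hC : ∃ C : ℕ → ℕ, (∀ j, j ≤ C j) ∧ Function.Injective fun j => n (C j) := by
    have hstep : ∀ (j : ℕ) (S : Finset ℕ), ∃ C', j ≤ C' ∧ n C' ∉ S := by
      intro j S
      refine ⟨max j (∑ i ∈ S, (E.fib i).card), le_max_left _ _, fun hin => ?_⟩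
      refine hA (max j (∑ i ∈ S, (E.fib i).card)) ?_
      refine (fibre E _ {x | x ∈ A _} (hAn _)).mono Set.Subset.rfl ?_
      exact le_trans (Finset.single_le_sum (f := fun i => (E.fib i).card)
        (fun _ _ => Nat.zero_le _) hin) (le_max_right _ _)
    choose g hg1 hg2 using hstep
    let T : ℕ → Finset ℕ := fun j => Nat.rec ∅ (fun j S => insert (n (g j S)) S) j
    have hT : ∀ j, T (j + 1) = insert (n (g j (T j))) (T j) := fun j => rfl
    have hTm : ∀ i j, i ≤ j → T i ⊆ T j := by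
      intro i j hij
      induction j, hij using Nat.le_induction with
      | base => exact Finset.Subset.rfl
      | succ j _ ih =>
        rw [hT]
        exact ih.trans (Finset.subset_insert _ _)
    refine ⟨fun j => g j (T j), fun j => hg1 _ _, ?_⟩
    have hlt : ∀ i j, i < j → n (g i (T i)) ≠ n (g j (T j)) := by
      intro i j hij he
      refine hg2 j (T j) ?_
      rw [← he]
      refine hTm (i + 1) j hij ?_
      rw [hT]
      exact Finset.mem_insert_self _ _
    intro i j hij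
    by_contra hne
    rcases lt_or_gt_of_ne hne with h | h
    · exact hlt i j h hij
    · exact hlt j i h hij.symm
  obtain ⟨C, hC1, hC2⟩ := hC
  have hcomb : ∀ i : Fin N, ∃ D' : Lv V, OK E.G m (fun _ _ => True) (R + 1) W0 D' ∧
      D'.dom = {x | ∃ j, x ∈ (D (C j) i).dom} := fun i =>
    comb E m R q K' W0 (fun j => n (C j)) hC2 (fun j => D (C j) i) hq
      (fun j => (hD (C j) i).1) (fun j => (hD (C j) i).2.1) fun j => (hD (C j) i).2.2.2
  choose D' hD'1 hD'2 using hcomb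
  have hsm : ∀ i, Sm E (D' i).dom := by
    intro i
    exact hno (D' i) (hD'1 i)
  have hall : Sm E {x | ∃ i ∈ (Finset.univ : Finset (Fin N)), x ∈ (D' i).dom} :=
    GR3.sm_biUnion Finset.univ (fun i => (D' i).dom) fun i _ => hsm i
  obtain ⟨c, hc⟩ := hall
  refine hA (C c) (hc.mono ?_ (hC1 c))
  intro x hx
  refine ⟨f (C c) x, Finset.mem_univ _, ?_⟩
  rw [hD'2]
  refine ⟨c, ?_⟩
  rw [(hD (C c) _).2.2.1]
  exact ⟨hx, rfl⟩

end Pool.Agent.Lib.TCH
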