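import Pool.Agent.Lib.TCH.Stmts
import Pool.Agent.Lib.ILT.F3

/-!
# Module `Dg`: digraphs of bounded outdegree are finitely colourable
-/

set_option autoImplicit false

namespace Pool.Agent.Lib.TCH

open Finset Classical

theorem stDg : StDg := by
  intro L D F hF
  have h1 : ∀ l, ∃ g : Fin D → L, ∀ l' ∈ F l, ∃ i, g i = l' := by
    intro l
    by_cases hD : D = 0
    · subst hD
      refine ⟨Fin.elim0, fun l' hl' => ?_⟩
      have := hF l
      have h2 : (F l) = ∅ := by
        rw [← Finset.card_eq_zero]; omega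
      rw [h2] at hl'
      exact absurd hl' (Finset.notMem_empty _)
    · have hpos : 0 < D := Nat.pos_of_ne_zero hD
      set e := (F l).equivFin with he
      refine ⟨fun i => if h : i.1 < (F l).card then (e.symm ⟨i.1, h⟩).1 else l, ?_⟩
      intro l' hl'
      have h3 := (e ⟨l', hl'⟩).2
      refine ⟨⟨(e ⟨l', hl'⟩).1, lt_of_lt_of_le h3 (hF l)⟩, ?_⟩
      simp [h3]
  choose g hg using h1
  choose φ hφ using fun i : Fin D => ILT.stF3 L (fun l => g l i)
  have e : (Fin D → Fin 3) ≃ Fin (3 ^ D) := Fintype.equivFinOfCardEq (by simp)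
  refine ⟨fun l => e (fun i => φ i l), ?_⟩
  intro l l' hl' hne heq
  obtain ⟨i, hi⟩ := hg l l' hl'
  have h4 := e.injective heq
  have h5 := congrFun h4 i
  have h6 := hφ i l (by rw [hi]; exact hne)
  rw [hi] at h6
  exact h6 h5.symm

end Pool.Agent.Lib.TCH
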