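import Pool.Agent.Lib.TCH.Stmts
import Pool.Agent.Lib.GIT.Net
import Pool.Agent.Lib.GSR5.Minimax

/-!
# A spread law or a bounded cover, for set systems
-/

set_option autoImplicit false

namespace Pool.Agent.Lib.TCH

open Finset Classical
open Pool.Agent.Lib.FracGS (bern sum_bern bern_nonneg)

namespace MxAux

/-- Nets for a relation on a finite type. -/
lemma net (D : ℕ) (e : ℝ) (he : 0 < e) : ∃ t : ℕ, ∀ (X ι : Type) [Fintype ι] (A : Finset X)
    (R : X → ι → Prop),
    (∀ U : Finset ι, D ≤ U.card → ∃ T, T ⊆ U ∧ ∀ x ∈ A, (U.filter fun q => R x q) ≠ T) →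
      ∀ l : ι → ℝ, (∀ v, 0 ≤ l v) → ∑ v, l v ≤ 1 →
        ∃ F : Finset ι, F.card ≤ t ∧ ∀ x ∈ A, e ≤ ∑ q with R x q, l q → ∃ q ∈ F, R x q := by
  obtain ⟨r, hr1, hnet⟩ := FracGS.stNet D (e / 2) (by positivity)
  have hrpos : 0 < r := by linarith
  set θ : ℝ := 1 / r with hθ
  have hθ0 : 0 < θ := by positivity
  refine ⟨⌈1 / θ⌉₊ + ⌈4 * r⌉₊, ?_⟩
  intro X V _ A R hVC l hl hl1
  set Hv : Finset V := Finset.univ.filter (fun v => θ ≤ l v) with hHv
  set B0 : Finset V := Finset.univ.filter (fun v => ¬ θ ≤ l v) with hB0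
  set ζ : V → ℝ := fun v => if v ∈ B0 then l v else 0 with hζ
  set fam : Finset (Finset V) := (A.image (fun x => B0.filter (fun q => R x q))).filter
    (fun S => e / 2 < ∑ i ∈ S, ζ i) with hfam
  have hz0 : ∀ i, 0 ≤ ζ i := by
    intro i
    simp only [hζ]
    split_ifs
    · exact hl i
    · exact le_rfl
  have hz1 : ∀ i, r * ζ i ≤ 1 := by
    intro i
    simp only [hζ]
    split_ifs with hi
    · have h3 : l i < θ := not_le.mp (Finset.mem_filter.mp hi).2
      have h5 := mul_le_mul_of_nonneg_left h3.le hrpos.le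
      rw [hθ, mul_one_div_cancel hrpos.ne'] at h5
      exact h5
    · rw [mul_zero]
      exact zero_le_one
  have hzl : ∀ i, ζ i ≤ l i := by
    intro i
    simp only [hζ]
    split_ifs
    · exact le_rfl
    · exact hl i
  have hU : ∑ i ∈ B0, ζ i ≤ 1 := by
    calc ∑ i ∈ B0, ζ i ≤ ∑ i ∈ B0, l i := Finset.sum_le_sum fun i _ => hzl i
      _ ≤ ∑ i, l i := Finset.sum_le_sum_of_subset_of_nonneg (Finset.subset_univ _)
          fun i _ _ => hl i
      _ ≤ 1 := hl1
  have hp0 : ∀ i, 0 ≤ r * ζ i := fun i => mul_nonneg hrpos.le (hz0 i)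
  have hA := hnet V ζ B0 fam hz0 hz1 hU (by
    intro S hS
    obtain ⟨hS1, hS2⟩ := Finset.mem_filter.mp hS
    obtain ⟨v, _, rfl⟩ := Finset.mem_image.mp hS1
    exact ⟨Finset.filter_subset _ _, hS2⟩) (by
    intro T hTB hcard hsh
    obtain ⟨T', hT', hne⟩ := hVC T hcard
    obtain ⟨S, hS, hTS⟩ := hsh hT'
    obtain ⟨hS1, _⟩ := Finset.mem_filter.mp hS
    obtain ⟨x, hx, rfl⟩ := Finset.mem_image.mp hS1
    refine hne x hx ?_
    rw [← hTS]
    ext u
    rw [Finset.mem_filter, Finset.mem_inter, Finset.mem_filter]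
    exact ⟨fun hu => ⟨hu.1, hTB hu.1, hu.2⟩, fun hu => ⟨hu.1, hu.2.2⟩⟩)
  have hB := FracGS.PickZAux.markov (p := fun i => r * ζ i) hp0 hz1 B0 (r := r) (by
    rw [← Finset.mul_sum]
    calc r * ∑ i ∈ B0, ζ i ≤ r * 1 := mul_le_mul_of_nonneg_left hU hrpos.le
      _ = r := mul_one r) (N := ⌈4 * r⌉₊) (Nat.le_ceil _)
  have htot := sum_bern (fun i => r * ζ i)
  have hex : ∃ Z : Finset V, (¬ ∃ S ∈ fam, Disjoint S Z) ∧
      (B0.filter (fun u => u ∈ Z)).card ≤ ⌈4 * r⌉₊ := by
    by_contra hcon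
    push Not at hcon
    have hcover : ∑ Z : Finset V, bern (fun i => r * ζ i) Z ≤
        ∑ Z ∈ (Finset.univ : Finset (Finset V)).filter
          (fun Z => ∃ S ∈ fam, Disjoint S Z), bern (fun i => r * ζ i) Z +
        ∑ Z ∈ (Finset.univ : Finset (Finset V)).filter
          (fun Z => ¬ (B0.filter (fun u => u ∈ Z)).card ≤ ⌈4 * r⌉₊),
          bern (fun i => r * ζ i) Z := by
      rw [Finset.sum_filter, Finset.sum_filter, ← Finset.sum_add_distrib]
      refine Finset.sum_le_sum fun Z _ => ?_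
      have hb : 0 ≤ bern (fun i => r * ζ i) Z := bern_nonneg hp0 hz1 Z
      by_cases h3 : ∃ S ∈ fam, Disjoint S Z
      · rw [if_pos h3]
        split_ifs <;> linarith
      · rw [if_neg h3]
        have h4 : ¬ (B0.filter (fun u => u ∈ Z)).card ≤ ⌈4 * r⌉₊ := by
          rw [not_le]
          refine hcon Z ?_
          intro S hS hd
          exact h3 ⟨S, hS, hd⟩
        rw [if_pos h4]
        linarith
    linarith
  obtain ⟨Z, hZ1, hZ2⟩ := hex
  refine ⟨Hv ∪ B0.filter (fun u => u ∈ Z), ?_, ?_⟩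
  · refine (Finset.card_union_le _ _).trans (add_le_add ?_ hZ2)
    have h3 := GIT.NetG.card_heavy hl hl1 hθ0
    have h4 : ((Hv.card : ℕ) : ℝ) ≤ (⌈1 / θ⌉₊ : ℝ) := h3.trans (Nat.le_ceil _)
    exact_mod_cast h4
  · intro x hx hv
    by_cases hnH : ∃ q ∈ Hv, R x q
    · obtain ⟨q, hq, hvq⟩ := hnH
      exact ⟨q, Finset.mem_union_left _ hq, hvq⟩
    push Not at hnH
    have h5 : ∑ q with R x q, l q = ∑ u ∈ B0.filter (fun q => R x q), ζ u := by
      have h6 : B0.filter (fun q => R x q) ⊆ Finset.univ.filter (fun q => R x q) :=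
        Finset.filter_subset_filter _ (Finset.subset_univ _)
      rw [← Finset.sum_subset h6]
      · refine Finset.sum_congr rfl fun u hu => ?_
        simp only [hζ]
        rw [if_pos (Finset.mem_filter.mp hu).1]
      · intro u hu hu2
        exfalso
        refine hu2 (Finset.mem_filter.mpr ⟨Finset.mem_filter.mpr ⟨Finset.mem_univ _, ?_⟩,
          (Finset.mem_filter.mp hu).2⟩)
        intro h7
        exact hnH u (Finset.mem_filter.mpr ⟨Finset.mem_univ _, h7⟩) (Finset.mem_filter.mp hu).2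
    rw [h5] at hv
    have h7 : e / 2 < ∑ u ∈ B0.filter (fun q => R x q), ζ u := by linarith
    have h8 : B0.filter (fun q => R x q) ∈ fam := Finset.mem_filter.mpr
      ⟨Finset.mem_image.mpr ⟨x, hx, rfl⟩, h7⟩
    have h9 : ¬ Disjoint (B0.filter (fun q => R x q)) Z := fun h => hZ1 ⟨_, h8, h⟩
    obtain ⟨q, hq1, hq2⟩ := Finset.not_disjoint_iff.mp h9
    obtain ⟨hq3, hq4⟩ := Finset.mem_filter.mp hq1
    exact ⟨q, Finset.mem_union_right _ (Finset.mem_filter.mpr ⟨hq3, hq2⟩), hq4⟩

end MxAux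

open MxAux in
/-- Module `Mx`. -/
theorem stMx : StMx := by
  intro D e he
  obtain ⟨t, ht⟩ := net D e he
  refine ⟨t, ?_⟩
  intro X Q A B R hA hVC
  rcases B.eq_empty_or_nonempty with rfl | hB
  · obtain ⟨x0, hx0⟩ := hA
    refine Or.inl ⟨fun x => if x = x0 then 1 else 0, fun x => ?_, fun x hx => ?_, ?_, ?_⟩
    · dsimp only
      split_ifs
      · exact zero_le_one
      · exact le_refl _
    · by_cases hxx : x = x0
      · rw [hxx]
        exact hx0
      · exact absurd (if_neg hxx) hx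
    · rw [Finset.sum_ite_eq']
      rw [if_pos hx0]
    · intro q hq
      exact absurd hq (Finset.notMem_empty q)
  · have hI : (Finset.univ : Finset {x // x ∈ A}).Nonempty := by
      obtain ⟨x0, hx0⟩ := hA
      exact ⟨⟨x0, hx0⟩, Finset.mem_univ _⟩
    have hJ : (Finset.univ : Finset {q // q ∈ B}).Nonempty := by
      obtain ⟨q0, hq0⟩ := hB
      exact ⟨⟨q0, hq0⟩, Finset.mem_univ _⟩
    rcases GSR5.stMinimax {x // x ∈ A} {q // q ∈ B} Finset.univ Finset.univ
      (fun x q => if R x.1 q.1 then 1 else 0) e hI hJ with ⟨τ, h1, -, h3⟩ | ⟨μ, h1, -, h3⟩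
    · have hsum : ∀ f : X → ℝ, ∑ x ∈ A, f x * (if h : x ∈ A then τ ⟨x, h⟩ else 0) =
          ∑ i : {x // x ∈ A}, f i.1 * τ i := by
        intro f
        rw [← Finset.sum_attach A, Finset.univ_eq_attach]
        refine Finset.sum_congr rfl fun i _ => ?_
        rw [dif_pos i.2]
      refine Or.inl ⟨fun x => if h : x ∈ A then τ ⟨x, h⟩ else 0, fun x => ?_, fun x hx => ?_,
        ?_, fun q hq => ?_⟩
      · dsimp only
        split_ifs with h
        · exact h1.1 _
        · exact le_refl _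
      · by_contra h
        exact hx (dif_neg h)
      · have h4 := hsum fun _ => 1
        simp only [one_mul] at h4
        rw [h4]
        exact h1.2
      · have h4 := h3 ⟨q, hq⟩ (Finset.mem_univ _)
        have h5 := hsum fun x => if R x q then 1 else 0
        rw [Finset.sum_filter]
        refine le_trans (le_of_eq ?_) h4
        rw [show (∑ i : {x // x ∈ A}, τ i * if R i.1 q then (1 : ℝ) else 0) =
          ∑ i : {x // x ∈ A}, (if R i.1 q then (1 : ℝ) else 0) * τ i from
            Finset.sum_congr rfl fun i _ => mul_comm _ _, ← h5]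
        refine Finset.sum_congr rfl fun x _ => ?_
        by_cases h : R x q
        · rw [if_pos h, if_pos h, one_mul]
        · rw [if_neg h, if_neg h, zero_mul]
    · obtain ⟨F, hF1, hF2⟩ := ht X {q // q ∈ B} A (fun x q => R x q.1) (by
        intro U hU
        obtain ⟨T, hT, hT'⟩ := hVC (U.map (Function.Embedding.subtype _)) (by
          intro q hq
          obtain ⟨q', _, rfl⟩ := Finset.mem_map.1 hq
          exact q'.2) (by rw [Finset.card_map]; exact hU)
        refine ⟨U.filter (fun q => q.1 ∈ T), Finset.filter_subset _ _, fun x hx h => ?_⟩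
        refine hT' x hx ?_
        ext q
        rw [Finset.mem_filter]
        constructor
        · rintro ⟨hq, hRq⟩
          obtain ⟨q', hq', rfl⟩ := Finset.mem_map.1 hq
          have h4 : q' ∈ U.filter (fun q => R x q.1) := Finset.mem_filter.2 ⟨hq', hRq⟩
          rw [h] at h4
          exact (Finset.mem_filter.1 h4).2
        · intro hq
          have hqU := hT hq
          obtain ⟨q', hq', hqq⟩ := Finset.mem_map.1 hqU
          have hqq' : q'.1 = q := hqq
          have h4 : q' ∈ U.filter (fun q => q.1 ∈ T) := Finset.mem_filter.2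
            ⟨hq', by rw [hqq']; exact hq⟩
          rw [← h] at h4
          refine ⟨hqU, ?_⟩
          rw [← hqq']
          exact (Finset.mem_filter.1 h4).2) μ h1.1 h1.2.le
      refine Or.inr ⟨F.map (Function.Embedding.subtype _), ?_, ?_, fun x hx => ?_⟩
      · intro q hq
        obtain ⟨q', _, rfl⟩ := Finset.mem_map.1 hq
        exact q'.2
      · rw [Finset.card_map]
        exact hF1
      · obtain ⟨q, hq, hRq⟩ := hF2 x hx (by
          refine (h3 ⟨x, hx⟩ (Finset.mem_univ _)).trans (le_of_eq ?_)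
          rw [Finset.sum_filter]
          refine Finset.sum_congr rfl fun q _ => ?_
          by_cases h : R x q.1
          · rw [if_pos h, if_pos h, mul_one]
          · rw [if_neg h, if_neg h, mul_zero])
        exact ⟨q.1, Finset.mem_map.2 ⟨q, hq, rfl⟩, hRq⟩

end Pool.Agent.Lib.TCH
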