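import Pool.Agent.Lib.TCH.Stmts

/-!
# Chains of windows in graphs without an induced tree: the placement lemma
-/

set_option autoImplicit false

namespace Pool.Agent.Lib.TCH

open Finset Classical
open Pool.Agent.Lib.ILT (Par)

namespace PLAux

variable {X : Type} (A : Finset X) (par : ℕ → ℕ) (K : ℕ → X → X → X → ℝ)

/-- averaging over the node `k` -/
noncomputable def T (k : ℕ) (G : (ℕ → X) → ℝ) (φ : ℕ → X) : ℝ :=
  ∑ w ∈ A, K k (φ (par (par k))) (φ (par k)) w * G (Function.update φ k w)

/-- averaging over the nodes `a, ..., a + b - 1` (the first argument is `b`) -/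
noncomputable def Ex : ℕ → ℕ → ((ℕ → X) → ℝ) → (ℕ → X) → ℝ
  | 0, _, G => G
  | b + 1, a, G => T A par K a (Ex b (a + 1) G)

lemma ex_split (b c : ℕ) : ∀ (a : ℕ) (G : (ℕ → X) → ℝ),
    Ex A par K (b + c) a G = Ex A par K b a (Ex A par K c (a + b) G) := by
  induction b with
  | zero => intro a G; simp [Ex]
  | succ b ih =>
    intro a G
    rw [show b + 1 + c = (b + c) + 1 by omega]
    show T A par K a (Ex A par K (b + c) (a + 1) G) = T A par K a _
    rw [ih, show a + 1 + b = a + (b + 1) by omega]

lemma ex_one (a : ℕ) (G : (ℕ → X) → ℝ) : Ex A par K 1 a G = T A par K a G := rfl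

lemma ex_sum {ι : Type} (s : Finset ι) (f : ι → (ℕ → X) → ℝ) (b : ℕ) : ∀ (a : ℕ) (φ : ℕ → X),
    Ex A par K b a (fun φ => ∑ i ∈ s, f i φ) φ = ∑ i ∈ s, Ex A par K b a (f i) φ := by
  induction b with
  | zero => intro a φ; rfl
  | succ b ih =>
    intro a φ
    show ∑ w ∈ A, _ * Ex A par K b (a + 1) (fun φ => ∑ i ∈ s, f i φ) (Function.update φ a w) =
      ∑ i ∈ s, ∑ w ∈ A, _ * Ex A par K b (a + 1) (f i) (Function.update φ a w)
    rw [Finset.sum_comm]
    refine Finset.sum_congr rfl fun w _ => ?_
    rw [ih, Finset.mul_sum]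

/-- the averages over unrelated nodes commute -/
lemma comm1 (m k : ℕ) (h1 : par k ≠ m) (h2 : par (par k) ≠ m) (h3 : par m ≠ k)
    (h4 : par (par m) ≠ k) (hk : k ≠ m) (H : (ℕ → X) → ℝ) :
    T A par K m (T A par K k H) = T A par K k (T A par K m H) := by
  funext φ
  unfold T
  simp only [Finset.mul_sum]
  rw [Finset.sum_comm]
  refine Finset.sum_congr rfl fun w _ => Finset.sum_congr rfl fun v _ => ?_
  rw [Function.update_of_ne h1, Function.update_of_ne h2, Function.update_of_ne h3,
    Function.update_of_ne h4, Function.update_comm hk]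
  ring

lemma comm (m : ℕ) (b : ℕ) : ∀ (a : ℕ) (H : (ℕ → X) → ℝ),
    (∀ k, a ≤ k → k < a + b → par k ≠ m ∧ par (par k) ≠ m ∧ par m ≠ k ∧ par (par m) ≠ k ∧
      k ≠ m) →
    T A par K m (Ex A par K b a H) = Ex A par K b a (T A par K m H) := by
  induction b with
  | zero => intro a H _; rfl
  | succ b ih =>
    intro a H h
    obtain ⟨h1, h2, h3, h4, h5⟩ := h a (le_refl _) (by omega)
    show T A par K m (T A par K a (Ex A par K b (a + 1) H)) =
      T A par K a (Ex A par K b (a + 1) (T A par K m H))
    rw [comm1 A par K m a h1 h2 h3 h4 h5, ih (a + 1) H fun k hk hk' => h k (by omega) (by omega)]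

/-- dependence on one node -/
lemma indep (m : ℕ) (b : ℕ) : ∀ (a : ℕ) (H : (ℕ → X) → ℝ),
    (∀ k, a ≤ k → k < a + b → par k ≠ m ∧ par (par k) ≠ m ∧ k ≠ m) →
    (∀ φ v, H (Function.update φ m v) = H φ) →
    ∀ φ v, Ex A par K b a H (Function.update φ m v) = Ex A par K b a H φ := by
  induction b with
  | zero => intro a H _ h φ v; exact h φ v
  | succ b ih =>
    intro a H h hH φ v
    obtain ⟨h1, h2, h5⟩ := h a (le_refl _) (by omega)
    have ih' := ih (a + 1) H (fun k hk hk' => h k (by omega) (by omega)) hH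
    show ∑ w ∈ A, _ * Ex A par K b (a + 1) H _ = ∑ w ∈ A, _ * Ex A par K b (a + 1) H _
    refine Finset.sum_congr rfl fun w _ => ?_
    rw [Function.update_of_ne h1, Function.update_of_ne h2, Function.update_comm h5.symm, ih']

/-- partial assignments in the support of the law -/
def Good (Ad : ℕ → Set X) (r : X) (k : ℕ) (φ : ℕ → X) : Prop :=
  φ 0 = r ∧ (∀ i < k, φ i ∈ A ∧ φ i ∈ Ad i) ∧
    ∀ i, 1 ≤ i → i < k → K i (φ (par (par i))) (φ (par i)) (φ i) ≠ 0

section

variable (Ad : ℕ → Set X) (r : X) (n : ℕ) (hpar : ∀ j, 1 ≤ j → par j < j) (hle : ∀ j, par j ≤ j)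
  (hs : ∀ j, 1 ≤ j → j ≤ n → ∀ x ∈ A, x ∈ Ad (par (par j)) → ∀ v ∈ A, v ∈ Ad (par j) →
        ∀ w ∈ A, K j x v w ≠ 0 → w ∈ Ad j)

include hpar hle hs

lemma step (k : ℕ) (hk : 1 ≤ k) (hkn : k ≤ n) (φ : ℕ → X) (h : Good A par K Ad r k φ) (w : X)
    (hw : w ∈ A) (hK : K k (φ (par (par k))) (φ (par k)) w ≠ 0) :
    Good A par K Ad r (k + 1) (Function.update φ k w) := by
  obtain ⟨h0, h1, h2⟩ := h
  have hpk := hpar k hk
  have hppk : par (par k) < k := lt_of_le_of_lt (hle _) hpk
  refine ⟨?_, ?_, ?_⟩
  · rw [Function.update_of_ne (by omega)]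
    exact h0
  · intro i hi
    rcases Nat.lt_or_ge i k with hik | hik
    · rw [Function.update_of_ne (by omega)]
      exact h1 i hik
    · have : i = k := by omega
      subst this
      rw [Function.update_self]
      exact ⟨hw, hs i hk hkn _ (h1 _ hppk).1 (h1 _ hppk).2 _ (h1 _ hpk).1 (h1 _ hpk).2 w hw hK⟩
  · intro i hi hik'
    rcases Nat.lt_or_ge i k with hik | hik
    · have hpi := hpar i hi
      have hppi : par (par i) < i := lt_of_le_of_lt (hle _) hpi
      rw [Function.update_of_ne (by omega), Function.update_of_ne (by omega),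
        Function.update_of_ne (by omega)]
      exact h2 i hi hik
    · have : i = k := by omega
      subst this
      rw [Function.update_self, Function.update_of_ne (by omega), Function.update_of_ne (by omega)]
      exact hK

lemma mono (h0 : ∀ j x v w, 0 ≤ K j x v w) (G H : (ℕ → X) → ℝ) (b : ℕ) : ∀ (a : ℕ) (φ : ℕ → X),
    1 ≤ a → a + b ≤ n + 1 → Good A par K Ad r a φ →
    (∀ ψ, Good A par K Ad r (a + b) ψ → G ψ ≤ H ψ) →
    Ex A par K b a G φ ≤ Ex A par K b a H φ := by
  induction b with
  | zero => intro a φ _ _ hφ h; exact h φ hφ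
  | succ b ih =>
    intro a φ ha hab hφ h
    refine Finset.sum_le_sum fun w hw => ?_
    by_cases hK : K a (φ (par (par a))) (φ (par a)) w = 0
    · rw [hK, zero_mul, zero_mul]
    · refine mul_le_mul_of_nonneg_left ?_ (h0 _ _ _ _)
      refine ih (a + 1) _ (by omega) (by omega)
        (step A par K Ad r n hpar hle hs a ha (by omega) φ hφ w hw hK) fun ψ hψ => h ψ ?_
      rwa [show a + (b + 1) = a + 1 + b by omega]

lemma inv (h1 : ∀ j, 1 ≤ j → j ≤ n → ∀ x ∈ A, x ∈ Ad (par (par j)) → ∀ v ∈ A, v ∈ Ad (par j) →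
      ∑ w ∈ A, K j x v w = 1) (G : (ℕ → X) → ℝ) (b : ℕ) : ∀ (a : ℕ) (φ : ℕ → X),
    1 ≤ a → a + b ≤ n + 1 → Good A par K Ad r a φ →
    (∀ ψ k w, a ≤ k → G (Function.update ψ k w) = G ψ) →
    Ex A par K b a G φ = G φ := by
  induction b with
  | zero => intro a φ _ _ hφ h; rfl
  | succ b ih =>
    intro a φ ha hab hφ h
    have hpk := hpar a ha
    have hppk : par (par a) < a := lt_of_le_of_lt (hle _) hpk
    have hs1 := h1 a ha (by omega) _ (hφ.2.1 _ hppk).1 (hφ.2.1 _ hppk).2 _
      (hφ.2.1 _ hpk).1 (hφ.2.1 _ hpk).2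
    calc Ex A par K (b + 1) a G φ
        = ∑ w ∈ A, K a (φ (par (par a))) (φ (par a)) w * G φ := by
          refine Finset.sum_congr rfl fun w hw => ?_
          by_cases hK : K a (φ (par (par a))) (φ (par a)) w = 0
          · rw [hK, zero_mul, zero_mul]
          · congr 1
            rw [ih (a + 1) _ (by omega) (by omega)
              (step A par K Ad r n hpar hle hs a ha (by omega) φ hφ w hw hK)
              fun ψ k w' hk => h ψ k w' (by omega), h φ a w (le_refl _)]
      _ = G φ := by rw [← Finset.sum_mul, hs1, one_mul]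

lemma bdd (h0 : ∀ j x v w, 0 ≤ K j x v w)
    (h1 : ∀ j, 1 ≤ j → j ≤ n → ∀ x ∈ A, x ∈ Ad (par (par j)) → ∀ v ∈ A, v ∈ Ad (par j) →
      ∑ w ∈ A, K j x v w = 1) (G : (ℕ → X) → ℝ) (c : ℝ) (b a : ℕ) (φ : ℕ → X)
    (ha : 1 ≤ a) (hab : a + b ≤ n + 1) (hφ : Good A par K Ad r a φ)
    (h : ∀ ψ, Good A par K Ad r (a + b) ψ → G ψ ≤ c) : Ex A par K b a G φ ≤ c := by
  have e1 := mono A par K Ad r n hpar hle hs h0 G (fun _ => c) b a φ ha hab hφ h
  have e2 := inv A par K Ad r n hpar hle hs h1 (fun _ => c) b a φ ha hab hφ fun _ _ _ _ => rfl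
  rwa [e2] at e1

end

end PLAux

open PLAux in
theorem stPL : StPL := by
  intro X A n par hPar Ad K Cf ε r hrA hr0 hε h0 h1 hs hA hB hnε
  obtain ⟨hpar, hmon⟩ := hPar
  have hp0 : par 0 = 0 := by
    have h := hmon (Nat.zero_le 1)
    have h' := hpar 1 (le_refl _)
    omega
  have hle : ∀ j, par j ≤ j := by
    intro j
    rcases Nat.eq_zero_or_pos j with rfl | hj
    · omega
    · exact (hpar j hj).le
  have hG0 : Good A par K Ad r 1 (fun _ => r) := by
    refine ⟨rfl, ?_, ?_⟩
    · intro i hi
      have : i = 0 := by omega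
      subst this
      exact ⟨hrA, hr0⟩
    · intro i hi hi'
      omega
  have key : ∀ j l, 1 ≤ j → j ≤ n → l < j → l ≠ par j →
      Ex A par K n 1 (fun φ => if Cf j l (φ j) (φ l) then 1 else 0) (fun _ => r) ≤ ε := by
    intro j l hj hjn hlj hl
    -- forget the nodes after `j`
    have hjn' : n = (j - 1) + (1 + (n - j)) := by omega
    have e1 : Ex A par K n 1 (fun φ => if Cf j l (φ j) (φ l) then 1 else 0) =
        Ex A par K (j - 1) 1 (T A par K j (Ex A par K (n - j) (j + 1)
          (fun φ => if Cf j l (φ j) (φ l) then 1 else 0))) := by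
      conv_lhs => rw [hjn', ex_split, show 1 + (j - 1) = j by omega]
      rw [ex_split]
      rfl
    have hpj := hpar j hj
    have hppj : par (par j) < j := lt_of_le_of_lt (hle _) hpj
    -- the average over the node `j`
    have e2 : ∀ ψ, Good A par K Ad r j ψ → T A par K j (Ex A par K (n - j) (j + 1)
        (fun φ => if Cf j l (φ j) (φ l) then (1 : ℝ) else 0)) ψ =
          ∑ w ∈ A with Cf j l w (ψ l), K j (ψ (par (par j))) (ψ (par j)) w := by
      intro ψ hψ
      rw [Finset.sum_filter]
      refine Finset.sum_congr rfl fun w hw => ?_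
      by_cases hK : K j (ψ (par (par j))) (ψ (par j)) w = 0
      · rw [hK, zero_mul]
        split_ifs <;> rfl
      · rw [inv A par K Ad r n hpar hle hs h1 _ (n - j) (j + 1) _ (by omega) (by omega)
          (step A par K Ad r n hpar hle hs j hj hjn ψ hψ w hw hK)]
        · rw [Function.update_self, Function.update_of_ne (by omega)]
          split_ifs <;> simp
        · intro ψ' k w' hk
          show (if Cf j l (Function.update ψ' k w' j) (Function.update ψ' k w' l) then (1 : ℝ)
            else 0) = _
          rw [Function.update_of_ne (by omega), Function.update_of_ne (by omega)]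
    rw [e1]
    rcases Nat.lt_or_ge (par l) (par j) with hll | hge
    · -- not siblings
      set m := par j with hm
      have hm1 : 1 ≤ m := by omega
      set G' : (ℕ → X) → ℝ := fun ψ => ∑ w ∈ A with Cf j l w (ψ l), K j (ψ (par m)) (ψ m) w
        with hG'
      have hpm := hpar m hm1
      have hppm : par (par m) < m := lt_of_le_of_lt (hle _) hpm
      -- the average over the node `m`
      have e3 : ∀ ψ, (∀ i < m, ψ i ∈ A ∧ ψ i ∈ Ad i) → (ψ l ∈ A ∧ ψ l ∈ Ad l) →
          T A par K m G' ψ ≤ ε := by
        intro ψ hψ hψl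
        have := hA j l hj hjn hlj hll hl (ψ (par (par m))) (hψ _ hppm).1 (hψ _ hppm).2
          (ψ (par m)) (hψ _ hpm).1 (hψ _ hpm).2 (ψ l) hψl.1 hψl.2
        refine le_trans (le_of_eq ?_) this
        unfold T
        refine Finset.sum_congr rfl fun v _ => ?_
        rw [hG']
        simp only
        rw [Function.update_self, Function.update_of_ne hl, Function.update_of_ne (by omega)]
      have e4 : Ex A par K (j - 1) 1 (T A par K j (Ex A par K (n - j) (j + 1)
          (fun φ => if Cf j l (φ j) (φ l) then 1 else 0))) (fun _ => r) ≤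
            Ex A par K (j - 1) 1 G' (fun _ => r) := by
        refine mono A par K Ad r n hpar hle hs h0 _ _ (j - 1) 1 _ (le_refl _) (by omega) hG0 ?_
        intro ψ hψ
        rw [show 1 + (j - 1) = j by omega] at hψ
        rw [e2 ψ hψ]
      refine le_trans e4 ?_
      rcases Nat.lt_or_ge m l with hml | hml
      · -- `m < l`
        have e5 : Ex A par K (j - 1) 1 G' = Ex A par K (m - 1) 1 (T A par K m
            (Ex A par K (l - m) (m + 1) (Ex A par K (j - 1 - l) (l + 1) G'))) := by
          conv_lhs => rw [show j - 1 = (m - 1) + (1 + ((l - m) + (j - 1 - l))) by omega, ex_split,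
            show 1 + (m - 1) = m by omega]
          rw [ex_split, ex_split, show m + 1 + (l - m) = l + 1 by omega]
          rfl
        rw [e5]
        refine bdd A par K Ad r n hpar hle hs h0 h1 _ ε (m - 1) 1 _ (le_refl _) (by omega) hG0 ?_
        intro ψ hψ
        rw [show 1 + (m - 1) = m by omega] at hψ
        -- replace the last average
        have e6 : T A par K m (Ex A par K (l - m) (m + 1) (Ex A par K (j - 1 - l) (l + 1) G')) ψ ≤
            T A par K m (Ex A par K (l - m) (m + 1) G') ψ := by
          refine Finset.sum_le_sum fun v hv => ?_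
          by_cases hK : K m (ψ (par (par m))) (ψ (par m)) v = 0
          · rw [hK, zero_mul, zero_mul]
          · refine mul_le_mul_of_nonneg_left ?_ (h0 _ _ _ _)
            refine mono A par K Ad r n hpar hle hs h0 _ _ (l - m) (m + 1) _ (by omega) (by omega)
              (step A par K Ad r n hpar hle hs m hm1 (by omega) ψ hψ v hv hK) ?_
            intro ψ' hψ'
            rw [show m + 1 + (l - m) = l + 1 by omega] at hψ'
            rw [inv A par K Ad r n hpar hle hs h1 G' _ _ ψ' (by omega) (by omega) hψ']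
            intro ψ'' k w' hk
            rw [hG']
            simp only
            rw [Function.update_of_ne (by omega), Function.update_of_ne (by omega),
              Function.update_of_ne (by omega)]
        refine le_trans e6 ?_
        rw [comm A par K m (l - m) (m + 1) G']
        · -- choose a value at `m`
          have hsum := h1 m hm1 (by omega) _ (hψ.2.1 _ hppm).1 (hψ.2.1 _ hppm).2 _
            (hψ.2.1 _ hpm).1 (hψ.2.1 _ hpm).2
          obtain ⟨v0, hv0, hK0⟩ : ∃ v ∈ A, K m (ψ (par (par m))) (ψ (par m)) v ≠ 0 := by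
            apply Finset.exists_ne_zero_of_sum_ne_zero
            rw [hsum]
            exact one_ne_zero
          rw [← indep A par K m (l - m) (m + 1) (T A par K m G') _ _ ψ v0]
          · refine bdd A par K Ad r n hpar hle hs h0 h1 _ ε _ _ _ (by omega) (by omega)
              (step A par K Ad r n hpar hle hs m hm1 (by omega) ψ hψ v0 hv0 hK0) ?_
            intro ψ' hψ'
            exact e3 ψ' (fun i hi => hψ'.2.1 i (by omega)) (hψ'.2.1 l (by omega))
          · intro k hk hk'
            have hkl : par k ≤ par l := hmon (by omega)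
            have := hle (par k)
            refine ⟨by omega, by omega, by omega⟩
          · intro φ v
            unfold T
            refine Finset.sum_congr rfl fun w _ => ?_
            rw [Function.update_of_ne (by omega), Function.update_of_ne (by omega),
              Function.update_idem]
        · intro k hk hk'
          have hkl : par k ≤ par l := hmon (by omega)
          have := hle (par k)
          refine ⟨by omega, by omega, by omega, by omega, by omega⟩
      · -- `l < m`
        have hml' : l < m := lt_of_le_of_ne hml hl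
        have e5 : Ex A par K (j - 1) 1 G' = Ex A par K (m - 1) 1 (T A par K m
            (Ex A par K (j - 1 - m) (m + 1) G')) := by
          conv_lhs => rw [show j - 1 = (m - 1) + (1 + (j - 1 - m)) by omega, ex_split,
            show 1 + (m - 1) = m by omega]
          rw [ex_split]
          rfl
        rw [e5]
        refine bdd A par K Ad r n hpar hle hs h0 h1 _ ε (m - 1) 1 _ (le_refl _) (by omega) hG0 ?_
        intro ψ hψ
        rw [show 1 + (m - 1) = m by omega] at hψ
        refine le_trans (le_of_eq ?_) (e3 ψ (fun i hi => hψ.2.1 i hi) (hψ.2.1 l hml'))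
        refine Finset.sum_congr rfl fun v hv => ?_
        by_cases hK : K m (ψ (par (par m))) (ψ (par m)) v = 0
        · rw [hK, zero_mul, zero_mul]
        · congr 1
          refine inv A par K Ad r n hpar hle hs h1 G' _ _ _ (by omega) (by omega)
            (step A par K Ad r n hpar hle hs m hm1 (by omega) ψ hψ v hv hK) ?_
          intro ψ'' k w' hk
          rw [hG']
          simp only
          rw [Function.update_of_ne (by omega), Function.update_of_ne (by omega),
            Function.update_of_ne (by omega)]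
    · -- siblings
      have hpl : par l = par j := le_antisymm (hmon hlj.le) hge
      have hl1 : 1 ≤ l := by
        rcases Nat.eq_zero_or_pos l with h | h
        · exfalso
          subst h
          rw [hp0] at hpl
          exact hl hpl
        · exact h
      refine bdd A par K Ad r n hpar hle hs h0 h1 _ ε (j - 1) 1 _ (le_refl _) (by omega) hG0 ?_
      intro ψ hψ
      rw [show 1 + (j - 1) = j by omega] at hψ
      rw [e2 ψ hψ]
      refine hB j l hl1 hlj hjn hpl _ (hψ.2.1 _ hppj).1 (hψ.2.1 _ hppj).2 _ (hψ.2.1 _ hpj).1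
        (hψ.2.1 _ hpj).2 _ (hψ.2.1 l hlj).1 ?_
      have := hψ.2.2 l hl1 hlj
      rwa [hpl] at this
  by_contra hcon
  -- the expected number of conflicts
  have hge : (1 : ℝ) ≤ Ex A par K n 1 (fun φ => ∑ j ∈ Finset.range (n + 1),
      ∑ l ∈ Finset.range j, if l ≠ par j ∧ Cf j l (φ j) (φ l) then (1 : ℝ) else 0)
      (fun _ => r) := by
    have e1 := inv A par K Ad r n hpar hle hs h1 (fun _ => (1 : ℝ)) n 1 (fun _ => r) (le_refl _)
      (by omega) hG0 fun _ _ _ _ => rfl
    refine le_trans (le_of_eq e1.symm) ?_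
    refine mono A par K Ad r n hpar hle hs h0 _ _ n 1 _ (le_refl _) (by omega) hG0 ?_
    intro ψ hψ
    by_contra hlt
    apply hcon
    refine ⟨ψ, hψ.1, fun j hj => hψ.2.1 j (by omega), fun j hj hj' => hψ.2.2 j hj (by omega), ?_⟩
    intro j hj l hlj hl hC
    apply hlt
    have hnn : ∀ j' ∈ Finset.range (n + 1), (0 : ℝ) ≤
        ∑ l ∈ Finset.range j', if l ≠ par j' ∧ Cf j' l (ψ j') (ψ l) then (1 : ℝ) else 0 :=
      fun j' _ => Finset.sum_nonneg fun l' _ => by split_ifs <;> norm_num
    refine le_trans ?_ (Finset.single_le_sum hnn (Finset.mem_range.2 (by omega : j < n + 1)))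
    have hnn' : ∀ l' ∈ Finset.range j, (0 : ℝ) ≤
        if l' ≠ par j ∧ Cf j l' (ψ j) (ψ l') then (1 : ℝ) else 0 :=
      fun l' _ => by split_ifs <;> norm_num
    refine le_trans ?_ (Finset.single_le_sum hnn' (Finset.mem_range.2 hlj))
    rw [if_pos ⟨hl, hC⟩]
  have hlt : Ex A par K n 1 (fun φ => ∑ j ∈ Finset.range (n + 1),
      ∑ l ∈ Finset.range j, if l ≠ par j ∧ Cf j l (φ j) (φ l) then (1 : ℝ) else 0)
      (fun _ => r) ≤ (n : ℝ) * (n + 1) * ε := by
    rw [ex_sum]
    have : ∀ j ∈ Finset.range (n + 1), Ex A par K n 1 (fun φ => ∑ l ∈ Finset.range j,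
        if l ≠ par j ∧ Cf j l (φ j) (φ l) then (1 : ℝ) else 0) (fun _ => r) ≤ n * ε := by
      intro j hj
      have hjn : j ≤ n := by have := Finset.mem_range.1 hj; omega
      rw [ex_sum]
      calc ∑ l ∈ Finset.range j, Ex A par K n 1 (fun φ =>
            if l ≠ par j ∧ Cf j l (φ j) (φ l) then (1 : ℝ) else 0) (fun _ => r)
          ≤ ∑ l ∈ Finset.range j, ε := by
            refine Finset.sum_le_sum fun l hl => ?_
            have hlj := Finset.mem_range.1 hl
            by_cases hlp : l = par j
            · refine bdd A par K Ad r n hpar hle hs h0 h1 _ ε n 1 _ (le_refl _) (by omega) hG0 ?_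
              intro ψ _
              rw [if_neg (fun h => h.1 hlp)]
              exact hε
            · have := key j l (by omega) hjn hlj hlp
              simp only [ne_eq, hlp, not_false_eq_true, true_and]
              exact this
        _ = j * ε := by rw [Finset.sum_const, Finset.card_range, nsmul_eq_mul]
        _ ≤ n * ε := mul_le_mul_of_nonneg_right (by exact_mod_cast hjn) hε
    calc _ ≤ ∑ j ∈ Finset.range (n + 1), (n : ℝ) * ε := Finset.sum_le_sum this
      _ = (n : ℝ) * (n + 1) * ε := by
        rw [Finset.sum_const, Finset.card_range, nsmul_eq_mul]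
        push_cast
        ring
  linarith

end Pool.Agent.Lib.TCH
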