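import Pool.Agent.Lib.TCH.Stmts

/-!
# Module `Pe`: peeling of the incidences with few 4-cycles
-/

set_option autoImplicit false

namespace Pool.Agent.Lib.TCH

open Finset Classical

namespace PeAux

variable {V Ω : Type}

/-- All four incidences are in `R`. -/
def QQ (R : V → Ω → Prop) (x : V) (o : Ω) (x' : V) (o' : Ω) : Prop :=
  R x o ∧ R x' o ∧ R x o' ∧ R x' o'

/-- The weight of the tuples with all four incidences in `R`. -/
noncomputable def T (A : Finset V) (O : Finset Ω) (r : V → ℝ) (w : Ω → ℝ) (a : V → ℝ)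
    (R : V → Ω → Prop) : ℝ :=
  ∑ x ∈ A, ∑ o ∈ O, ∑ x' ∈ A, ∑ o' ∈ O,
    if QQ R x o x' o' then a x * r x * w o * (r x' * w o') else 0

theorem T_eq (A : Finset V) (O : Finset Ω) (r : V → ℝ) (w : Ω → ℝ) (a : V → ℝ)
    (R : V → Ω → Prop) :
    ∑ x ∈ A, ∑ o ∈ O with R x o, a x * r x * w o * kap A O R r w x o = T A O r w a R := by
  unfold T kap
  refine Finset.sum_congr rfl fun x _ => ?_
  rw [Finset.sum_filter]
  refine Finset.sum_congr rfl fun o _ => ?_
  by_cases h : R x o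
  · simp only [h, if_true, true_and]
    rw [Finset.sum_filter, Finset.mul_sum]
    refine Finset.sum_congr rfl fun x' _ => ?_
    by_cases h' : R x' o
    · simp only [h', if_true, true_and]
      rw [Finset.sum_filter, Finset.mul_sum, Finset.mul_sum]
      refine Finset.sum_congr rfl fun o' _ => ?_
      by_cases h2 : R x o' ∧ R x' o'
      · rw [if_pos h2, if_pos (show QQ R x o x' o' from ⟨h, h', h2.1, h2.2⟩)]
      · rw [if_neg h2, if_neg (show ¬ QQ R x o x' o' from fun hh => h2 ⟨hh.2.2.1, hh.2.2.2⟩)]; ring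
    · simp [h', QQ]
  · simp [h, QQ]

theorem kap_eq (A : Finset V) (O : Finset Ω) (r : V → ℝ) (w : Ω → ℝ)
    (R : V → Ω → Prop) (x : V) (o : Ω) :
    kap A O R r w x o = ∑ x' ∈ A, ∑ o' ∈ O, if R x' o ∧ R x o' ∧ R x' o' then r x' * w o' else 0 := by
  unfold kap
  rw [Finset.sum_filter]
  refine Finset.sum_congr rfl fun x' _ => ?_
  by_cases h : R x' o
  · simp only [h, if_true, true_and]
    rw [Finset.sum_filter, Finset.mul_sum]
    refine Finset.sum_congr rfl fun o' _ => ?_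
    split_ifs <;> simp
  · simp [h]

theorem kap_mono (A : Finset V) (O : Finset Ω) (r : V → ℝ) (w : Ω → ℝ)
    (hr : ∀ x, 0 ≤ r x) (hw : ∀ o, 0 ≤ w o)
    (R R' : V → Ω → Prop) (h : ∀ x o, R x o → R' x o) (x : V) (o : Ω) :
    kap A O R r w x o ≤ kap A O R' r w x o := by
  rw [kap_eq, kap_eq]
  refine Finset.sum_le_sum fun x' _ => Finset.sum_le_sum fun o' _ => ?_
  by_cases h1 : R x' o ∧ R x o' ∧ R x' o'
  · have h2 : R' x' o ∧ R' x o' ∧ R' x' o' := ⟨h _ _ h1.1, h _ _ h1.2.1, h _ _ h1.2.2⟩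
    simp [h1, h2]
  · simp only [h1, if_false]
    split_ifs
    · exact mul_nonneg (hr _) (hw _)
    · exact le_rfl

theorem ind4 (P P2 c1 c2 d1 d2 : Prop) (g : ℝ) (hg : 0 ≤ g)
    (h : P → P2 ∨ (c1 ∧ d1) ∨ (c2 ∧ d1) ∨ (c1 ∧ d2) ∨ (c2 ∧ d2)) :
    (if P then g else 0) ≤ (if P2 then g else 0)
      + (if c1 then (if d1 then (if P then g else 0) else 0) else 0)
      + (if c2 then (if d1 then (if P then g else 0) else 0) else 0)
      + (if c1 then (if d2 then (if P then g else 0) else 0) else 0)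
      + (if c2 then (if d2 then (if P then g else 0) else 0) else 0) := by
  by_cases hP : P
  · have h' := h hP
    by_cases h2 : P2 <;> by_cases h3 : c1 <;> by_cases h4 : c2 <;> by_cases h5 : d1 <;>
      by_cases h6 : d2 <;> simp_all <;> positivity
  · by_cases h2 : P2 <;> simp [hP, h2, hg]

/-- One step of the peeling. -/
theorem T_step (A : Finset V) (O : Finset Ω) (r : V → ℝ) (w : Ω → ℝ) (a : V → ℝ)
    (hr : ∀ x, 0 ≤ r x) (hw : ∀ o, 0 ≤ w o) (ha : ∀ x, 0 ≤ a x) (Gam : ℝ) (hG : 1 ≤ Gam)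
    (R R2 : V → Ω → Prop) (x0 : V) (o0 : Ω) (hx0 : x0 ∈ A) (ho0 : o0 ∈ O)
    (hGam : ∀ x ∈ A, ∀ x' ∈ A, ∀ o ∈ O, R x o → R x' o → a x ≤ Gam * a x')
    (hR : ∀ x o, R x o → R2 x o ∨ (x = x0 ∧ o = o0)) :
    T A O r w a R ≤ T A O r w a R2 + 4 * Gam * (a x0 * r x0 * w o0) * kap A O R r w x0 o0 := by
  have hg : ∀ x o x' o', 0 ≤ a x * r x * w o * (r x' * w o') := fun x o x' o' =>
    mul_nonneg (mul_nonneg (mul_nonneg (ha _) (hr _)) (hw _)) (mul_nonneg (hr _) (hw _))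
  set κ := kap A O R r w x0 o0 with hκ
  have hκ' : κ = ∑ x' ∈ A, ∑ o' ∈ O,
      if R x' o0 ∧ R x0 o' ∧ R x' o' then r x' * w o' else 0 := kap_eq _ _ _ _ _ _ _
  have hκ0 : 0 ≤ κ := by
    rw [hκ']
    refine Finset.sum_nonneg fun x' _ => Finset.sum_nonneg fun o' _ => ?_
    split_ifs
    · exact mul_nonneg (hr _) (hw _)
    · exact le_rfl
  set m := a x0 * r x0 * w o0 with hm
  have hm0 : 0 ≤ m := mul_nonneg (mul_nonneg (ha _) (hr _)) (hw _)
  -- the four sums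
  obtain ⟨Q, hQ⟩ : ∃ Q : V → Ω → V → Ω → Prop, Q = QQ R := ⟨_, rfl⟩
  obtain ⟨G, hGd⟩ : ∃ G : V → Ω → V → Ω → ℝ,
    G = fun x o x' o' => a x * r x * w o * (r x' * w o') := ⟨_, rfl⟩
  have hle : T A O r w a R ≤ T A O r w a R2
      + (∑ x ∈ A, ∑ o ∈ O, ∑ x' ∈ A, ∑ o' ∈ O,
          if x = x0 then (if o = o0 then (if Q x o x' o' then G x o x' o' else 0) else 0) else 0)
      + (∑ x ∈ A, ∑ o ∈ O, ∑ x' ∈ A, ∑ o' ∈ O,
          if x' = x0 then (if o = o0 then (if Q x o x' o' then G x o x' o' else 0) else 0) else 0)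
      + (∑ x ∈ A, ∑ o ∈ O, ∑ x' ∈ A, ∑ o' ∈ O,
          if x = x0 then (if o' = o0 then (if Q x o x' o' then G x o x' o' else 0) else 0) else 0)
      + (∑ x ∈ A, ∑ o ∈ O, ∑ x' ∈ A, ∑ o' ∈ O,
          if x' = x0 then (if o' = o0 then (if Q x o x' o' then G x o x' o' else 0) else 0)
            else 0) := by
    unfold T
    simp only [← Finset.sum_add_distrib]
    refine Finset.sum_le_sum fun x _ => Finset.sum_le_sum fun o _ => Finset.sum_le_sum fun x' _ =>
      Finset.sum_le_sum fun o' _ => ?_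
    rw [← hQ]
    have hGe : a x * r x * w o * (r x' * w o') = G x o x' o' := by rw [hGd]
    rw [hGe]
    refine ind4 (Q x o x' o') (QQ R2 x o x' o')
      (x = x0) (x' = x0) (o = o0) (o' = o0) (G x o x' o') (hGe ▸ hg x o x' o') ?_
    intro hq
    rw [hQ] at hq
    unfold QQ at hq ⊢
    have e1 := hR _ _ hq.1
    have e2 := hR _ _ hq.2.1
    have e3 := hR _ _ hq.2.2.1
    have e4 := hR _ _ hq.2.2.2
    tauto
  -- bound each of the sums
  have b1 : (∑ x ∈ A, ∑ o ∈ O, ∑ x' ∈ A, ∑ o' ∈ O,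
      if x = x0 then (if o = o0 then (if Q x o x' o' then G x o x' o' else 0) else 0) else 0)
      ≤ Gam * m * κ := by
    have : (∑ x ∈ A, ∑ o ∈ O, ∑ x' ∈ A, ∑ o' ∈ O,
      if x = x0 then (if o = o0 then (if Q x o x' o' then G x o x' o' else 0) else 0) else 0)
      = ∑ x' ∈ A, ∑ o' ∈ O, if Q x0 o0 x' o' then G x0 o0 x' o' else 0 := by
      rw [Finset.sum_eq_single_of_mem x0 hx0 (fun x _ hx => by simp [hx])]
      rw [Finset.sum_eq_single_of_mem o0 ho0 (fun o _ ho => by simp [ho])]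
      simp
    rw [this, hκ', Finset.mul_sum]
    refine Finset.sum_le_sum fun x' hx' => ?_
    rw [Finset.mul_sum]
    refine Finset.sum_le_sum fun o' ho' => ?_
    by_cases hq : Q x0 o0 x' o'
    · rw [if_pos hq]
      rw [hQ] at hq
      rw [if_pos ⟨hq.2.1, hq.2.2.1, hq.2.2.2⟩]
      have h1 : 0 ≤ m * (r x' * w o') := mul_nonneg hm0 (mul_nonneg (hr _) (hw _))
      have h2 : G x0 o0 x' o' = m * (r x' * w o') := by rw [hGd]
      nlinarith
    · rw [if_neg hq]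
      have : (0:ℝ) ≤ if R x' o0 ∧ R x0 o' ∧ R x' o' then r x' * w o' else 0 := by
        split_ifs <;> first | exact mul_nonneg (hr _) (hw _) | exact le_rfl
      positivity
  have b2 : (∑ x ∈ A, ∑ o ∈ O, ∑ x' ∈ A, ∑ o' ∈ O,
      if x' = x0 then (if o = o0 then (if Q x o x' o' then G x o x' o' else 0) else 0) else 0)
      ≤ Gam * m * κ := by
    have : (∑ x ∈ A, ∑ o ∈ O, ∑ x' ∈ A, ∑ o' ∈ O,
      if x' = x0 then (if o = o0 then (if Q x o x' o' then G x o x' o' else 0) else 0) else 0)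
      = ∑ x ∈ A, ∑ o' ∈ O, if Q x o0 x0 o' then G x o0 x0 o' else 0 := by
      refine Finset.sum_congr rfl fun x _ => ?_
      rw [Finset.sum_eq_single_of_mem o0 ho0 (fun o _ ho => by simp [ho])]
      rw [Finset.sum_eq_single_of_mem x0 hx0 (fun x' _ hx' => by simp [hx'])]
      simp
    rw [this, hκ', Finset.mul_sum]
    refine Finset.sum_le_sum fun x hx => ?_
    rw [Finset.mul_sum]
    refine Finset.sum_le_sum fun o' ho' => ?_
    by_cases hq : Q x o0 x0 o'
    · rw [if_pos hq]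
      rw [hQ] at hq
      rw [if_pos ⟨hq.1, hq.2.2.2, hq.2.2.1⟩]
      have h1 := hGam x hx x0 hx0 o0 ho0 hq.1 hq.2.1
      have h2 : 0 ≤ r x * w o0 * (r x0 * w o') :=
        mul_nonneg (mul_nonneg (hr _) (hw _)) (mul_nonneg (hr _) (hw _))
      have h3 : G x o0 x0 o' = a x * (r x * w o0 * (r x0 * w o')) := by simp only [hGd]; ring
      have h4 : Gam * m * (r x * w o') = (Gam * a x0) * (r x * w o0 * (r x0 * w o')) := by
        simp only [hm]; ring
      rw [h3, h4]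
      exact mul_le_mul_of_nonneg_right h1 h2
    · rw [if_neg hq]
      have : (0:ℝ) ≤ if R x o0 ∧ R x0 o' ∧ R x o' then r x * w o' else 0 := by
        split_ifs <;> first | exact mul_nonneg (hr _) (hw _) | exact le_rfl
      positivity
  have b3 : (∑ x ∈ A, ∑ o ∈ O, ∑ x' ∈ A, ∑ o' ∈ O,
      if x = x0 then (if o' = o0 then (if Q x o x' o' then G x o x' o' else 0) else 0) else 0)
      ≤ Gam * m * κ := by
    have : (∑ x ∈ A, ∑ o ∈ O, ∑ x' ∈ A, ∑ o' ∈ O,
      if x = x0 then (if o' = o0 then (if Q x o x' o' then G x o x' o' else 0) else 0) else 0)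
      = ∑ x' ∈ A, ∑ o ∈ O, if Q x0 o x' o0 then G x0 o x' o0 else 0 := by
      rw [Finset.sum_eq_single_of_mem x0 hx0 (fun x _ hx => by simp [hx])]
      rw [Finset.sum_comm]
      refine Finset.sum_congr rfl fun x' _ => Finset.sum_congr rfl fun o _ => ?_
      rw [Finset.sum_eq_single_of_mem o0 ho0 (fun o _ ho => by simp [ho])]
      simp
    rw [this, hκ', Finset.mul_sum]
    refine Finset.sum_le_sum fun x' hx' => ?_
    rw [Finset.mul_sum]
    refine Finset.sum_le_sum fun o ho => ?_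
    by_cases hq : Q x0 o x' o0
    · rw [if_pos hq]
      rw [hQ] at hq
      rw [if_pos ⟨hq.2.2.2, hq.1, hq.2.1⟩]
      have h1 : 0 ≤ m * (r x' * w o) := mul_nonneg hm0 (mul_nonneg (hr _) (hw _))
      have h2 : G x0 o x' o0 = m * (r x' * w o) := by simp only [hGd, hm]; ring
      nlinarith
    · rw [if_neg hq]
      have : (0:ℝ) ≤ if R x' o0 ∧ R x0 o ∧ R x' o then r x' * w o else 0 := by
        split_ifs <;> first | exact mul_nonneg (hr _) (hw _) | exact le_rfl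
      positivity
  have b4 : (∑ x ∈ A, ∑ o ∈ O, ∑ x' ∈ A, ∑ o' ∈ O,
      if x' = x0 then (if o' = o0 then (if Q x o x' o' then G x o x' o' else 0) else 0) else 0)
      ≤ Gam * m * κ := by
    have : (∑ x ∈ A, ∑ o ∈ O, ∑ x' ∈ A, ∑ o' ∈ O,
      if x' = x0 then (if o' = o0 then (if Q x o x' o' then G x o x' o' else 0) else 0) else 0)
      = ∑ x ∈ A, ∑ o ∈ O, if Q x o x0 o0 then G x o x0 o0 else 0 := by
      refine Finset.sum_congr rfl fun x _ => Finset.sum_congr rfl fun o _ => ?_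
      rw [Finset.sum_eq_single_of_mem x0 hx0 (fun x _ hx => by simp [hx])]
      rw [Finset.sum_eq_single_of_mem o0 ho0 (fun o _ ho => by simp [ho])]
      simp
    rw [this, hκ', Finset.mul_sum]
    refine Finset.sum_le_sum fun x hx => ?_
    rw [Finset.mul_sum]
    refine Finset.sum_le_sum fun o ho => ?_
    by_cases hq : Q x o x0 o0
    · rw [if_pos hq]
      rw [hQ] at hq
      rw [if_pos ⟨hq.2.2.1, hq.2.1, hq.1⟩]
      have h1 := hGam x hx x0 hx0 o0 ho0 hq.2.2.1 hq.2.2.2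
      have h2 : 0 ≤ r x * w o * (r x0 * w o0) :=
        mul_nonneg (mul_nonneg (hr _) (hw _)) (mul_nonneg (hr _) (hw _))
      have h3 : G x o x0 o0 = a x * (r x * w o * (r x0 * w o0)) := by simp only [hGd]; ring
      have h4 : Gam * m * (r x * w o) = (Gam * a x0) * (r x * w o * (r x0 * w o0)) := by
        simp only [hm]; ring
      rw [h3, h4]
      exact mul_le_mul_of_nonneg_right h1 h2
    · rw [if_neg hq]
      have : (0:ℝ) ≤ if R x o0 ∧ R x0 o ∧ R x o then r x * w o else 0 := by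
        split_ifs <;> first | exact mul_nonneg (hr _) (hw _) | exact le_rfl
      positivity
  linarith

theorem core (A : Finset V) (O : Finset Ω) (r : V → ℝ) (w : Ω → ℝ) (a : V → ℝ)
    (hr : ∀ x, 0 ≤ r x) (hw : ∀ o, 0 ≤ w o) (ha : ∀ x, 0 ≤ a x) (Gam ε : ℝ) (hG : 1 ≤ Gam)
    (hε : 0 ≤ ε) (n : ℕ) :
    ∀ E : V → Ω → Prop, (∀ x o, E x o → x ∈ A ∧ o ∈ O) →
      (∀ x ∈ A, ∀ x' ∈ A, ∀ o ∈ O, E x o → E x' o → a x ≤ Gam * a x') →
      ((A ×ˢ O).filter fun p => E p.1 p.2).card ≤ n →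
      ∃ E' D : V → Ω → Prop, (∀ x o, E' x o → E x o) ∧
        (∀ x o, E' x o → ε < kap A O E' r w x o) ∧ (∀ x o, D x o ↔ E x o ∧ ¬ E' x o) ∧
        T A O r w a D ≤
          4 * Gam * ε * ∑ p ∈ (A ×ˢ O) with D p.1 p.2, a p.1 * r p.1 * w p.2 := by
  induction n with
  | zero =>
    intro E hE hGam hc
    have hno : ∀ x o, ¬ E x o := by
      intro x o h
      have h1 : (x, o) ∈ ((A ×ˢ O).filter fun p => E p.1 p.2) := by
        rw [Finset.mem_filter, Finset.mem_product]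
        exact ⟨⟨(hE x o h).1, (hE x o h).2⟩, h⟩
      have := Finset.card_pos.mpr ⟨_, h1⟩
      omega
    refine ⟨fun _ _ => False, E, fun _ _ h => h.elim, fun _ _ h => h.elim, fun x o => by simp, ?_⟩
    unfold T QQ
    simp [hno]
  | succ n ih =>
    intro E hE hGam hc
    by_cases hall : ∀ x o, E x o → ε < kap A O E r w x o
    · refine ⟨E, fun _ _ => False, fun _ _ h => h, hall, fun x o => by tauto, ?_⟩
      unfold T QQ
      simp
    · push Not at hall
      obtain ⟨x0, o0, h0, hk⟩ := hall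
      have hx0 := (hE _ _ h0).1
      have ho0 := (hE _ _ h0).2
      obtain ⟨E2, hE2⟩ : ∃ E2 : V → Ω → Prop, ∀ x o, E2 x o ↔ E x o ∧ ¬ (x = x0 ∧ o = o0) :=
        ⟨fun x o => E x o ∧ ¬ (x = x0 ∧ o = o0), fun _ _ => Iff.rfl⟩
      have hcard : ((A ×ˢ O).filter fun p => E2 p.1 p.2).card ≤ n := by
        have hlt : ((A ×ˢ O).filter fun p => E2 p.1 p.2).card <
            ((A ×ˢ O).filter fun p => E p.1 p.2).card := by
          apply Finset.card_lt_card
          rw [Finset.ssubset_iff_of_subset]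
          · refine ⟨(x0, o0), ?_, ?_⟩
            · rw [Finset.mem_filter, Finset.mem_product]
              exact ⟨⟨hx0, ho0⟩, h0⟩
            · rw [Finset.mem_filter]
              rintro ⟨_, h⟩
              exact ((hE2 _ _).1 h).2 ⟨rfl, rfl⟩
          · intro p hp
            rw [Finset.mem_filter] at hp ⊢
            exact ⟨hp.1, ((hE2 _ _).1 hp.2).1⟩
        omega
      obtain ⟨E', D, h1, h2, hD, h3⟩ := ih E2 (fun x o h => hE x o ((hE2 _ _).1 h).1)
        (fun x hx x' hx' o ho h h' =>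
          hGam x hx x' hx' o ho ((hE2 _ _).1 h).1 ((hE2 _ _).1 h').1) hcard
      obtain ⟨D1, hD1⟩ : ∃ D1 : V → Ω → Prop, ∀ x o, D1 x o ↔ E x o ∧ ¬ E' x o :=
        ⟨fun x o => E x o ∧ ¬ E' x o, fun _ _ => Iff.rfl⟩
      refine ⟨E', D1, fun x o h => ((hE2 _ _).1 (h1 x o h)).1, h2, hD1, ?_⟩
      have hst := T_step A O r w a hr hw ha Gam hG D1 D x0 o0 hx0 ho0
        (fun x hx x' hx' o ho h h' => hGam x hx x' hx' o ho ((hD1 _ _).1 h).1 ((hD1 _ _).1 h').1)
        (fun x o h => by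
          have hh1 := (hD1 _ _).1 h
          by_cases hh : x = x0 ∧ o = o0
          · exact Or.inr hh
          · exact Or.inl ((hD _ _).2 ⟨(hE2 _ _).2 ⟨hh1.1, hh⟩, hh1.2⟩))
      have hkm : kap A O D1 r w x0 o0 ≤ ε :=
        le_trans (kap_mono A O r w hr hw _ _ (fun x o h => ((hD1 _ _).1 h).1) x0 o0) hk
      have hm0 : 0 ≤ a x0 * r x0 * w o0 := mul_nonneg (mul_nonneg (ha _) (hr _)) (hw _)
      have hnE' : ¬ E' x0 o0 := fun h => ((hE2 _ _).1 (h1 x0 o0 h)).2 ⟨rfl, rfl⟩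
      have hfil : ((A ×ˢ O).filter fun p => D1 p.1 p.2) =
          insert (x0, o0) ((A ×ˢ O).filter fun p => D p.1 p.2) := by
        ext ⟨x, o⟩
        simp only [Finset.mem_filter, Finset.mem_product, Finset.mem_insert, Prod.mk.injEq,
          hD1, hD, hE2]
        constructor
        · rintro ⟨⟨hx, ho⟩, hh, hh'⟩
          by_cases hh2 : x = x0 ∧ o = o0
          · exact Or.inl hh2
          · exact Or.inr ⟨⟨hx, ho⟩, ⟨hh, hh2⟩, hh'⟩
        · rintro (⟨rfl, rfl⟩ | ⟨⟨hx, ho⟩, hh, hh'⟩)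
          · exact ⟨⟨hx0, ho0⟩, h0, hnE'⟩
          · exact ⟨⟨hx, ho⟩, hh.1, hh'⟩
      have hnot : (x0, o0) ∉ ((A ×ˢ O).filter fun p => D p.1 p.2) := by
        rw [Finset.mem_filter]
        rintro ⟨_, hh⟩
        exact ((hE2 _ _).1 ((hD _ _).1 hh).1).2 ⟨rfl, rfl⟩
      rw [hfil, Finset.sum_insert hnot, mul_add]
      have h5 : 4 * Gam * (a x0 * r x0 * w o0) * kap A O D1 r w x0 o0 ≤
          4 * Gam * ε * (a x0 * r x0 * w o0) := by
        have h6 : 0 ≤ 4 * Gam * (a x0 * r x0 * w o0) :=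
          mul_nonneg (by linarith) hm0
        have h7 := mul_le_mul_of_nonneg_left hkm h6
        calc _ ≤ 4 * Gam * (a x0 * r x0 * w o0) * ε := h7
          _ = _ := by ring
      linarith

end PeAux

theorem stPe : StPe := by
  intro V Ω A O E r w a Gam K ε hr hw ha hε hG hGam hK
  obtain ⟨E0, hE0⟩ : ∃ E0 : V → Ω → Prop, ∀ x o, E0 x o ↔ x ∈ A ∧ o ∈ O ∧ E x o :=
    ⟨fun x o => x ∈ A ∧ o ∈ O ∧ E x o, fun _ _ => Iff.rfl⟩
  obtain ⟨E', D, h1, h2, hD, h3⟩ := PeAux.core A O r w a hr hw ha Gam ε hG hε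
    ((A ×ˢ O).filter fun p => E0 p.1 p.2).card E0
    (fun x o h => ⟨((hE0 _ _).1 h).1, ((hE0 _ _).1 h).2.1⟩)
    (fun x hx x' hx' o ho h h' => hGam x hx x' hx' o ho ((hE0 _ _).1 h).2.2 ((hE0 _ _).1 h').2.2)
    le_rfl
  refine ⟨E', fun x o h => (hE0 _ _).1 (h1 x o h), h2, ?_⟩
  have hT : ∑ x ∈ A, ∑ o ∈ O with E x o ∧ ¬ E' x o,
      a x * r x * w o * kap A O (fun x o => E x o ∧ ¬ E' x o) r w x o =
      PeAux.T A O r w a D := by
    obtain ⟨D1, hD1⟩ : ∃ D1 : V → Ω → Prop, D1 = fun x o => E x o ∧ ¬ E' x o := ⟨_, rfl⟩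
    have hD1' : ∀ x o, D1 x o ↔ E x o ∧ ¬ E' x o := fun x o => by rw [hD1]
    have e1 : ∑ x ∈ A, ∑ o ∈ O with E x o ∧ ¬ E' x o,
      a x * r x * w o * kap A O (fun x o => E x o ∧ ¬ E' x o) r w x o =
      ∑ x ∈ A, ∑ o ∈ O with D1 x o, a x * r x * w o * kap A O D1 r w x o := by
      rw [← hD1]
      refine Finset.sum_congr rfl fun x hx => ?_
      refine Finset.sum_congr ?_ fun _ _ => rfl
      ext o
      simp only [Finset.mem_filter, hD1']
    rw [e1, PeAux.T_eq A O r w a D1]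
    unfold PeAux.T
    refine Finset.sum_congr rfl fun x hx => Finset.sum_congr rfl fun o ho =>
      Finset.sum_congr rfl fun x' hx' => Finset.sum_congr rfl fun o' ho' => ?_
    have : PeAux.QQ D1 x o x' o' ↔ PeAux.QQ D x o x' o' := by
      unfold PeAux.QQ
      simp only [hD1', hD, hE0, hx, ho, hx', ho', true_and]
    by_cases hq : PeAux.QQ D x o x' o'
    · rw [if_pos hq, if_pos (this.2 hq)]
    · rw [if_neg hq, if_neg (fun h => hq (this.1 h))]
  rw [hT]
  refine le_trans h3 ?_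
  have hsum : ∑ p ∈ (A ×ˢ O) with D p.1 p.2, a p.1 * r p.1 * w p.2 ≤ K := by
    refine le_trans ?_ hK
    have : ∑ x ∈ A, ∑ o ∈ O with E x o, a x * r x * w o =
        ∑ p ∈ (A ×ˢ O) with E p.1 p.2, a p.1 * r p.1 * w p.2 := by
      rw [Finset.sum_filter, Finset.sum_product]
      refine Finset.sum_congr rfl fun x _ => ?_
      rw [Finset.sum_filter]
    rw [this]
    refine Finset.sum_le_sum_of_subset_of_nonneg ?_ ?_
    · intro p hp
      rw [Finset.mem_filter] at hp ⊢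
      exact ⟨hp.1, ((hE0 _ _).1 ((hD _ _).1 hp.2).1).2.2⟩
    · intro p _ _
      exact mul_nonneg (mul_nonneg (ha _) (hr _)) (hw _)
  have hs0 : 0 ≤ ∑ p ∈ (A ×ˢ O) with D p.1 p.2, a p.1 * r p.1 * w p.2 :=
    Finset.sum_nonneg fun p _ => mul_nonneg (mul_nonneg (ha _) (hr _)) (hw _)
  have hK0 : 0 ≤ K := le_trans hs0 hsum
  have hG2 : Gam ≤ Gam ^ 2 := by nlinarith
  have h4 : 0 ≤ 4 * Gam * ε := mul_nonneg (by linarith) hε
  calc _ ≤ 4 * Gam * ε * K := mul_le_mul_of_nonneg_left hsum h4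
    _ = 4 * (ε * K) * Gam := by ring
    _ ≤ 4 * (ε * K) * Gam ^ 2 := mul_le_mul_of_nonneg_left hG2 (by positivity)
    _ = _ := by ring

end Pool.Agent.Lib.TCH
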