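import Pool.Agent.Lib.TCH.S2

/-!
# Towers of coherent levels: basic lemmas
-/

set_option autoImplicit false

namespace Pool.Agent.Lib.TCH

open Finset Classical

/-! ### Masses -/

lemma ms_eq {V : Type} (p : V →₀ ℝ) (S : Set V) (s : Finset V) (hs : p.support ⊆ s) :
    ms p S = ∑ y ∈ s, if y ∈ S then p y else 0 := by
  unfold ms
  rw [Finset.sum_filter]
  refine Finset.sum_subset hs fun y _ hy => ?_
  rw [Finsupp.notMem_support_iff] at hy
  simp [hy]

lemma ms_nn {V : Type} {p : V →₀ ℝ} (hp : ∀ y, 0 ≤ p y) (S : Set V) : 0 ≤ ms p S :=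
  Finset.sum_nonneg fun y _ => hp y

lemma ms_mono {V : Type} {p : V →₀ ℝ} (hp : ∀ y, 0 ≤ p y) {S T : Set V}
    (h : ∀ y, p y ≠ 0 → y ∈ S → y ∈ T) : ms p S ≤ ms p T := by
  refine Finset.sum_le_sum_of_subset_of_nonneg ?_ fun y _ _ => hp y
  intro y hy
  rw [Finset.mem_filter] at hy ⊢
  exact ⟨hy.1, h y (Finsupp.mem_support_iff.1 hy.1) hy.2⟩

lemma ms_le_sum {V : Type} {p : V →₀ ℝ} (hp : ∀ y, 0 ≤ p y) (S : Set V) :
    ms p S ≤ ∑ y ∈ p.support, p y :=
  Finset.sum_le_sum_of_subset_of_nonneg (Finset.filter_subset _ _) fun y _ _ => hp y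

lemma ms_univ {V : Type} (p : V →₀ ℝ) : ms p Set.univ = ∑ y ∈ p.support, p y := by
  unfold ms
  simp

lemma ms_add {V : Type} (p p' : V →₀ ℝ) (S : Set V) : ms (p + p') S = ms p S + ms p' S := by
  rw [ms_eq (p + p') S (p.support ∪ p'.support) Finsupp.support_add,
    ms_eq p S (p.support ∪ p'.support) Finset.subset_union_left,
    ms_eq p' S (p.support ∪ p'.support) Finset.subset_union_right, ← Finset.sum_add_distrib]
  refine Finset.sum_congr rfl fun y _ => ?_
  split_ifs <;> simp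

lemma ms_smul {V : Type} (c : ℝ) (p : V →₀ ℝ) (S : Set V) : ms (c • p) S = c * ms p S := by
  rw [ms_eq (c • p) S p.support Finsupp.support_smul, ms_eq p S p.support Finset.Subset.rfl,
    Finset.mul_sum]
  refine Finset.sum_congr rfl fun y _ => ?_
  split_ifs <;> simp

lemma ms_zero {V : Type} (S : Set V) : ms (0 : V →₀ ℝ) S = 0 := by
  simp [ms]

lemma ms_sum {V ι : Type} (s : Finset ι) (p : ι → V →₀ ℝ) (S : Set V) :
    ms (∑ i ∈ s, p i) S = ∑ i ∈ s, ms (p i) S := by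
  induction s using Finset.induction_on with
  | empty => simp [ms_zero]
  | insert a s ha ih => rw [Finset.sum_insert ha, Finset.sum_insert ha, ms_add, ih]

lemma ms_compl {V : Type} (p : V →₀ ℝ) (S : Set V) :
    ms p S + ms p Sᶜ = ∑ y ∈ p.support, p y := by
  rw [ms_eq p S p.support Finset.Subset.rfl, ms_eq p Sᶜ p.support Finset.Subset.rfl,
    ← Finset.sum_add_distrib]
  refine Finset.sum_congr rfl fun y _ => ?_
  by_cases h : y ∈ S
  · simp [h]
  · simp [h]

lemma ms_union_le {V : Type} {p : V →₀ ℝ} (hp : ∀ y, 0 ≤ p y) (S T : Set V) :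
    ms p (S ∪ T) ≤ ms p S + ms p T := by
  rw [ms_eq p (S ∪ T) p.support Finset.Subset.rfl, ms_eq p S p.support Finset.Subset.rfl,
    ms_eq p T p.support Finset.Subset.rfl, ← Finset.sum_add_distrib]
  refine Finset.sum_le_sum fun y _ => ?_
  have := hp y
  by_cases h : y ∈ S <;> by_cases h' : y ∈ T <;> simp [h, h', this]

/-- The mass as an expectation. -/
lemma ms_ind {V : Type} (p : V →₀ ℝ) (S : Set V) :
    ms p S = ∑ y ∈ p.support, p y * (if y ∈ S then 1 else 0) := by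
  rw [ms_eq p S p.support Finset.Subset.rfl]
  refine Finset.sum_congr rfl fun y _ => ?_
  split_ifs <;> simp

/-- Change of the summation set. -/
lemma sum_supp {V : Type} (p : V →₀ ℝ) (g : V → ℝ) (s : Finset V) (hs : p.support ⊆ s) :
    ∑ y ∈ p.support, p y * g y = ∑ y ∈ s, p y * g y := by
  refine Finset.sum_subset hs fun y _ hy => ?_
  rw [Finsupp.notMem_support_iff] at hy
  simp [hy]

/-! ### The average law -/

lemma av_apply {V : Type} (D : Lv V) (x y : V) :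
    av D x y = (D.q : ℝ)⁻¹ * ∑ s ∈ range D.q, D.p s x y := by
  unfold av
  rw [Finsupp.finsetSum_apply, Finset.mul_sum]
  rfl

lemma ms_av {V : Type} (D : Lv V) (x : V) (S : Set V) :
    ms (av D x) S = (D.q : ℝ)⁻¹ * ∑ s ∈ range D.q, ms (D.p s x) S := by
  unfold av
  rw [ms_sum, Finset.mul_sum]
  exact Finset.sum_congr rfl fun s _ => ms_smul _ _ _

/-- Expectations of the average law. -/
lemma av_exp {V : Type} (D : Lv V) (x : V) (g : V → ℝ) :
    ∑ y ∈ (av D x).support, av D x y * g y =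
      (D.q : ℝ)⁻¹ * ∑ s ∈ range D.q, ∑ y ∈ (D.p s x).support, D.p s x y * g y := by
  set T : Finset V := (av D x).support ∪ (range D.q).biUnion fun s => (D.p s x).support with hT
  rw [sum_supp (av D x) g T Finset.subset_union_left]
  have h : ∀ s ∈ range D.q, ∑ y ∈ (D.p s x).support, D.p s x y * g y =
      ∑ y ∈ T, D.p s x y * g y := fun s hs =>
    sum_supp _ g T ((Finset.subset_biUnion_of_mem (fun s => (D.p s x).support) hs).trans
      Finset.subset_union_right)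
  rw [Finset.sum_congr rfl h, Finset.sum_comm, Finset.mul_sum]
  refine Finset.sum_congr rfl fun y _ => ?_
  rw [av_apply, ← Finset.sum_mul, mul_assoc]

section OK

variable {V : Type} {G : SimpleGraph V} {m : ℕ} {C : V → V → Prop} {R : ℕ} {W : Set V} {D : Lv V}

lemma OK.q0 (h : OK G m C R W D) : 0 < D.q := lt_of_lt_of_le h.R1 h.qR

lemma OK.q0' (h : OK G m C R W D) : (0 : ℝ) < D.q := Nat.cast_pos.2 h.q0

lemma OK.R0 (h : OK G m C R W D) : (0 : ℝ) < R := Nat.cast_pos.2 h.R1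

lemma OK.av_nn (h : OK G m C R W D) {x : V} (hx : x ∈ D.dom) (y : V) : 0 ≤ av D x y := by
  rw [av_apply]
  exact mul_nonneg (inv_nonneg.2 h.q0'.le)
    (Finset.sum_nonneg fun s hs => h.nn s (Finset.mem_range.1 hs) x hx y)

lemma OK.av_one (h : OK G m C R W D) {x : V} (hx : x ∈ D.dom) :
    ∑ y ∈ (av D x).support, av D x y = 1 := by
  have h1 := av_exp D x (fun _ => 1)
  simp only [mul_one] at h1
  rw [h1, Finset.sum_congr rfl fun s hs => h.one s (Finset.mem_range.1 hs) x hx,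
    Finset.sum_const, Finset.card_range, nsmul_eq_mul, mul_one, inv_mul_cancel₀ h.q0'.ne']

lemma OK.av_supp (_h : OK G m C R W D) {x y : V} (hy : av D x y ≠ 0) :
    ∃ s < D.q, D.p s x y ≠ 0 := by
  by_contra hcon
  push Not at hcon
  refine hy ?_
  rw [av_apply, Finset.sum_eq_zero fun s hs => hcon s (Finset.mem_range.1 hs), mul_zero]

lemma OK.av_ne (h : OK G m C R W D) {x y : V} (hx : x ∈ D.dom) {s : ℕ} (hs : s < D.q)
    (hy : D.p s x y ≠ 0) : av D x y ≠ 0 := by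
  rw [av_apply]
  refine mul_ne_zero (inv_ne_zero h.q0'.ne') (ne_of_gt ?_)
  exact Finset.sum_pos' (fun r hr => h.nn r (Finset.mem_range.1 hr) x hx y)
    ⟨s, Finset.mem_range.2 hs, lt_of_le_of_ne (h.nn s hs x hx y) (Ne.symm hy)⟩

lemma OK.av_mem (h : OK G m C R W D) {x y : V} (hx : x ∈ D.dom) (hy : av D x y ≠ 0) :
    y ∈ W ∧ C x y := by
  obtain ⟨s, hs, hy'⟩ := h.av_supp hy
  exact h.sup s hs x hx y hy'

lemma OK.av_atm (h : OK G m C R W D) {x : V} (hx : x ∈ D.dom) {y : V} (hy : y ∈ D.dom) :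
    (R : ℝ) * av D x y ≤ 1 := by
  rw [av_apply, mul_left_comm, Finset.mul_sum]
  calc (D.q : ℝ)⁻¹ * ∑ s ∈ range D.q, (R : ℝ) * D.p s x y
      ≤ (D.q : ℝ)⁻¹ * ∑ s ∈ range D.q, 1 :=
        mul_le_mul_of_nonneg_left (Finset.sum_le_sum fun s hs =>
          h.atm s (Finset.mem_range.1 hs) x hx y hy) (inv_nonneg.2 h.q0'.le)
    _ = 1 := by
        rw [Finset.sum_const, Finset.card_range, nsmul_eq_mul, mul_one, inv_mul_cancel₀ h.q0'.ne']

lemma OK.av_adj (h : OK G m C R W D) {x : V} (hx : x ∈ D.dom) :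
    (R : ℝ) * ms (av D x) {y | ¬ G.Adj x y} ≤ 1 := by
  rw [ms_av, mul_left_comm, Finset.mul_sum]
  calc (D.q : ℝ)⁻¹ * ∑ s ∈ range D.q, (R : ℝ) * ms (D.p s x) {y | ¬ G.Adj x y}
      ≤ (D.q : ℝ)⁻¹ * ∑ s ∈ range D.q, 1 :=
        mul_le_mul_of_nonneg_left (Finset.sum_le_sum fun s hs =>
          h.adj s (Finset.mem_range.1 hs) x hx) (inv_nonneg.2 h.q0'.le)
    _ = 1 := by
        rw [Finset.sum_const, Finset.card_range, nsmul_eq_mul, mul_one, inv_mul_cancel₀ h.q0'.ne']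

lemma OK.ms_one (h : OK G m C R W D) {s : ℕ} (hs : s < D.q) {x : V} (hx : x ∈ D.dom)
    (S : Set V) : ms (D.p s x) S ≤ 1 := by
  rw [← h.one s hs x hx]
  exact ms_le_sum (h.nn s hs x hx) S

lemma OK.p_ex (h : OK G m C R W D) {s : ℕ} (hs : s < D.q) {x : V} (hx : x ∈ D.dom) :
    ∃ y, D.p s x y ≠ 0 := by
  by_contra hcon
  push Not at hcon
  have h1 := h.one s hs x hx
  rw [Finset.sum_eq_zero fun y _ => hcon y] at h1
  exact zero_ne_one h1

/-- Levels on larger sets and of smaller quality. -/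
lemma OK.mono (h : OK G m C R W D) {C' : V → V → Prop} {R' : ℕ} {W' : Set V}
    (hC : ∀ x y, C x y → C' x y) (hR : R' ≤ R) (hR1 : 1 ≤ R') (hW : W ⊆ W') :
    OK G m C' R' W' D where
  sub := h.sub.trans hW
  R1 := hR1
  qR := hR.trans h.qR
  nn := h.nn
  one := h.one
  sup s hs x hx y hy := ⟨hW (h.sup s hs x hx y hy).1, hC _ _ (h.sup s hs x hx y hy).2⟩
  atm s hs x hx y hy := le_trans (mul_le_mul_of_nonneg_right (by exact_mod_cast hR)
    (h.nn s hs x hx y)) (h.atm s hs x hx y hy)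
  adj s hs x hx := le_trans (mul_le_mul_of_nonneg_right (by exact_mod_cast hR)
    (ms_nn (h.nn s hs x hx) _)) (h.adj s hs x hx)
  bud := h.bud
  conf := h.conf

/-- Levels with a smaller domain. -/
lemma OK.shr (h : OK G m C R W D) {W' W1 : Set V} (hW' : W' ⊆ D.dom) (hW1 : W' ⊆ W1)
    (hsup : W ⊆ W1) : OK G m C R W1 { D with dom := W' } where
  sub := hW1
  R1 := h.R1
  qR := h.qR
  nn s hs x hx := h.nn s hs x (hW' hx)
  one s hs x hx := h.one s hs x (hW' hx)
  sup s hs x hx y hy := ⟨hsup (h.sup s hs x (hW' hx) y hy).1, (h.sup s hs x (hW' hx) y hy).2⟩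
  atm s hs x hx y hy := h.atm s hs x (hW' hx) y (hW' hy)
  adj s hs x hx := h.adj s hs x (hW' hx)
  bud s hs t ht X hX hX' := h.bud s hs t (hW' ht) X (fun x hx => ⟨hW' (hX x hx).1, (hX x hx).2⟩)
    hX'
  conf x hx t ht := h.conf x (hW' hx) t (hW' ht)

end OK

/-! ### Towers -/

section Twr

variable {V : Type} {G : SimpleGraph V} {m : ℕ} {D : ℕ → Lv V} {W : ℕ → Set V}

lemma Twr.dom_sub (h : Twr G m D W) (n : ℕ) : (D n).dom ⊆ W n := (h.ok n).sub

lemma Twr.anti (h : Twr G m D W) {n n' : ℕ} (hn : n ≤ n') : W n' ⊆ W n := by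
  induction n', hn using Nat.le_induction with
  | base => exact Set.Subset.rfl
  | succ k _ ih => exact (h.sub k).trans ((h.dom_sub k).trans ih)

lemma Twr.mem_dom (h : Twr G m D W) {n n' : ℕ} (hn : n < n') {x : V} (hx : x ∈ W n') :
    x ∈ (D n).dom := h.sub n (h.anti hn hx)

lemma Twr.mem_sl (h : Twr G m D W) {n : ℕ} {x : V} (hx : x ∈ W n) : x ∈ sl D n :=
  fun _ he => h.mem_dom he hx

lemma U_nn (h : Twr G m D W) {b i : ℕ} {x : V} (hx : own D i b x ∈ (D b).dom) :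
    0 ≤ U G D b i x := ms_nn ((h.ok b).av_nn hx) _

lemma U_le_one (h : Twr G m D W) {b i : ℕ} {x : V} (hx : own D i b x ∈ (D b).dom) :
    U G D b i x ≤ 1 := by
  have h1 := ms_le_sum ((h.ok b).av_nn hx) {y | G.Adj x y}
  rwa [(h.ok b).av_one hx] at h1

end Twr

lemma pk_mem {V : Type} {p : V →₀ ℝ} {d : V} (h : ∃ y, p y ≠ 0) : p (pk p d) ≠ 0 := by
  unfold pk
  rw [dif_pos h]
  exact h.choose_spec

lemma pk_def {V : Type} {p : V →₀ ℝ} (d d' : V) (h : ∃ y, p y ≠ 0) : pk p d = pk p d' := by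
  unfold pk
  rw [dif_pos h, dif_pos h]

end Pool.Agent.Lib.TCH
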