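import Pool.Agent.Lib.TCH.Stmts
import Pool.Agent.Lib.GSR3.Defs

/-!
# Towers of coherent levels: definitions

The label of a vertex at a level and a stage is its hub law.  The proof is in the note
`gsint_helper38_2`.
-/

set_option autoImplicit false

namespace Pool.Agent.Lib.TCH

open Finset Classical

/-- The mass of the set `S`. -/
noncomputable def ms {V : Type} (p : V →₀ ℝ) (S : Set V) : ℝ :=
  ∑ y ∈ p.support with y ∈ S, p y

/-- The data of a level: a pool of `q` stages, the hub laws `p s x` of the vertices `x` in `dom`,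
the near relation between the owners `x` of the laws and the vertices `t`, and the laws `mu`
which the hubs of `x` have at this level. -/
structure Lv (V : Type) where
  q : ℕ
  p : ℕ → V → V →₀ ℝ
  near : ℕ → V → V → Prop
  K : ℝ
  dom : Set V
  mu : ℕ → V → V →₀ ℝ

instance {V : Type} : Inhabited (Lv V) := ⟨⟨0, fun _ _ => 0, fun _ _ _ => False, 0, ∅, fun _ _ => 0⟩⟩

/-- `D` is a level of quality `R` on the set `W`; the hubs `y` of `x` satisfy `C x y`. -/
structure OK {V : Type} (G : SimpleGraph V) (m : ℕ) (C : V → V → Prop) (R : ℕ) (W : Set V)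
    (D : Lv V) : Prop where
  sub : D.dom ⊆ W
  R1 : 1 ≤ R
  qR : R ≤ D.q
  nn : ∀ s < D.q, ∀ x ∈ D.dom, ∀ y, 0 ≤ D.p s x y
  one : ∀ s < D.q, ∀ x ∈ D.dom, ∑ y ∈ (D.p s x).support, D.p s x y = 1
  sup : ∀ s < D.q, ∀ x ∈ D.dom, ∀ y, D.p s x y ≠ 0 → y ∈ W ∧ C x y
  atm : ∀ s < D.q, ∀ x ∈ D.dom, ∀ y ∈ D.dom, (R : ℝ) * D.p s x y ≤ 1
  adj : ∀ s < D.q, ∀ x ∈ D.dom, (R : ℝ) * ms (D.p s x) {y | ¬ G.Adj x y} ≤ 1
  bud : ∀ s < D.q, ∀ t ∈ D.dom, ∀ X : Finset V, (∀ x ∈ X, x ∈ D.dom ∧ D.near s x t) →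
    (∀ x ∈ X, ∀ x' ∈ X, D.p s x = D.p s x' → x = x') →
      ∑ x ∈ X, ms (D.p s x) {y | G.Adj y t} ≤ D.K
  conf : ∀ x ∈ D.dom, ∀ t ∈ D.dom, ((range D.q).filter fun s => ¬ D.near s x t).card ≤ m

/-- Every big subset of `W` carries levels of every quality. -/
def Good {V : Type} (G : SimpleGraph V) (big : Set V → Prop) (m : ℕ) (C : V → V → Prop)
    (W : Set V) : Prop :=
  ∀ W1, W1 ⊆ W → big W1 → ∀ R : ℕ, ∃ D : Lv V, OK G m C (R + 1) W1 D ∧ big D.dom

/-- The hub law of `x` with a random stage. -/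
noncomputable def av {V : Type} (D : Lv V) (x : V) : V →₀ ℝ :=
  ∑ s ∈ range D.q, ((D.q : ℝ)⁻¹) • D.p s x

/-- The probability that two vertices with the laws `P` and `P'` have the same labels at the
stages in `I` of the level `D`. -/
noncomputable def col {V : Type} (D : Lv V) (I : Finset ℕ) (P P' : V →₀ ℝ) : ℝ :=
  ∑ y ∈ P.support, ∑ y' ∈ P'.support with ∀ s ∈ I, D.p s y = D.p s y', P y * P' y'

/-- A chosen element of the support. -/
noncomputable def pk {V : Type} (p : V →₀ ℝ) (d : V) : V :=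
  if h : ∃ y, p y ≠ 0 then h.choose else d

/-- The vertex at the level `b + 1` of the canonical word below `v` with `m` steps, at the levels
`b + m, ..., b + 1` (for `m = 0` it is `v`). -/
noncomputable def own {V : Type} (D : ℕ → Lv V) : ℕ → ℕ → V → V
  | 0, _, v => v
  | m + 1, b, v => pk ((D (b + 1)).p 0 (own D m (b + 1) v)) (own D m (b + 1) v)

/-- The label at the level `b` of the vertices at the distance `i` below `v`. -/
noncomputable def lb {V : Type} (D : ℕ → Lv V) (b i : ℕ) (v : V) : ℕ → V →₀ ℝ :=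
  fun s => if s < (D b).q then (D b).p s (own D i b v) else 0

/-- The hubs `y` of `x` have the labels given by `mu` at the levels below `n`. -/
def coh {V : Type} (D : ℕ → Lv V) (n : ℕ) (x y : V) : Prop :=
  ∀ b < n, ∀ s < (D b).q, (D b).p s y = (D b).mu s x

/-- A tower of coherent levels. -/
structure Twr {V : Type} (G : SimpleGraph V) (m : ℕ) (D : ℕ → Lv V) (W : ℕ → Set V) : Prop where
  ok : ∀ n, OK G m (coh D n) (n + 1) (W n) (D n)
  sub : ∀ n, W (n + 1) ⊆ (D n).dom
  ne : ∀ n, (W n).Nonempty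

/-- The labels of one vertex at the level `b` are pairwise different. -/
def Dif {V : Type} (D : ℕ → Lv V) (W : ℕ → Set V) (b : ℕ) : Prop :=
  ∀ s < (D b).q, ∀ i j, i < j → ∀ v ∈ W (b + j + 1),
    (D b).p s (own D i b v) ≠ (D b).p s (own D j b v)

/-- The first `n` levels. -/
def tr {V : Type} (n : ℕ) (D : ℕ → Lv V) : ℕ → Lv V := fun j => if j < n then D j else default

/-- The position of two labels in a fixed linear order. -/
noncomputable def sgn {V : Type} (p p' : V →₀ ℝ) : ℕ :=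
  if p = p' then 0 else if WellOrderingRel p p' then 1 else 2

/-- The probability that a hub of `x` at the distance `i` is a neighbour of `x`. -/
noncomputable def U {V : Type} (G : SimpleGraph V) (D : ℕ → Lv V) (b i : ℕ) (x : V) : ℝ :=
  ms (av (D b) (own D i b x)) {y | G.Adj x y}

/-- The word `x :: xs` (from above to below) is an induced path. -/
def Ind {V : Type} (G : SimpleGraph V) : List V → Prop
  | [] => True
  | x :: xs => (∀ y ∈ xs.head?, G.Adj x y) ∧ (∀ z ∈ xs.tail, x ≠ z ∧ ¬ G.Adj x z) ∧ Ind G xs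

/-- The type of the first entry of a word of levels and types. -/
def ty : List (ℕ × ℕ) → ℕ
  | [] => 0
  | p :: _ => p.2

/-- The expectation of `g` over the random words below `v` with the levels and types `fs`, the
first vertex at the distance `j` from `v`; the type of an entry is the distance from the vertex
above to the vertex at this level. -/
noncomputable def EW {V : Type} (D : ℕ → Lv V) (v : V) :
    List (ℕ × ℕ) → ℕ → (List V → ℝ) → ℝ
  | [], _, g => g []
  | p :: fs, j, g => ∑ x ∈ (av (D p.1) (own D j p.1 v)).support,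
      av (D p.1) (own D j p.1 v) x * EW D v fs (j + ty fs + 1) (fun xs => g (x :: xs))

/-- The words of positive probability. -/
def Wd {V : Type} (D : ℕ → Lv V) (v : V) : List (ℕ × ℕ) → ℕ → List V → Prop
  | [], _, xs => xs = []
  | p :: fs, j, xs => ∃ x ys, xs = x :: ys ∧ av (D p.1) (own D j p.1 v) x ≠ 0 ∧
      Wd D v fs (j + ty fs + 1) ys

/-- The words `fs` at the distance `j` below `v` are defined for `v` in `W (hg fs j)`. -/
def hg : List (ℕ × ℕ) → ℕ → ℕ
  | [], _ => 0
  | p :: fs, j => max (p.1 + j + 1) (hg fs (j + ty fs + 1))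

/-- Admissible words of levels: every level is in `S`, large with respect to the lower ones, and
its type is given by `d`. -/
def Adm (S : Set ℕ) (h : ℕ) (d : ℕ → ℕ → ℕ) (Θ : List (ℕ × ℕ) → ℕ) : List (ℕ × ℕ) → Prop
  | [] => True
  | p :: fs => p.1 ∈ S ∧ p.2 = d (h - 1 - fs.length) p.1 ∧ Θ fs ≤ p.1 ∧ Adm S h d Θ fs

/-- The vertices above the levels below `f`. -/
def sl {V : Type} (D : ℕ → Lv V) (f : ℕ) : Set V := {X | ∀ e < f, X ∈ (D e).dom}

/-- There is a spread law on the vertices `X` at the level `f` above `xs` with `A X`. -/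
def SpL {V : Type} (G : SimpleGraph V) (D : ℕ → Lv V) (ε : ℝ) (f : ℕ) (xs : List V)
    (A : V → Prop) : Prop :=
  ∃ ζ : V →₀ ℝ, (∀ X, 0 ≤ ζ X) ∧ ∑ X ∈ ζ.support, ζ X = 1 ∧
    (∀ X, ζ X ≠ 0 → X ∈ sl D f ∧ (∀ y ∈ xs.head?, G.Adj X y) ∧ A X) ∧
    ∀ q ∈ (D f).dom, ms ζ {X | X = q ∨ G.Adj X q} ≤ ε

/-- Good words: `n` more levels of the tree can be placed above `xs`, with the levels in
`[a, b)`. -/
def GD {V : Type} (G : SimpleGraph V) (D : ℕ → Lv V) (M : ℕ) (ε : ℝ) :
    ℕ → List V → ℕ → ℕ → Prop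
  | 0, xs, _, _ => Ind G xs
  | n + 1, xs, a, b => Ind G xs ∧ ∃ f g : ℕ → ℕ, (∀ i < M, a ≤ f i ∧ f i < g i ∧ g i ≤ b) ∧
      (∀ i, i + 1 < M → g i ≤ f (i + 1)) ∧
      ∀ i < M, SpL G D ε (f i) xs (fun X => GD G D M ε n (X :: xs) (f i + 1) (g i))

/-- The vertex `X` at the level `f` is good for `xs` but there is no spread law on such
vertices. -/
def Fl {V : Type} (G : SimpleGraph V) (D : ℕ → Lv V) (M : ℕ) (ε : ℝ) (n f g : ℕ)
    (ws : List V) : Prop :=
  ∃ X xs, ws = X :: xs ∧ X ∈ sl D f ∧ GD G D M ε n (X :: xs) (f + 1) g ∧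
    ¬ SpL G D ε f xs (fun X => GD G D M ε n (X :: xs) (f + 1) g)

/-- The vertices `v` for which the random words with the entries `ws` satisfy `A` with
probability at least `η`. -/
def Bd {V : Type} (D : ℕ → Lv V) (fs : List (ℕ × ℕ)) (j : ℕ) (η : ℝ) (A : List V → Prop) :
    Set V :=
  {v | η ≤ EW D v fs j (fun ws => if A ws then 1 else 0)}

/-- The successors of `b`. -/
def Gm {V B : Type} (S : Set V) (β γ : V → B) (b : B) : Set B :=
  {c | ∃ v ∈ S, β v = b ∧ γ v = c}

/-- A colouring of `β` such that the colours of `γ v` and `β v` are different for `v` in `S`. -/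
noncomputable def dg {V B : Type} (S : Set V) (β γ : V → B) (Δ : ℕ) : V → ℕ :=
  if h : ∃ φ : B → ℕ, (∀ b, φ b < 3 ^ Δ) ∧ ∀ v ∈ S, γ v ≠ β v → φ (γ v) ≠ φ (β v) then
    fun v => h.choose (β v) else fun _ => 0

end Pool.Agent.Lib.TCH
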