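import Pool.Agent.Lib.GIT.Defs
import Pool.Agent.Lib.ILT.Defs

/-!
# Chains of windows in graphs without an induced tree: definitions
-/

set_option autoImplicit false

namespace Pool.Agent.Lib.TCH

open Finset Classical

/-- The sets satisfying `big` are the sets outside an ideal. -/
structure Ide {V : Type} (big : Set V → Prop) : Prop where
  emp : ¬ big ∅
  mono : ∀ A B : Set V, A ⊆ B → big A → big B
  split : ∀ A B : Set V, big (A ∪ B) → big A ∨ big B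

/-- A statistic: a function of the data of `k` levels and a vertex. -/
structure Stt (V Lev : Type) where
  k : ℕ
  f : (Fin k → Lev) → V → ℝ

/-- Reversible weights `F` on the incidence `E` between the nodes in `A` (with measure `r`) and
the labels in `O` (with measure `w`).  `N x o`: the node `x` is in conflict with the label `o`;
`Ev`, `Eo`: conflicts between nodes and between labels. -/
structure Inc {V Ω : Type} (A : Finset V) (O : Finset Ω) (E N : V → Ω → Prop)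
    (Ev : V → V → Prop) (Eo : Ω → Ω → Prop) (F : V → Ω → ℝ) (r : V → ℝ) (w : Ω → ℝ)
    (C K α : ℝ) : Prop where
  nn : ∀ x o, 0 ≤ F x o
  r0 : ∀ x, 0 ≤ r x
  w0 : ∀ o, 0 ≤ w o
  sup : ∀ x o, F x o ≠ 0 → x ∈ A ∧ o ∈ O ∧ E x o
  one : ∑ x ∈ A, ∑ o ∈ O, F x o = 1
  dw : ∀ x ∈ A, ∀ o ∈ O, F x o ≤ C * w o * ∑ o' ∈ O, F x o'
  dr : ∀ x ∈ A, ∀ o ∈ O, F x o ≤ C * r x * ∑ x' ∈ A, F x' o
  lw : ∀ x ∈ A, ∀ o ∈ O, E x o → w o * ∑ o' ∈ O, F x o' ≤ C * F x o
  lr : ∀ x ∈ A, ∀ o ∈ O, E x o → r x * ∑ x' ∈ A, F x' o ≤ C * F x o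
  nw : ∀ x ∈ A, ∑ o ∈ O with N x o, w o ≤ K
  nr : ∀ o ∈ O, ∑ x ∈ A with N x o, r x ≤ K
  atr : ∀ x' ∈ A, ∑ x ∈ A with Ev x x' ∨ Ev x' x, r x ≤ α
  atw : ∀ o' ∈ O, ∑ o ∈ O with Eo o o' ∨ Eo o' o, w o ≤ α

/-- The weight of the pairs `(x', o')` which form a 4-cycle with the incidence `(x, o)`. -/
noncomputable def kap {V Ω : Type} (A : Finset V) (O : Finset Ω) (E : V → Ω → Prop)
    (r : V → ℝ) (w : Ω → ℝ) (x : V) (o : Ω) : ℝ :=
  ∑ x' ∈ A with E x' o, r x' * ∑ o' ∈ O with E x o' ∧ E x' o', w o'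

/-- Incident pairs, in both orders. -/
def EP {V Ω : Type} (A : Finset V) (O : Finset Ω) (E : V → Ω → Prop) : V ⊕ Ω → V ⊕ Ω → Prop
  | .inl x, .inr o => x ∈ A ∧ o ∈ O ∧ E x o
  | .inr o, .inl x => x ∈ A ∧ o ∈ O ∧ E x o
  | _, _ => False

/-- Conflicting pairs, in both orders. -/
def CP {V Ω : Type} (N : V → Ω → Prop) (Ev : V → V → Prop) (Eo : Ω → Ω → Prop) :
    V ⊕ Ω → V ⊕ Ω → Prop
  | .inl x, .inr o => N x o
  | .inr o, .inl x => N x o
  | .inl x, .inl x' => Ev x x' ∨ Ev x' x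
  | .inr o, .inr o' => Eo o o' ∨ Eo o' o

end Pool.Agent.Lib.TCH
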