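import Pool.Agent.Lib.TCH.Stmts
import Pool.Agent.Lib.GIT.HL

/-!
# Chains of windows: an incidence with few 4-cycles contains all trees without conflicts
-/

set_option autoImplicit false

namespace Pool.Agent.Lib.TCH

open Finset Classical
open Pool.Agent.Lib.GIT (hl kr ev TA stHL)

namespace LLAux

/-- the indicator of `p` -/
noncomputable def ind (p : Prop) : ℝ := if p then 1 else 0

lemma ind_nonneg (p : Prop) : 0 ≤ ind p := by
  unfold ind
  split_ifs <;> norm_num

lemma ind_le (p : Prop) : ind p ≤ 1 := by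
  unfold ind
  split_ifs <;> norm_num

lemma ind_sq (p : Prop) : ind p ^ 2 = ind p := by
  unfold ind
  split_ifs <;> norm_num

lemma ind_mono {p q : Prop} (h : p → q) : ind p ≤ ind q := by
  unfold ind
  by_cases hp : p
  · rw [if_pos hp, if_pos (h hp)]
  · rw [if_neg hp]
    split_ifs <;> norm_num

section Abs

variable {X : Type} [Fintype X]

/-- Symmetric weights with a reference measure. -/
structure Dat (w : X → X → ℝ) (om : X → ℝ) (Eb Nb Qb : X → X → Prop) (C K α ε : ℝ) : Prop where
  w0 : ∀ u v, 0 ≤ w u v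
  sym : ∀ u v, w u v = w v u
  one : ∑ u, ∑ v, w u v = 1
  om0 : ∀ v, 0 ≤ om v
  C0 : 0 < C
  k : ∀ u v, kr w u v ≤ C * (om v * ind (Eb u v))
  q : ∀ u, ∑ v, om v * ind (Qb u v) ≤ α
  nb : ∀ u, ∑ v, om v * ind (Nb u v) ≤ K
  kp : ∑ u, ∑ u', w u u' * ∑ v, (om v * ind (Eb u' v)) *
    ∑ u'', om u'' * (ind (Eb u u'') * ind (Eb u'' v)) ≤ ε

variable {w : X → X → ℝ} {om : X → ℝ} {Eb Nb Qb : X → X → Prop} {C K α ε : ℝ}

lemma same (D : Dat w om Eb Nb Qb C K α ε) {par : ℕ → ℕ} (hpar : ∀ j, 1 ≤ j → par j < j) {n : ℕ}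
    {a b : ℕ} (ha : a ≤ n) (hb : b ≤ n) (hab : a ≠ b) :
    ∑ φ : Fin (n + 1) → X, hl w par n φ * ind (Qb (ev φ b) (ev φ a)) ≤ C * α := by
  obtain ⟨h1, h2, -, -, h5, h6⟩ := stHL X w par n hpar D.w0 D.sym D.one
  obtain ⟨c, hc, hca, hTc, e1⟩ := h6 a ha b hb hab
  have e : ∑ φ : Fin (n + 1) → X, hl w par n φ * ind (Qb (ev φ b) (ev φ a)) =
      ∑ φ : Fin (n + 1) → X, hl w par n φ *
        ∑ v, kr w (ev φ c) v * ind (Qb (ev φ b) v) := e1 (fun x _ z => ind (Qb x z))
  rw [e]
  calc ∑ φ : Fin (n + 1) → X, hl w par n φ * ∑ v, kr w (ev φ c) v * ind (Qb (ev φ b) v)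
      ≤ ∑ φ : Fin (n + 1) → X, hl w par n φ * (C * α) := by
        refine sum_le_sum fun φ _ => mul_le_mul_of_nonneg_left ?_ (h1 φ)
        calc ∑ v, kr w (ev φ c) v * ind (Qb (ev φ b) v)
            ≤ ∑ v, C * (om v * ind (Qb (ev φ b) v)) := by
              refine sum_le_sum fun v _ => ?_
              have k1 := D.k (ev φ c) v
              have k2 : om v * ind (Eb (ev φ c) v) ≤ om v * 1 :=
                mul_le_mul_of_nonneg_left (ind_le _) (D.om0 v)
              have k3 : kr w (ev φ c) v ≤ C * om v := by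
                refine k1.trans ?_
                have := mul_le_mul_of_nonneg_left k2 D.C0.le
                rwa [mul_one] at this
              calc kr w (ev φ c) v * ind (Qb (ev φ b) v)
                  ≤ C * om v * ind (Qb (ev φ b) v) :=
                    mul_le_mul_of_nonneg_right k3 (ind_nonneg _)
                _ = _ := by ring
          _ = C * ∑ v, om v * ind (Qb (ev φ b) v) := by rw [mul_sum]
          _ ≤ C * α := mul_le_mul_of_nonneg_left (D.q _) D.C0.le
    _ = C * α := by rw [← sum_mul, h2, one_mul]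

/-- the kernel applied to the neighbourhood of `v` -/
noncomputable def ke (w : X → X → ℝ) (Eb : X → X → Prop) (v u : X) : ℝ :=
  ∑ u', kr w u u' * ind (Eb u' v)

lemma ke_sum (D : Dat w om Eb Nb Qb C K α ε) :
    ∑ v, om v * ∑ u, (∑ v', w u v') * ke w Eb v u ^ 2 ≤ C * ε := by
  have hk : ∀ u v, 0 ≤ kr w u v := fun u v =>
    div_nonneg (D.w0 u v) (Finset.sum_nonneg fun v' _ => D.w0 u v')
  have hW : ∀ u, 0 ≤ ∑ v', w u v' := fun u => Finset.sum_nonneg fun v' _ => D.w0 u v'
  have h1 : ∀ v u, (∑ v', w u v') * ke w Eb v u ^ 2 ≤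
      C * ∑ u', w u u' * (ind (Eb u' v) * ∑ u'', om u'' * (ind (Eb u u'') * ind (Eb u'' v))) := by
    intro v u
    have hb : ke w Eb v u ≤ C * ∑ u'', om u'' * (ind (Eb u u'') * ind (Eb u'' v)) := by
      unfold ke
      rw [mul_sum]
      refine sum_le_sum fun u'' _ => ?_
      calc kr w u u'' * ind (Eb u'' v) ≤ C * (om u'' * ind (Eb u u'')) * ind (Eb u'' v) :=
            mul_le_mul_of_nonneg_right (D.k u u'') (ind_nonneg _)
        _ = _ := by ring
    have h0 : 0 ≤ ke w Eb v u := sum_nonneg fun u' _ => mul_nonneg (hk _ _) (ind_nonneg _)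
    calc (∑ v', w u v') * ke w Eb v u ^ 2
        = ((∑ v', w u v') * ke w Eb v u) * ke w Eb v u := by ring
      _ ≤ ((∑ v', w u v') * ke w Eb v u) *
          (C * ∑ u'', om u'' * (ind (Eb u u'') * ind (Eb u'' v))) :=
            mul_le_mul_of_nonneg_left hb (mul_nonneg (hW u) h0)
      _ = C * ∑ u', w u u' * (ind (Eb u' v) *
          ∑ u'', om u'' * (ind (Eb u u'') * ind (Eb u'' v))) := by
        have e : (∑ v', w u v') * ke w Eb v u = ∑ u', w u u' * ind (Eb u' v) := by
          unfold ke
          rw [mul_sum]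
          refine sum_congr rfl fun u' _ => ?_
          rw [← mul_assoc, Pool.Agent.Lib.GIT.HLAux.W_mul_kr w D.w0]
        rw [e]
        generalize ∑ u'', om u'' * (ind (Eb u u'') * ind (Eb u'' v)) = S
        rw [sum_mul, mul_sum]
        exact sum_congr rfl fun u' _ => by ring
  calc ∑ v, om v * ∑ u, (∑ v', w u v') * ke w Eb v u ^ 2
      ≤ ∑ v, om v * ∑ u, C * ∑ u', w u u' * (ind (Eb u' v) *
          ∑ u'', om u'' * (ind (Eb u u'') * ind (Eb u'' v))) := by
        refine sum_le_sum fun v _ => mul_le_mul_of_nonneg_left ?_ (D.om0 v)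
        exact sum_le_sum fun u _ => h1 v u
    _ = C * ∑ u, ∑ u', w u u' * ∑ v, (om v * ind (Eb u' v)) *
          ∑ u'', om u'' * (ind (Eb u u'') * ind (Eb u'' v)) := by
        simp only [mul_sum]
        rw [sum_comm]
        refine sum_congr rfl fun u _ => ?_
        rw [sum_comm]
        refine sum_congr rfl fun u' _ => ?_
        refine sum_congr rfl fun v _ => ?_
        refine sum_congr rfl fun u'' _ => ?_
        ring
    _ ≤ C * ε := mul_le_mul_of_nonneg_left D.kp D.C0.le

lemma cross (D : Dat w om Eb Nb Qb C K α ε) {par : ℕ → ℕ} (hpar : ∀ j, 1 ≤ j → par j < j) {n : ℕ}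
    {a b : ℕ} (ha : a ≤ n) (hb : b ≤ n) (hab : a ≠ b) (hT : ¬ TA par a b) {l : ℝ} (hl0 : 0 < l) :
    ∑ φ : Fin (n + 1) → X, hl w par n φ * ind (Nb (ev φ b) (ev φ a)) ≤
      C * (1 / 2 * (l * (C * ε) + 1 / l * K)) := by
  obtain ⟨h1, h2, -, -, h5, h6⟩ := stHL X w par n hpar D.w0 D.sym D.one
  obtain ⟨c, hc, hca, hTc, e1⟩ := h6 a ha b hb hab
  have hbc : b ≠ c := fun hbc => hT (by rw [hbc]; exact hTc)
  have e : ∑ φ : Fin (n + 1) → X, hl w par n φ * ind (Nb (ev φ b) (ev φ a)) =
      ∑ φ : Fin (n + 1) → X, hl w par n φ *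
        ∑ v, kr w (ev φ c) v * ind (Nb (ev φ b) v) := e1 (fun x _ z => ind (Nb x z))
  rw [e]
  obtain ⟨c', hc', -, -, e2⟩ := h6 c hc b hb (Ne.symm hbc)
  -- one label
  have s3 : ∀ v, ∑ φ : Fin (n + 1) → X, hl w par n φ * (ind (Eb (ev φ c) v) *
      ind (Nb (ev φ b) v)) ≤
      1 / 2 * (l * ∑ u, (∑ v', w u v') * ke w Eb v u ^ 2 +
        1 / l * ∑ u, (∑ v', w u v') * ind (Nb u v)) := by
    intro v
    have e3 : ∑ φ : Fin (n + 1) → X, hl w par n φ * (ind (Eb (ev φ c) v) *
        ind (Nb (ev φ b) v)) = ∑ φ : Fin (n + 1) → X, hl w par n φ *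
          ∑ u', kr w (ev φ c') u' * (ind (Eb u' v) * ind (Nb (ev φ b) v)) :=
      e2 (fun x _ z => ind (Eb z v) * ind (Nb x v))
    rw [e3]
    have m1 : ∑ φ : Fin (n + 1) → X, hl w par n φ * ke w Eb v (ev φ c') ^ 2 =
        ∑ u, (∑ v', w u v') * ke w Eb v u ^ 2 := h5 c' hc' (fun u => ke w Eb v u ^ 2)
    have m2 : ∑ φ : Fin (n + 1) → X, hl w par n φ * ind (Nb (ev φ b) v) =
        ∑ u, (∑ v', w u v') * ind (Nb u v) := h5 b hb (fun u => ind (Nb u v))
    rw [← m1, ← m2]
    calc ∑ φ : Fin (n + 1) → X, hl w par n φ *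
          ∑ u', kr w (ev φ c') u' * (ind (Eb u' v) * ind (Nb (ev φ b) v))
        = ∑ φ : Fin (n + 1) → X, hl w par n φ * (ke w Eb v (ev φ c') * ind (Nb (ev φ b) v)) := by
          refine sum_congr rfl fun φ _ => ?_
          congr 1
          unfold ke
          rw [sum_mul]
          exact sum_congr rfl fun u' _ => by ring
      _ ≤ ∑ φ : Fin (n + 1) → X, (1 / 2 * (l * (hl w par n φ * ke w Eb v (ev φ c') ^ 2) +
            1 / l * (hl w par n φ * ind (Nb (ev φ b) v)))) := by
          refine sum_le_sum fun φ _ => ?_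
          have hp := h1 φ
          have key : ke w Eb v (ev φ c') * ind (Nb (ev φ b) v) ≤
              1 / 2 * (l * ke w Eb v (ev φ c') ^ 2 + 1 / l * ind (Nb (ev φ b) v)) := by
            generalize ke w Eb v (ev φ c') = x
            have hz := ind_sq (Nb (ev φ b) v)
            generalize ind (Nb (ev φ b) v) = y at hz ⊢
            have h3 : 0 ≤ 1 / l * (l * x - y) ^ 2 := by positivity
            have h4 : 1 / l * (l * x - y) ^ 2 = l * x ^ 2 - 2 * (x * y) + 1 / l * y ^ 2 := by
              field_simp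
              ring
            rw [hz] at h4
            linarith
          calc hl w par n φ * (ke w Eb v (ev φ c') * ind (Nb (ev φ b) v))
              ≤ hl w par n φ *
                (1 / 2 * (l * ke w Eb v (ev φ c') ^ 2 + 1 / l * ind (Nb (ev φ b) v))) :=
                mul_le_mul_of_nonneg_left key hp
            _ = _ := by ring
      _ = _ := by
          rw [← mul_sum, sum_add_distrib, ← mul_sum, ← mul_sum]
  calc ∑ φ : Fin (n + 1) → X, hl w par n φ * ∑ v, kr w (ev φ c) v * ind (Nb (ev φ b) v)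
      ≤ ∑ φ : Fin (n + 1) → X, hl w par n φ *
        ∑ v, C * (om v * (ind (Eb (ev φ c) v) * ind (Nb (ev φ b) v))) := by
        refine sum_le_sum fun φ _ => mul_le_mul_of_nonneg_left ?_ (h1 φ)
        refine sum_le_sum fun v _ => ?_
        calc kr w (ev φ c) v * ind (Nb (ev φ b) v)
            ≤ C * (om v * ind (Eb (ev φ c) v)) * ind (Nb (ev φ b) v) :=
              mul_le_mul_of_nonneg_right (D.k _ _) (ind_nonneg _)
          _ = _ := by ring
    _ = C * ∑ v, om v * ∑ φ : Fin (n + 1) → X, hl w par n φ *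
          (ind (Eb (ev φ c) v) * ind (Nb (ev φ b) v)) := by
        simp only [mul_sum]
        rw [sum_comm]
        refine sum_congr rfl fun v _ => sum_congr rfl fun φ _ => by ring
    _ ≤ C * ∑ v, om v * (1 / 2 * (l * ∑ u, (∑ v', w u v') * ke w Eb v u ^ 2 +
        1 / l * ∑ u, (∑ v', w u v') * ind (Nb u v))) := by
        refine mul_le_mul_of_nonneg_left ?_ D.C0.le
        exact sum_le_sum fun v _ => mul_le_mul_of_nonneg_left (s3 v) (D.om0 v)
    _ = C * (1 / 2 * (l * ∑ v, om v * ∑ u, (∑ v', w u v') * ke w Eb v u ^ 2 +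
        1 / l * ∑ u, (∑ v', w u v') * ∑ v, om v * ind (Nb u v))) := by
        congr 1
        have e5 : ∑ u, (∑ v', w u v') * ∑ v, om v * ind (Nb u v) =
            ∑ v, om v * ∑ u, (∑ v', w u v') * ind (Nb u v) := by
          simp only [mul_sum]
          rw [sum_comm]
          refine sum_congr rfl fun v _ => sum_congr rfl fun u _ => by ring
        rw [e5, mul_sum, mul_sum, ← sum_add_distrib, mul_sum]
        refine sum_congr rfl fun v _ => by ring
    _ ≤ C * (1 / 2 * (l * (C * ε) + 1 / l * K)) := by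
        refine mul_le_mul_of_nonneg_left ?_ D.C0.le
        refine mul_le_mul_of_nonneg_left ?_ (by norm_num)
        refine add_le_add (mul_le_mul_of_nonneg_left (ke_sum D) hl0.le) ?_
        refine mul_le_mul_of_nonneg_left ?_ (by positivity)
        calc ∑ u, (∑ v', w u v') * ∑ v, om v * ind (Nb u v)
            ≤ ∑ u, (∑ v', w u v') * K := sum_le_sum fun u _ =>
              mul_le_mul_of_nonneg_left (D.nb u) (sum_nonneg fun v' _ => D.w0 u v')
          _ = K := by rw [← sum_mul, D.one, one_mul]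

end Abs

section Con

variable {V Ω : Type}

/-- the weights of the chain on the nodes and labels -/
noncomputable def wt (A : Finset V) (O : Finset Ω) (F : V → Ω → ℝ) : ↥A ⊕ ↥O → ↥A ⊕ ↥O → ℝ
  | .inl _, .inl _ => 0
  | .inl x, .inr o => F x o / 2
  | .inr o, .inl x => F x o / 2
  | .inr _, .inr _ => 0

/-- the reference measure -/
def om (A : Finset V) (O : Finset Ω) (r : V → ℝ) (w : Ω → ℝ) : ↥A ⊕ ↥O → ℝ
  | .inl x => r x
  | .inr o => w o

/-- relations between nodes and labels, in both orders -/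
def eb (A : Finset V) (O : Finset Ω) (E : V → Ω → Prop) : ↥A ⊕ ↥O → ↥A ⊕ ↥O → Prop
  | .inl _, .inl _ => False
  | .inl x, .inr o => E x o
  | .inr o, .inl x => E x o
  | .inr _, .inr _ => False

/-- conflicts of nodes and conflicts of labels -/
def qb (A : Finset V) (O : Finset Ω) (Ev : V → V → Prop) (Eo : Ω → Ω → Prop) :
    ↥A ⊕ ↥O → ↥A ⊕ ↥O → Prop
  | .inl x, .inl x' => Ev x' x ∨ Ev x x'
  | .inl _, .inr _ => False
  | .inr _, .inl _ => False
  | .inr o, .inr o' => Eo o' o ∨ Eo o o'

lemma ind_false : ind False = 0 := by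
  unfold ind
  simp

lemma sum_ind {ι : Type} (A : Finset ι) (f : ι → ℝ) (p : ι → Prop) [DecidablePred p] :
    ∑ x : ↥A, f x * ind (p x) = ∑ x ∈ A with p x, f x := by
  rw [sum_coe_sort A (fun x => f x * ind (p x)), sum_filter]
  refine sum_congr rfl fun x _ => ?_
  unfold ind
  split_ifs <;> simp

variable {A : Finset V} {O : Finset Ω} {E N : V → Ω → Prop} {Ev : V → V → Prop}
  {Eo : Ω → Ω → Prop} {F : V → Ω → ℝ} {r : V → ℝ} {w : Ω → ℝ} {C K α : ℝ}

lemma row_l (x : ↥A) : ∑ v, wt A O F (.inl x) v = (∑ o ∈ O, F x o) / 2 := by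
  rw [Fintype.sum_sum_type]
  simp only [wt, sum_const_zero, zero_add]
  rw [← sum_div, sum_coe_sort O (fun o => F x o)]

lemma row_r (o : ↥O) : ∑ v, wt A O F (.inr o) v = (∑ x ∈ A, F x o) / 2 := by
  rw [Fintype.sum_sum_type]
  simp only [wt, sum_const_zero, add_zero]
  rw [← sum_div, sum_coe_sort A (fun x => F x o)]

lemma half (a b : ℝ) : a / 2 / (b / 2) = a / b := by
  rcases eq_or_ne b 0 with rfl | hb
  · simp
  · field_simp

lemma kap_l (x : ↥A) (o : ↥O) :
    ∑ v, (om A O r w v * ind (eb A O E (.inr o) v)) *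
      ∑ u'', om A O r w u'' * (ind (eb A O E (.inl x) u'') * ind (eb A O E u'' v)) =
        kap A O E r w x o := by
  rw [Fintype.sum_sum_type]
  simp only [om, eb, ind_false, mul_zero, zero_mul, sum_const_zero, add_zero,
    Fintype.sum_sum_type, zero_add]
  unfold kap
  rw [← sum_ind A (fun x' => r x' * ∑ o' ∈ O with E x o' ∧ E x' o', w o') (fun x' => E x' o)]
  refine sum_congr rfl fun x' _ => ?_
  rw [← sum_ind O w (fun o' => E x o' ∧ E x' o')]
  have e : ∀ o' : ↥O, ind (E x o' ∧ E x' o') = ind (E x o') * ind (E x' o') := by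
    intro o'
    unfold ind
    by_cases h1 : E x o' <;> by_cases h2 : E x' o' <;> simp [h1, h2]
  simp only [e]
  ring

lemma kap_r (x : ↥A) (o : ↥O) :
    ∑ v, (om A O r w v * ind (eb A O E (.inl x) v)) *
      ∑ u'', om A O r w u'' * (ind (eb A O E (.inr o) u'') * ind (eb A O E u'' v)) =
        kap A O E r w x o := by
  rw [← kap_l]
  rw [Fintype.sum_sum_type, Fintype.sum_sum_type]
  simp only [om, eb, ind_false, mul_zero, zero_mul, sum_const_zero, add_zero,
    Fintype.sum_sum_type, zero_add, mul_sum]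
  rw [sum_comm]
  refine sum_congr rfl fun x' _ => sum_congr rfl fun o' _ => ?_
  ring

lemma dat (hC : 0 < C) (I : Inc A O E N Ev Eo F r w C K α) {ε : ℝ}
    (hk : ∑ x ∈ A, ∑ o ∈ O, F x o * kap A O E r w x o ≤ ε) :
    Dat (wt A O F) (om A O r w) (eb A O E) (eb A O N) (qb A O Ev Eo) C K α ε where
  w0 := by
    rintro (x | o) (x' | o') <;> simp only [wt] <;> first | exact le_rfl | skip
    · exact div_nonneg (I.nn _ _) (by norm_num)
    · exact div_nonneg (I.nn _ _) (by norm_num)
  sym := by
    rintro (x | o) (x' | o') <;> rfl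
  one := by
    rw [Fintype.sum_sum_type]
    simp only [row_l, row_r]
    rw [← sum_div, ← sum_div, sum_coe_sort A (fun x => ∑ o ∈ O, F x o),
      sum_coe_sort O (fun o => ∑ x ∈ A, F x o), sum_comm (s := O) (t := A), I.one]
    norm_num
  om0 := by
    rintro (x | o)
    · exact I.r0 _
    · exact I.w0 _
  C0 := hC
  k := by
    have hom : ∀ v, 0 ≤ om A O r w v := by
      rintro (x | o)
      · exact I.r0 _
      · exact I.w0 _
    rintro (x | o) (x' | o')
    · show (0 : ℝ) / _ ≤ _
      rw [zero_div]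
      exact mul_nonneg hC.le (mul_nonneg (hom _) (ind_nonneg _))
    · unfold kr
      rw [row_l]
      show F x o' / 2 / _ ≤ C * (w o' * ind (E x o'))
      rw [half]
      by_cases h : F x o' = 0
      · rw [h, zero_div]
        exact mul_nonneg hC.le (mul_nonneg (I.w0 _) (ind_nonneg _))
      · have hE := (I.sup _ _ h).2.2
        have hpos : 0 < ∑ o ∈ O, F x o := by
          have h1 : F x o' ≤ ∑ o ∈ O, F x o :=
            single_le_sum (f := fun o => F x o) (fun o _ => I.nn _ _) o'.2
          exact lt_of_lt_of_le (lt_of_le_of_ne (I.nn _ _) (Ne.symm h)) h1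
        rw [div_le_iff₀ hpos]
        have e : ind (E x o') = 1 := if_pos hE
        rw [e, mul_one]
        exact I.dw x x.2 o' o'.2
    · unfold kr
      rw [row_r]
      show F x' o / 2 / _ ≤ C * (r x' * ind (E x' o))
      rw [half]
      by_cases h : F x' o = 0
      · rw [h, zero_div]
        exact mul_nonneg hC.le (mul_nonneg (I.r0 _) (ind_nonneg _))
      · have hE := (I.sup _ _ h).2.2
        have hpos : 0 < ∑ x ∈ A, F x o := by
          have h1 : F x' o ≤ ∑ x ∈ A, F x o :=
            single_le_sum (f := fun x => F x o) (fun o _ => I.nn _ _) x'.2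
          exact lt_of_lt_of_le (lt_of_le_of_ne (I.nn _ _) (Ne.symm h)) h1
        rw [div_le_iff₀ hpos]
        have e : ind (E x' o) = 1 := if_pos hE
        rw [e, mul_one]
        exact I.dr x' x'.2 o o.2
    · show (0 : ℝ) / _ ≤ _
      rw [zero_div]
      exact mul_nonneg hC.le (mul_nonneg (hom _) (ind_nonneg _))
  q := by
    rintro (x | o)
    · rw [Fintype.sum_sum_type]
      simp only [om, qb, ind_false, mul_zero, sum_const_zero, add_zero]
      rw [sum_ind A r (fun x' => Ev x' x ∨ Ev x x')]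
      exact I.atr x x.2
    · rw [Fintype.sum_sum_type]
      simp only [om, qb, ind_false, mul_zero, sum_const_zero, zero_add]
      rw [sum_ind O w (fun o' => Eo o' o ∨ Eo o o')]
      exact I.atw o o.2
  nb := by
    rintro (x | o)
    · rw [Fintype.sum_sum_type]
      simp only [om, eb, ind_false, mul_zero, sum_const_zero, zero_add]
      rw [sum_ind O w (fun o' => N x o')]
      exact I.nw x x.2
    · rw [Fintype.sum_sum_type]
      simp only [om, eb, ind_false, mul_zero, sum_const_zero, add_zero]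
      rw [sum_ind A r (fun x' => N x' o)]
      exact I.nr o o.2
  kp := by
    rw [Fintype.sum_sum_type]
    have e1 : ∀ x : ↥A, ∑ u', wt A O F (.inl x) u' *
        ∑ v, (om A O r w v * ind (eb A O E u' v)) *
          ∑ u'', om A O r w u'' * (ind (eb A O E (.inl x) u'') * ind (eb A O E u'' v)) =
        (∑ o ∈ O, F x o * kap A O E r w x o) / 2 := by
      intro x
      rw [Fintype.sum_sum_type]
      have e2 : ∀ x' : ↥A, wt A O F (.inl x) (.inl x') = 0 := fun _ => rfl
      have e3 : ∀ o : ↥O, wt A O F (.inl x) (.inr o) = F x o / 2 := fun _ => rfl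
      simp only [e2, e3, zero_mul, sum_const_zero, zero_add, kap_l]
      rw [← sum_coe_sort O (fun o => F x o * kap A O E r w x o), sum_div]
      exact sum_congr rfl fun o _ => by ring
    have e1' : ∀ o : ↥O, ∑ u', wt A O F (.inr o) u' *
        ∑ v, (om A O r w v * ind (eb A O E u' v)) *
          ∑ u'', om A O r w u'' * (ind (eb A O E (.inr o) u'') * ind (eb A O E u'' v)) =
        (∑ x ∈ A, F x o * kap A O E r w x o) / 2 := by
      intro o
      rw [Fintype.sum_sum_type]
      have e2 : ∀ o' : ↥O, wt A O F (.inr o) (.inr o') = 0 := fun _ => rfl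
      have e3 : ∀ x : ↥A, wt A O F (.inr o) (.inl x) = F x o / 2 := fun _ => rfl
      simp only [e2, e3, zero_mul, sum_const_zero, add_zero, kap_r]
      rw [← sum_coe_sort A (fun x => F x o * kap A O E r w x o), sum_div]
      exact sum_congr rfl fun o _ => by ring
    simp only [e1, e1']
    rw [← sum_div, ← sum_div, sum_coe_sort A (fun x => ∑ o ∈ O, F x o * kap A O E r w x o),
      sum_coe_sort O (fun o => ∑ x ∈ A, F x o * kap A O E r w x o),
      sum_comm (s := O) (t := A)]
    linarith

end Con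

end LLAux

open LLAux in
/-- Module `LL`. -/
theorem stLL : StLL := by
  intro n C K hC hK
  set M : ℝ := ((n : ℝ) + 1) ^ 2 with hM
  have hM0 : 0 < M := by positivity
  set l : ℝ := 4 * M * C * K with hl0
  have hl1 : 0 < l := by positivity
  set ε : ℝ := 1 / (8 * M * (C + C ^ 2 * l / 2)) with hε
  have hε0 : 0 < ε := by positivity
  refine ⟨ε, hε0, ?_⟩
  intro V Ω A O E N Ev Eo F r w I hk par hpar
  have D := dat hC I hk
  obtain ⟨h1, h2, h3, h4, h5, -⟩ := stHL (↥A ⊕ ↥O) (wt A O F) par n hpar D.w0 D.sym D.one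
  by_contra hcon
  have hroot : ∑ φ : Fin (n + 1) → ↥A ⊕ ↥O, hl (wt A O F) par n φ *
      ind ((ev φ 0).isLeft = true) = 1 / 2 := by
    have e := h5 0 (Nat.zero_le n) (fun u => ind (u.isLeft = true))
    refine e.trans ?_
    rw [Fintype.sum_sum_type]
    have e1 : ind True = 1 := if_pos trivial
    simp only [Sum.isLeft_inl, Sum.isLeft_inr, row_l, Bool.false_eq_true, ind_false, mul_zero,
      sum_const_zero, add_zero, e1, mul_one]
    rw [← sum_div, sum_coe_sort A (fun x => ∑ o ∈ O, F x o), I.one]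
  set T : ℝ := C * ε + C * (1 / 2 * (l * (C * ε) + 1 / l * K)) with hT
  have hpair : ∀ j ≤ n, ∀ i < j, i ≠ par j →
      ∑ φ : Fin (n + 1) → ↥A ⊕ ↥O, hl (wt A O F) par n φ *
        (ind (eb A O N (ev φ i) (ev φ j)) + ind (qb A O Ev Eo (ev φ i) (ev φ j))) ≤ T := by
    intro j hj i hi hij
    have g1 := same D hpar hj (hi.le.trans hj) (Ne.symm hi.ne)
    have hTA : ¬ TA par j i := by
      rintro (⟨-, h⟩ | ⟨h, h'⟩)
      · exact hij h.symm
      · have := hpar i h
        omega
    have g2 := cross D hpar hj (hi.le.trans hj) (Ne.symm hi.ne) hTA hl1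
    simp only [mul_add, sum_add_distrib]
    rw [hT]
    linarith
  have hbad : ∀ φ : Fin (n + 1) → ↥A ⊕ ↥O, hl (wt A O F) par n φ * ind ((ev φ 0).isLeft = true) ≤
      ∑ j ∈ range (n + 1), ∑ i ∈ (range (n + 1)).filter (fun i => i < j ∧ i ≠ par j),
        hl (wt A O F) par n φ *
          (ind (eb A O N (ev φ i) (ev φ j)) + ind (qb A O Ev Eo (ev φ i) (ev φ j))) := by
    intro φ
    have hnn : ∀ j i, 0 ≤ hl (wt A O F) par n φ *
        (ind (eb A O N (ev φ i) (ev φ j)) + ind (qb A O Ev Eo (ev φ i) (ev φ j))) := fun j i =>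
      mul_nonneg (h1 φ) (add_nonneg (ind_nonneg _) (ind_nonneg _))
    have hR : 0 ≤ ∑ j ∈ range (n + 1), ∑ i ∈ (range (n + 1)).filter (fun i => i < j ∧ i ≠ par j),
        hl (wt A O F) par n φ *
          (ind (eb A O N (ev φ i) (ev φ j)) + ind (qb A O Ev Eo (ev φ i) (ev φ j))) :=
      sum_nonneg fun j _ => sum_nonneg fun i _ => hnn j i
    by_cases hφ : hl (wt A O F) par n φ = 0
    · have h0 : hl (wt A O F) par n φ * ind ((ev φ 0).isLeft = true) = 0 := by
        rw [hφ, zero_mul]
      rw [h0]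
      exact hR
    by_cases hr : (ev φ 0).isLeft = true
    · -- there is a conflict
      have hc : ∃ j ≤ n, ∃ i < j, i ≠ par j ∧
          (eb A O N (ev φ i) (ev φ j) ∨ qb A O Ev Eo (ev φ i) (ev φ j)) := by
        by_contra hno
        apply hcon
        refine ⟨fun j => Sum.map Subtype.val Subtype.val (ev φ j), ?_, ?_, ?_⟩
        · obtain ⟨x, hx⟩ := Sum.isLeft_iff.1 hr
          exact ⟨x, x.2, by simp only [hx, Sum.map_inl]⟩
        · intro j hj hjn
          have := h3 φ hφ j hj hjn
          show EP A O E (Sum.map Subtype.val Subtype.val (ev φ (par j)))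
            (Sum.map Subtype.val Subtype.val (ev φ j))
          revert this
          rcases ev φ (par j) with x | o <;> rcases ev φ j with x' | o'
          · intro h; exact absurd rfl h
          · intro h
            have h' : F x o' ≠ 0 := by
              intro h0
              apply h
              show F x o' / 2 = 0
              rw [h0, zero_div]
            exact I.sup _ _ h'
          · intro h
            have h' : F x' o ≠ 0 := by
              intro h0
              apply h
              show F x' o / 2 = 0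
              rw [h0, zero_div]
            exact I.sup _ _ h'
          · intro h; exact absurd rfl h
        · intro j hj i hi hij hCP
          apply hno
          refine ⟨j, hj, i, hi, hij, ?_⟩
          change CP N Ev Eo (Sum.map Subtype.val Subtype.val (ev φ i))
            (Sum.map Subtype.val Subtype.val (ev φ j)) at hCP
          revert hCP
          rcases ev φ i with x | o <;> rcases ev φ j with x' | o'
          · intro h; exact Or.inr (Or.symm h)
          · intro h; exact Or.inl h
          · intro h; exact Or.inl h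
          · intro h; exact Or.inr (Or.symm h)
      obtain ⟨j, hj, i, hi, hij, hb⟩ := hc
      have e1 : ind ((ev φ 0).isLeft = true) = 1 := if_pos hr
      have e2 : 1 ≤ ind (eb A O N (ev φ i) (ev φ j)) + ind (qb A O Ev Eo (ev φ i) (ev φ j)) := by
        rcases hb with hb | hb
        · have : ind (eb A O N (ev φ i) (ev φ j)) = 1 := if_pos hb
          rw [this]
          linarith [ind_nonneg (qb A O Ev Eo (ev φ i) (ev φ j))]
        · have : ind (qb A O Ev Eo (ev φ i) (ev φ j)) = 1 := if_pos hb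
          rw [this]
          linarith [ind_nonneg (eb A O N (ev φ i) (ev φ j))]
      calc hl (wt A O F) par n φ * ind ((ev φ 0).isLeft = true)
          ≤ hl (wt A O F) par n φ *
            (ind (eb A O N (ev φ i) (ev φ j)) + ind (qb A O Ev Eo (ev φ i) (ev φ j))) := by
            rw [e1]
            exact mul_le_mul_of_nonneg_left e2 (h1 φ)
        _ ≤ ∑ i ∈ (range (n + 1)).filter (fun i => i < j ∧ i ≠ par j),
            hl (wt A O F) par n φ *
              (ind (eb A O N (ev φ i) (ev φ j)) + ind (qb A O Ev Eo (ev φ i) (ev φ j))) :=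
            single_le_sum (f := fun i => hl (wt A O F) par n φ *
              (ind (eb A O N (ev φ i) (ev φ j)) + ind (qb A O Ev Eo (ev φ i) (ev φ j))))
              (fun i _ => hnn j i) (by simp only [mem_filter, mem_range]; omega)
        _ ≤ _ :=
            single_le_sum (f := fun j => ∑ i ∈ (range (n + 1)).filter (fun i => i < j ∧ i ≠ par j),
              hl (wt A O F) par n φ *
              (ind (eb A O N (ev φ i) (ev φ j)) + ind (qb A O Ev Eo (ev φ i) (ev φ j))))
              (fun j _ => sum_nonneg fun i _ => hnn j i) (by simp only [mem_range]; omega)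
    · have e1 : ind ((ev φ 0).isLeft = true) = 0 := if_neg hr
      rw [e1, mul_zero]
      exact hR
  have hT0 : 0 ≤ T := by
    have : 0 ≤ K := hK.le
    positivity
  have hfin : (1 : ℝ) / 2 ≤ M * T := by
    calc (1 : ℝ) / 2 = ∑ φ : Fin (n + 1) → ↥A ⊕ ↥O, hl (wt A O F) par n φ *
          ind ((ev φ 0).isLeft = true) := hroot.symm
      _ ≤ ∑ φ : Fin (n + 1) → ↥A ⊕ ↥O, ∑ j ∈ range (n + 1),
            ∑ i ∈ (range (n + 1)).filter (fun i => i < j ∧ i ≠ par j),
            hl (wt A O F) par n φ *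
              (ind (eb A O N (ev φ i) (ev φ j)) + ind (qb A O Ev Eo (ev φ i) (ev φ j))) :=
          sum_le_sum fun φ _ => hbad φ
      _ = ∑ j ∈ range (n + 1), ∑ i ∈ (range (n + 1)).filter (fun i => i < j ∧ i ≠ par j),
            ∑ φ : Fin (n + 1) → ↥A ⊕ ↥O, hl (wt A O F) par n φ *
              (ind (eb A O N (ev φ i) (ev φ j)) + ind (qb A O Ev Eo (ev φ i) (ev φ j))) := by
          rw [sum_comm]
          refine sum_congr rfl fun j _ => ?_
          rw [sum_comm]
      _ ≤ ∑ j ∈ range (n + 1), ∑ i ∈ range (n + 1), T := by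
          refine sum_le_sum fun j hj => ?_
          refine (sum_le_sum (g := fun _ => T) fun i hi => ?_).trans
            (sum_le_sum_of_subset_of_nonneg (filter_subset _ _) fun _ _ _ => hT0)
          rw [mem_filter] at hi
          exact hpair j (Nat.lt_succ_iff.1 (mem_range.1 hj)) i hi.2.1 hi.2.2
      _ = M * T := by
          simp only [sum_const, card_range, nsmul_eq_mul]
          push_cast
          rw [hM]
          ring
  have hMT : M * T = 1 / 4 := by
    have e1 : M * (C * (1 / 2 * (1 / l * K))) = 1 / 8 := by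
      rw [hl0]
      field_simp
      norm_num
    have e2 : M * ((C + C ^ 2 * l / 2) * ε) = 1 / 8 := by
      rw [hε]
      have : C + C ^ 2 * l / 2 ≠ 0 := by positivity
      field_simp
    calc M * T = M * (C * (1 / 2 * (1 / l * K))) + M * ((C + C ^ 2 * l / 2) * ε) := by
          rw [hT]; ring
      _ = 1 / 4 := by rw [e1, e2]; norm_num
  rw [hMT] at hfin
  norm_num at hfin

end Pool.Agent.Lib.TCH
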