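import Pool.Agent.Lib.TCH.Stmts

/-!
# Self-linked incidences have partitions of the labels
-/

set_option autoImplicit false

namespace Pool.Agent.Lib.TCH

open Finset Classical

section

variable {V Ω : Type} (A : Finset V) (O : Finset Ω) (E : V → Ω → Prop) (r : V → ℝ) (w : Ω → ℝ)

/-- the weight of the common labels of `x` and `y` -/
noncomputable def ptW (x y : V) : ℝ := ∑ o ∈ O with E x o ∧ E y o, w o

variable {A O E r w}

theorem ptW_comm (x y : V) : ptW O E w x y = ptW O E w y x := by
  unfold ptW
  congr 1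
  ext o
  simp only [mem_filter]
  tauto

theorem ptW_nonneg (hw : ∀ o, 0 ≤ w o) (x y : V) : 0 ≤ ptW O E w x y :=
  sum_nonneg fun o _ => hw o

theorem ptW_le (hw : ∀ o, 0 ≤ w o) {K : ℝ} (h1 : ∀ x ∈ A, ∑ o ∈ O with E x o, w o ≤ K)
    (x y : V) (hx : x ∈ A) : ptW O E w x y ≤ K := by
  refine le_trans (sum_le_sum_of_subset_of_nonneg ?_ fun o _ _ => hw o) (h1 x hx)
  intro o ho
  simp only [mem_filter] at ho ⊢
  exact ⟨ho.1, ho.2.1⟩

/-- the nodes linked to `x` have positive weight at every label of `x` -/
theorem pt_one (hr : ∀ x, 0 ≤ r x) (hw : ∀ o, 0 ≤ w o) {K ε : ℝ} (hK : 0 < K) (hε : 0 < ε)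
    (h1 : ∀ x ∈ A, ∑ o ∈ O with E x o, w o ≤ K) (h2 : ∀ o ∈ O, ∑ x ∈ A with E x o, r x ≤ K)
    (h3 : ∀ x ∈ A, ∀ o ∈ O, E x o → ε ≤ kap A O E r w x o) {x : V} (hx : x ∈ A) {o : Ω}
    (ho : o ∈ O) (hxo : E x o) :
    ε / (2 * K) ≤ ∑ z ∈ A with E z o ∧ ε / (2 * K) ≤ ptW O E w x z, r z := by
  have h := h3 x hx o ho hxo
  have hk : kap A O E r w x o = ∑ z ∈ A with E z o, r z * ptW O E w x z := rfl
  rw [hk] at h
  have hsplit : ∑ z ∈ A with E z o, r z * ptW O E w x z ≤
      ∑ z ∈ A with E z o, (r z * (ε / (2 * K)) +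
        (if ε / (2 * K) ≤ ptW O E w x z then r z * K else 0)) := by
    refine sum_le_sum fun z _ => ?_
    by_cases hz : ε / (2 * K) ≤ ptW O E w x z
    · rw [if_pos hz]
      have a1 : r z * ptW O E w x z ≤ r z * K :=
        mul_le_mul_of_nonneg_left (ptW_le hw h1 x z hx) (hr z)
      have a2 : 0 ≤ r z * (ε / (2 * K)) := mul_nonneg (hr z) (by positivity)
      linarith
    · rw [if_neg hz]
      have a1 : r z * ptW O E w x z ≤ r z * (ε / (2 * K)) :=
        mul_le_mul_of_nonneg_left (not_le.mp hz).le (hr z)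
      linarith
  rw [sum_add_distrib, ← sum_mul] at hsplit
  have hb : (∑ z ∈ A with E z o, r z) * (ε / (2 * K)) ≤ ε / 2 := by
    have := mul_le_mul_of_nonneg_right (h2 o ho) (show 0 ≤ ε / (2 * K) by positivity)
    have e : K * (ε / (2 * K)) = ε / 2 := by field_simp
    linarith
  have hc : ∑ z ∈ A with E z o, (if ε / (2 * K) ≤ ptW O E w x z then r z * K else 0) =
      (∑ z ∈ A with E z o ∧ ε / (2 * K) ≤ ptW O E w x z, r z) * K := by
    rw [sum_mul, ← sum_filter, filter_filter]
  rw [hc] at hsplit
  rw [div_le_iff₀ (by positivity)]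
  have : ε / 2 ≤ (∑ z ∈ A with E z o ∧ ε / (2 * K) ≤ ptW O E w x z, r z) * K := by linarith
  linarith

/-- a node is linked to a bounded number of nodes which are pairwise almost unlinked -/
theorem pt_two (hw : ∀ o, 0 ≤ w o) {K e e' : ℝ} (hK : 0 < K) (he : 0 < e) (he' : 0 ≤ e')
    (hee : 8 * K * e' ≤ e ^ 2) {R : Finset V}
    (hR : ∀ l ∈ R, ∀ l' ∈ R, l ≠ l' → ptW O E w l l' ≤ e')
    {z : V} (hz : ∑ o ∈ O with E z o, w o ≤ K) :
    ((R.filter fun l => e ≤ ptW O E w l z).card : ℝ) ≤ 2 * K / e := by
  set L := R.filter fun l => e ≤ ptW O E w l z with hL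
  set m : ℝ := (L.card : ℝ) with hm
  set S : ℝ := ∑ l ∈ L, ptW O E w z l with hS
  have hSm : m * e ≤ S := by
    rw [hm, hS, ← nsmul_eq_mul, ← sum_const]
    refine sum_le_sum fun l hl => ?_
    rw [ptW_comm]
    exact (mem_filter.mp hl).2
  -- the number of `l` with `E l o`
  let n : Ω → ℝ := fun o => ∑ l ∈ L, if E l o then 1 else 0
  have hS2 : S = ∑ o ∈ O with E z o, w o * n o := by
    rw [hS]
    have : ∀ l ∈ L, ptW O E w z l = ∑ o ∈ O with E z o, w o * (if E l o then 1 else 0) := by
      intro l _
      unfold ptW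
      rw [← filter_filter, sum_filter]
      refine sum_congr rfl fun o _ => ?_
      by_cases h : E l o <;> simp [h]
    rw [sum_congr rfl this, sum_comm]
    refine sum_congr rfl fun o _ => ?_
    rw [← mul_sum]
  have hcs : S ^ 2 ≤ K * ∑ o ∈ O with E z o, w o * n o ^ 2 := by
    have h := sum_mul_sq_le_sq_mul_sq (O.filter fun o => E z o) (fun o => Real.sqrt (w o))
      (fun o => Real.sqrt (w o) * n o)
    have e1 : ∑ o ∈ O with E z o, Real.sqrt (w o) * (Real.sqrt (w o) * n o) = S := by
      rw [hS2]
      refine sum_congr rfl fun o _ => ?_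
      rw [← mul_assoc, Real.mul_self_sqrt (hw o)]
    have e2 : ∑ o ∈ O with E z o, Real.sqrt (w o) ^ 2 = ∑ o ∈ O with E z o, w o :=
      sum_congr rfl fun o _ => Real.sq_sqrt (hw o)
    have e3 : ∑ o ∈ O with E z o, (Real.sqrt (w o) * n o) ^ 2 =
        ∑ o ∈ O with E z o, w o * n o ^ 2 := by
      refine sum_congr rfl fun o _ => ?_
      rw [mul_pow, Real.sq_sqrt (hw o)]
    rw [e1, e2, e3] at h
    refine h.trans (mul_le_mul_of_nonneg_right hz ?_)
    exact sum_nonneg fun o _ => mul_nonneg (hw o) (sq_nonneg _)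
  have hn2 : ∑ o ∈ O with E z o, w o * n o ^ 2 ≤ S + m ^ 2 * e' := by
    have e1 : ∑ o ∈ O with E z o, w o * n o ^ 2 =
        ∑ l ∈ L, ∑ l' ∈ L, ∑ o ∈ O with E z o, if E l o ∧ E l' o then w o else 0 := by
      have : ∀ o ∈ O.filter fun o => E z o, w o * n o ^ 2 =
          ∑ l ∈ L, ∑ l' ∈ L, if E l o ∧ E l' o then w o else 0 := by
        intro o _
        simp only [n]
        rw [pow_two, sum_mul_sum, mul_sum]
        refine sum_congr rfl fun l _ => ?_
        rw [mul_sum]
        refine sum_congr rfl fun l' _ => ?_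
        by_cases h : E l o <;> by_cases h' : E l' o <;> simp [h, h']
      rw [sum_congr rfl this, sum_comm]
      refine sum_congr rfl fun l _ => ?_
      rw [sum_comm]
    rw [e1]
    have e2 : ∀ l ∈ L, ∑ l' ∈ L, (∑ o ∈ O with E z o, if E l o ∧ E l' o then w o else 0) ≤
        ptW O E w z l + m * e' := by
      intro l hl
      have hlR := (mem_filter.mp hl).1
      have e3 : ∀ l' ∈ L, (∑ o ∈ O with E z o, if E l o ∧ E l' o then w o else 0) ≤
          (if l' = l then ptW O E w z l else 0) + e' := by
        intro l' hl'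
        have hl'R := (mem_filter.mp hl').1
        by_cases h : l' = l
        · rw [if_pos h]
          subst h
          have : (∑ o ∈ O with E z o, if E l' o ∧ E l' o then w o else 0) =
              ptW O E w z l' := by
            unfold ptW
            rw [← filter_filter, sum_filter (fun o => E l' o)]
            exact sum_congr rfl fun o _ => by simp
          rw [this]
          linarith
        · rw [if_neg h, zero_add]
          refine le_trans ?_ (hR l hlR l' hl'R (Ne.symm h))
          unfold ptW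
          rw [← sum_filter, filter_filter]
          refine sum_le_sum_of_subset_of_nonneg ?_ fun o _ _ => hw o
          intro o ho
          simp only [mem_filter] at ho ⊢
          exact ⟨ho.1, ho.2.2⟩
      refine (sum_le_sum e3).trans ?_
      rw [sum_add_distrib, sum_ite_eq' L l, if_pos hl, sum_const, nsmul_eq_mul]
    refine (sum_le_sum e2).trans ?_
    rw [sum_add_distrib, sum_const, nsmul_eq_mul]
    have : (L.card : ℝ) * (m * e') = m ^ 2 * e' := by rw [← hm]; ring
    rw [this]
  have hm0 : 0 ≤ m := Nat.cast_nonneg _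
  have hS0 : 0 ≤ S := sum_nonneg fun l _ => ptW_nonneg hw z l
  have h1 : S ^ 2 ≤ K * S + K * (m ^ 2 * e') := by
    have := mul_le_mul_of_nonneg_left hn2 hK.le
    linarith
  have h2 : K * (m ^ 2 * e') ≤ S ^ 2 / 8 := by
    have a1 : (m * e) ^ 2 ≤ S ^ 2 := pow_le_pow_left₀ (by positivity) hSm 2
    have a2 : m ^ 2 * (8 * K * e') ≤ m ^ 2 * e ^ 2 :=
      mul_le_mul_of_nonneg_left hee (sq_nonneg m)
    nlinarith
  rw [le_div_iff₀ he]
  refine hSm.trans ?_
  by_contra hcon
  have hlt : 2 * K < S := not_le.mp hcon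
  nlinarith

end

theorem stPt : StPt := by
  intro K ε hK hε
  set e2 : ℝ := ε / (2 * K) with he2
  have he2p : 0 < e2 := by positivity
  set e3 : ℝ := min (e2 ^ 2 / (8 * K)) (ε / K) with he3
  have he3p : 0 < e3 := by positivity
  have he3a : 8 * K * e3 ≤ e2 ^ 2 := by
    have : e3 ≤ e2 ^ 2 / (8 * K) := min_le_left _ _
    rw [le_div_iff₀ (by positivity)] at this
    linarith
  have he3b : e3 * K ≤ ε := by
    have : e3 ≤ ε / K := min_le_right _ _
    rwa [le_div_iff₀ hK] at this
  set B : ℕ := ⌈2 * K / e2 * K / e2⌉₊ + 1 with hB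
  have hB1 : (0 : ℝ) < B := by rw [hB]; positivity
  refine ⟨B, e3 / B, by positivity, ?_⟩
  intro V Ω A O E r w hr hw h1 h2 h3
  -- the base set and a maximal almost unlinked subset
  let X : Finset V := A.filter fun x => ∃ o ∈ O, E x o
  let P : Finset (Finset V) := X.powerset.filter fun R =>
    ∀ l ∈ R, ∀ l' ∈ R, l ≠ l' → ptW O E w l l' ≤ e3
  obtain ⟨R, hRP, hmax⟩ := exists_max_image P card ⟨∅, by simp [P]⟩
  have hRX : R ⊆ X := mem_powerset.mp (mem_filter.mp hRP).1
  have hRR := (mem_filter.mp hRP).2
  have hRA : ∀ l ∈ R, l ∈ A := fun l hl => (mem_filter.mp (hRX hl)).1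
  -- every node sees one of them
  have hsee : ∀ x ∈ A, (∃ o ∈ O, E x o) → ∃ l ∈ R, e3 ≤ ptW O E w x l := by
    intro x hx hxo
    by_cases hxR : x ∈ R
    · refine ⟨x, hxR, ?_⟩
      obtain ⟨o, ho, hxo⟩ := hxo
      have h := h3 x hx o ho hxo
      have hk : kap A O E r w x o = ∑ z ∈ A with E z o, r z * ptW O E w x z := rfl
      rw [hk] at h
      have h4 : ∑ z ∈ A with E z o, r z * ptW O E w x z ≤ K * ptW O E w x x := by
        calc ∑ z ∈ A with E z o, r z * ptW O E w x z
            ≤ ∑ z ∈ A with E z o, r z * ptW O E w x x := by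
              refine sum_le_sum fun z _ => mul_le_mul_of_nonneg_left ?_ (hr z)
              refine sum_le_sum_of_subset_of_nonneg ?_ fun o _ _ => hw o
              intro o ho
              simp only [mem_filter] at ho ⊢
              exact ⟨ho.1, ho.2.1, ho.2.1⟩
          _ = (∑ z ∈ A with E z o, r z) * ptW O E w x x := by rw [sum_mul]
          _ ≤ K * ptW O E w x x :=
              mul_le_mul_of_nonneg_right (h2 o ho) (ptW_nonneg hw x x)
      have h5 : e3 * K ≤ ptW O E w x x * K := by linarith
      exact le_of_mul_le_mul_right h5 hK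
    · by_contra hcon
      push Not at hcon
      have hin : insert x R ∈ P := by
        refine mem_filter.mpr ⟨mem_powerset.mpr ?_, ?_⟩
        · intro y hy
          rcases mem_insert.mp hy with rfl | hy
          · exact mem_filter.mpr ⟨hx, hxo⟩
          · exact hRX hy
        · intro l hl l' hl' hne
          rcases mem_insert.mp hl with e1 | g1
          · rcases mem_insert.mp hl' with e2 | g2
            · exact absurd (e1.trans e2.symm) hne
            · rw [e1]
              exact (hcon l' g2).le
          · rcases mem_insert.mp hl' with e2 | g2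
            · rw [ptW_comm, e2]
              exact (hcon l g1).le
            · exact hRR l g1 l' g2 hne
      have := hmax _ hin
      rw [card_insert_of_notMem hxR] at this
      omega
  -- every label has a bounded number of them
  have hbd : ∀ o ∈ O, (R.filter fun l => E l o).card ≤ B := by
    intro o ho
    have h4 : ((R.filter fun l => E l o).card : ℝ) * e2 ≤ 2 * K / e2 * K := by
      calc ((R.filter fun l => E l o).card : ℝ) * e2
          = ∑ l ∈ R.filter fun l => E l o, e2 := by rw [sum_const, nsmul_eq_mul]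
        _ ≤ ∑ l ∈ R.filter fun l => E l o, ∑ z ∈ A with E z o ∧ e2 ≤ ptW O E w l z, r z := by
            refine sum_le_sum fun l hl => ?_
            have hl' := mem_filter.mp hl
            exact pt_one hr hw hK hε h1 h2 h3 (hRA l hl'.1) ho hl'.2
        _ = ∑ l ∈ R.filter fun l => E l o, ∑ z ∈ A with E z o,
              (if e2 ≤ ptW O E w l z then r z else 0) := by
            refine sum_congr rfl fun l _ => ?_
            rw [← sum_filter, filter_filter]
        _ = ∑ z ∈ A with E z o, ∑ l ∈ R.filter fun l => E l o,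
              (if e2 ≤ ptW O E w l z then r z else 0) := sum_comm
        _ ≤ ∑ z ∈ A with E z o, 2 * K / e2 * r z := by
            refine sum_le_sum fun z hz => ?_
            rw [← sum_filter, sum_const, nsmul_eq_mul]
            refine mul_le_mul_of_nonneg_right ?_ (hr z)
            refine le_trans ?_ (pt_two hw hK he2p he3p.le he3a hRR
              (h1 z (mem_filter.mp hz).1))
            exact_mod_cast card_le_card (by
              intro l hl
              simp only [mem_filter] at hl ⊢
              exact ⟨hl.1.1, hl.2⟩)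
        _ = 2 * K / e2 * ∑ z ∈ A with E z o, r z := by rw [mul_sum]
        _ ≤ 2 * K / e2 * K := mul_le_mul_of_nonneg_left (h2 o ho) (by positivity)
    have h5 : ((R.filter fun l => E l o).card : ℝ) ≤ 2 * K / e2 * K / e2 := by
      rwa [le_div_iff₀ he2p]
    have h6 : ((R.filter fun l => E l o).card : ℝ) ≤ (B : ℝ) := by
      rw [hB]
      push_cast
      have := Nat.le_ceil (2 * K / e2 * K / e2)
      linarith
    exact_mod_cast h6
  -- the classes
  let Ro : Ω → Finset V := fun o => R.filter fun l => E l o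
  let cl : Fin B → Ω → Option V := fun i o =>
    if h : (i : ℕ) < (Ro o).card then some ((Ro o).equivFin.symm ⟨i, h⟩ : Ro o).1 else none
  refine ⟨cl, ?_, ?_⟩
  · intro i o _ l hl
    simp only [cl] at hl
    split_ifs at hl with h
    have hmem := ((Ro o).equivFin.symm ⟨i, h⟩).2
    rw [Option.some.inj hl] at hmem
    have := mem_filter.mp hmem
    exact ⟨hRA l this.1, this.2⟩
  · intro x hx hxo
    obtain ⟨l, hl, hxl⟩ := hsee x hx hxo
    by_contra hcon
    push Not at hcon
    have hlt : ∑ i : Fin B, ∑ o ∈ O with E x o ∧ cl i o = some l, w o < e3 := by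
      have hne : (univ : Finset (Fin B)).Nonempty := by
        refine ⟨⟨0, by rw [hB]; omega⟩, mem_univ _⟩
      calc ∑ i : Fin B, ∑ o ∈ O with E x o ∧ cl i o = some l, w o
          < ∑ _i : Fin B, e3 / B := sum_lt_sum_of_nonempty hne fun i _ => hcon i l
        _ = e3 := by
            rw [sum_const, card_univ, Fintype.card_fin, nsmul_eq_mul]
            field_simp
    have hge : ptW O E w x l ≤ ∑ i : Fin B, ∑ o ∈ O with E x o ∧ cl i o = some l, w o := by
      have e1 : ∀ i : Fin B, ∑ o ∈ O with E x o ∧ cl i o = some l, w o =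
          ∑ o ∈ O, if E x o ∧ cl i o = some l then w o else 0 := fun i => sum_filter _ _
      rw [sum_congr rfl fun i _ => e1 i, sum_comm]
      unfold ptW
      rw [sum_filter]
      refine sum_le_sum fun o ho => ?_
      by_cases h : E x o ∧ E l o
      · rw [if_pos h]
        have hlo : l ∈ Ro o := mem_filter.mpr ⟨hl, h.2⟩
        let j := (Ro o).equivFin ⟨l, hlo⟩
        have hjB : (j : ℕ) < B := lt_of_lt_of_le j.2 (hbd o ho)
        have hcl : cl ⟨j, hjB⟩ o = some l := by
          simp only [cl]
          rw [dif_pos j.2]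
          have : (Ro o).equivFin.symm ⟨(j : ℕ), j.2⟩ = ⟨l, hlo⟩ := by
            rw [Equiv.symm_apply_eq]
          rw [this]
        refine le_trans ?_ (single_le_sum (f := fun i : Fin B =>
          if E x o ∧ cl i o = some l then w o else 0) (fun i _ => ?_)
          (mem_univ (⟨j, hjB⟩ : Fin B)))
        · rw [if_pos ⟨h.1, hcl⟩]
        · split_ifs
          · exact hw o
          · exact le_rfl
      · rw [if_neg h]
        refine sum_nonneg fun i _ => ?_
        split_ifs
        · exact hw o
        · exact le_rfl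
    linarith

end Pool.Agent.Lib.TCH
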