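import Pool.Agent.Lib.TCH.Stmts
import Pool.Agent.Lib.GIT.Hau

/-!
# A bounded number of traces up to small symmetric differences
-/

set_option autoImplicit false

namespace Pool.Agent.Lib.TCH

open Finset Classical

namespace TrAux

/-- the trace of `x` on `T` -/
noncomputable def tra {X V : Type} (R : X → V → Prop) (T : Finset V) (x : X) : Finset V :=
  T.filter fun v => R x v

lemma mem_tra {X V : Type} {R : X → V → Prop} {T : Finset V} {x : X} {v : V} :
    v ∈ tra R T x ↔ v ∈ T ∧ R x v := by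
  simp [tra]

/-- the points which distinguish `x` and `x'` -/
noncomputable def sd {X V : Type} [Fintype V] (R : X → V → Prop) (x x' : X) : Finset V :=
  Finset.univ.filter fun v => ¬ (R x v ↔ R x' v)

lemma mem_sd {X V : Type} [Fintype V] {R : X → V → Prop} {x x' : X} {v : V} :
    v ∈ sd R x x' ↔ ¬ (R x v ↔ R x' v) := by
  simp [sd]

/-- The number of traces. -/
lemma traces {X V : Type} {A : Finset X} {R : X → V → Prop} {D : ℕ}
    (hR : ∀ U : Finset V, D ≤ U.card → ∃ T, T ⊆ U ∧ ∀ x ∈ A, tra R U x ≠ T) (T : Finset V) :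
    (A.image (tra R T)).card ≤ (T.card + 1) ^ D := by
  refine (GIT.HauAux.sauer _ T ?_ D ?_).trans (GIT.HauAux.sum_choose_le _ _)
  · intro B hB
    obtain ⟨x, _, rfl⟩ := Finset.mem_image.mp hB
    exact Finset.filter_subset _ _
  · intro T' hT'
    by_contra hcon
    push Not at hcon
    obtain ⟨Z, hZ, hne⟩ := hR T' hcon
    obtain ⟨B, hB, hTB⟩ := hT'.exists_superset
    obtain ⟨x0, _, rfl⟩ := Finset.mem_image.mp hB
    have hTT : T' ⊆ T := hTB.trans (Finset.filter_subset _ _)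
    obtain ⟨B, hB, hTB⟩ := hT' hZ
    obtain ⟨x, hx, rfl⟩ := Finset.mem_image.mp hB
    refine hne x hx ?_
    rw [← hTB]
    ext u
    rw [mem_tra, Finset.mem_inter, mem_tra]
    exact ⟨fun h => ⟨h.1, hTT h.1, h.2⟩, fun h => ⟨h.1, h.2.2⟩⟩

/-- Symmetric differences shatter only small sets. -/
lemma sd_shatter {X V : Type} [Fintype V] {A : Finset X} {R : X → V → Prop} {D m : ℕ}
    (hR : ∀ U : Finset V, D ≤ U.card → ∃ T, T ⊆ U ∧ ∀ x ∈ A, tra R U x ≠ T)
    (hm : 1 * (m + 1) ^ (2 * D) < 2 ^ m) (T : Finset V) (hT : m ≤ T.card) :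
    ¬ ((A ×ˢ A).image (fun p => sd R p.1 p.2)).Shatters T := by
  intro hsh
  obtain ⟨T0, hT0, hcard⟩ := Finset.exists_subset_card_eq hT
  set tr : Finset (Finset V) := A.image (tra R T0) with htr
  have h1 : tr.card ≤ (m + 1) ^ D := by
    have := traces hR T0
    rwa [hcard] at this
  have h2 : T0.powerset ⊆ (tr ×ˢ tr).image (fun p => symmDiff p.1 p.2) := by
    intro Z hZ
    have hZ0 : Z ⊆ T0 := Finset.mem_powerset.mp hZ
    obtain ⟨B, hB, hTB⟩ := hsh (hZ0.trans hT0)
    obtain ⟨⟨x, x'⟩, hxx, rfl⟩ := Finset.mem_image.mp hB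
    obtain ⟨hx, hx'⟩ := Finset.mem_product.mp hxx
    refine Finset.mem_image.mpr ⟨(tra R T0 x, tra R T0 x'), ?_, ?_⟩
    · exact Finset.mem_product.mpr ⟨Finset.mem_image.mpr ⟨x, hx, rfl⟩,
        Finset.mem_image.mpr ⟨x', hx', rfl⟩⟩
    · ext u
      have hu : u ∈ Z ↔ u ∈ T ∧ u ∈ sd R x x' := by
        rw [← hTB]
        exact Finset.mem_inter
      rw [mem_sd] at hu
      simp only [Finset.mem_symmDiff, mem_tra]
      constructor
      · rintro (⟨⟨h3, h4⟩, h5⟩ | ⟨⟨h3, h4⟩, h5⟩)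
        · refine hu.mpr ⟨hT0 h3, fun h6 => h5 ⟨h3, h6.mp h4⟩⟩
        · refine hu.mpr ⟨hT0 h3, fun h6 => h5 ⟨h3, h6.mpr h4⟩⟩
      · intro h3
        have h4 := hZ0 h3
        have h5 := (hu.mp h3).2
        by_cases h6 : R x u
        · left
          refine ⟨⟨h4, h6⟩, fun h7 => h5 ⟨fun _ => h7.2, fun _ => h6⟩⟩
        · right
          have h7 : R x' u := by
            by_contra h8
            exact h5 ⟨fun h => absurd h h6, fun h => absurd h h8⟩
          exact ⟨⟨h4, h7⟩, fun h8 => h6 h8.2⟩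
  have h3 := (Finset.card_le_card h2).trans Finset.card_image_le
  rw [Finset.card_powerset, hcard, Finset.card_product] at h3
  have h4 : tr.card * tr.card ≤ (m + 1) ^ D * (m + 1) ^ D := Nat.mul_le_mul h1 h1
  have h5 : (m + 1) ^ (2 * D) = (m + 1) ^ D * (m + 1) ^ D := by
    rw [two_mul, pow_add]
  rw [one_mul, h5] at hm
  omega

end TrAux

open Pool.Agent.Lib.TCH.TrAux in
/-- Module `Tr`. -/
theorem stTr : StTr := by
  intro D e K he hK
  obtain ⟨m, hm⟩ := GIT.HauAux.exists_m 1 (2 * D)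
  obtain ⟨t, ht⟩ := GIT.HauAux.netFam m (e / K) (by positivity)
  refine ⟨2 ^ t, ?_⟩
  intro X Ω A O R w hw hwK hR
  -- the system on the subtype
  let V : Type := {o // o ∈ O}
  let R' : X → V → Prop := fun x o => R x o.1
  have hR' : ∀ U : Finset V, D ≤ U.card → ∃ T, T ⊆ U ∧ ∀ x ∈ A, tra R' U x ≠ T := by
    intro U hU
    obtain ⟨T, hTU, hT⟩ := hR (U.image Subtype.val) (by
      intro o ho
      obtain ⟨o', _, rfl⟩ := Finset.mem_image.mp ho
      exact o'.2) (by
      rw [Finset.card_image_of_injective _ Subtype.val_injective]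
      exact hU)
    refine ⟨U.filter fun o => o.1 ∈ T, Finset.filter_subset _ _, ?_⟩
    intro x hx hxT
    refine hT x hx ?_
    ext o
    simp only [Finset.mem_filter, Finset.mem_image]
    constructor
    · rintro ⟨⟨o', ho', rfl⟩, h2⟩
      have h3 : o' ∈ tra R' U x := mem_tra.mpr ⟨ho', h2⟩
      rw [hxT] at h3
      exact (Finset.mem_filter.mp h3).2
    · intro h2
      obtain ⟨o', ho', rfl⟩ := Finset.mem_image.mp (hTU h2)
      refine ⟨⟨o', ho', rfl⟩, ?_⟩
      have h3 : o' ∈ U.filter fun o : V => o.1 ∈ T := Finset.mem_filter.mpr ⟨ho', h2⟩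
      rw [← hxT] at h3
      exact (mem_tra.mp h3).2
  obtain ⟨Q, hQt, hQ⟩ := ht V ((A ×ˢ A).image (fun p => sd R' p.1 p.2)) (fun o => w o.1 / K)
    (fun o => div_nonneg (hw _) hK.le) (by
      rw [← Finset.sum_div, div_le_one hK, Finset.sum_coe_sort O w]
      exact hwK) (fun T hT hsh => sd_shatter hR' hm T hT fun Z hZ => by
      obtain ⟨u, hu, hZu⟩ := hsh hZ
      have hu' : ∃ p ∈ A ×ˢ A, sd R' p.1 p.2 = u := by
        simpa only [Finset.mem_image] using hu
      obtain ⟨p, hp, hpu⟩ := hu'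
      refine ⟨u, ?_, ?_⟩
      · simp only [Finset.mem_image]
        exact ⟨p, hp, hpu⟩
      · have h3 : ∀ v, v ∈ Z ↔ v ∈ T ∧ v ∈ u := by
          intro v
          rw [← hZu]
          simp only [Finset.mem_inter]
        ext v
        simp only [Finset.mem_inter]
        exact (h3 v).symm)
  have hcard : Q.powerset.card ≤ 2 ^ t := by
    rw [Finset.card_powerset]
    exact Nat.pow_le_pow_right (by norm_num) hQt
  refine ⟨fun x => Fin.castLE hcard (Q.powerset.equivFin ⟨tra R' Q x,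
    Finset.mem_powerset.mpr (Finset.filter_subset _ _)⟩), ?_⟩
  intro x hx x' hx' hf
  have h1 : tra R' Q x = tra R' Q x' := by
    have h2 := (Fin.castLE_injective hcard) hf
    have h3 := Q.powerset.equivFin.injective h2
    exact congrArg Subtype.val h3
  refine le_of_not_gt fun hlt => ?_
  have h4 : ∑ v ∈ sd R' x x', w v.1 = ∑ o ∈ O with ¬ (R x o ↔ R x' o), w o := by
    rw [sd, Finset.sum_filter, Finset.sum_filter]
    exact Finset.sum_coe_sort O fun o => if ¬ (R x o ↔ R x' o) then w o else 0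
  obtain ⟨q, hq, hqs⟩ := hQ (sd R' x x')
    (Finset.mem_image.mpr ⟨(x, x'), Finset.mem_product.mpr ⟨hx, hx'⟩, rfl⟩) (by
      rw [← Finset.sum_div, h4]
      exact div_le_div_of_nonneg_right hlt.le hK.le)
  rw [mem_sd] at hqs
  refine hqs ⟨fun h => ?_, fun h => ?_⟩
  · have h5 : q ∈ tra R' Q x := mem_tra.mpr ⟨hq, h⟩
    rw [h1] at h5
    exact (mem_tra.mp h5).2
  · have h5 : q ∈ tra R' Q x' := mem_tra.mpr ⟨hq, h⟩
    rw [← h1] at h5
    exact (mem_tra.mp h5).2

end Pool.Agent.Lib.TCH
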