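import Pool.Agent.Lib.TCH.Bas
import Pool.Agent.Lib.TCH.Pt
import Pool.Agent.Lib.TCH.Tr
import Pool.Agent.Lib.TCH.Dg

/-!
# From self-linked incidences to levels

The interface between the equilibrium part and the chain theorem.
-/

set_option autoImplicit false

namespace Pool.Agent.Lib.TCH

open Finset Classical

/-- The data of one stage: `E` is the own incidence between the nodes in `As` (with weights `r`)
and the labels in `O` (with weights `w`), `hub o` is the vertex of the label `o`, `Nr t o`: the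
label `o` is near `t`.  `A` is the set of the nodes in use. -/
structure Stg {V Ω : Type} (G : SimpleGraph V) (K ε : ℝ) (A As : Finset V) (O : Finset Ω)
    (hub : Ω → V) (E Nr : V → Ω → Prop) (r : V → ℝ) (w : Ω → ℝ) : Prop where
  sub : A ⊆ As
  r0 : ∀ x, 0 ≤ r x
  w0 : ∀ o, 0 ≤ w o
  wE : ∀ x ∈ As, ∑ o ∈ O with E x o, w o ≤ K
  rE : ∀ o ∈ O, ∑ x ∈ As with E x o, r x ≤ K
  kp : ∀ x ∈ As, ∀ o ∈ O, E x o → ε ≤ kap As O E r w x o
  ne : ∀ x ∈ A, ∃ o ∈ O, E x o
  adj : ∀ x ∈ As, ∀ o ∈ O, E x o → G.Adj x (hub o)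
  nr : ∀ t ∈ A, ∑ o ∈ O with Nr t o, w o ≤ K

/-- All own labels of the nodes which share an own label with `x` are near `t` if their vertex is
a neighbour of `t`. -/
def Conf {V Ω : Type} (G : SimpleGraph V) (As : Finset V) (O : Finset Ω) (hub : Ω → V)
    (E Nr : V → Ω → Prop) (x t : V) : Prop :=
  ∀ l ∈ As, (∃ o ∈ O, E x o ∧ E l o) → ∀ o ∈ O, E l o → G.Adj (hub o) t → Nr t o

/-- The levels given by self-linked incidences. -/
def StLvl : Prop :=
  ∀ (D0 R q : ℕ) (K ε : ℝ), 0 < K → 0 < ε → R + 1 ≤ q → ∃ (N : ℕ) (K' : ℝ),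
    ∀ (V Ω : Type) (G : SimpleGraph V) (m : ℕ) (W1 : Set V) (A : Finset V) (As : ℕ → Finset V)
      (O : ℕ → Finset Ω) (hub : ℕ → Ω → V) (E Nr : ℕ → V → Ω → Prop) (r : ℕ → V → ℝ)
      (w : ℕ → Ω → ℝ), GIT.VC G D0 → (∀ x ∈ A, x ∈ W1) →
      (∀ s < q, Stg G K ε A (As s) (O s) (hub s) (E s) (Nr s) (r s) (w s)) →
      (∀ s < q, ∀ o ∈ O s, hub s o ∈ W1) →
      (∀ x ∈ A, ∀ t ∈ A, ((range q).filter fun s =>
        ¬ Conf G (As s) (O s) (hub s) (E s) (Nr s) x t).card ≤ m) →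
      ∃ (f : V → Fin N) (D : Fin N → Lv V), ∀ i, (D i).q = q ∧ (D i).K = K' ∧
        (D i).dom = {x | x ∈ A ∧ f x = i} ∧ OK G m (fun _ _ => True) (R + 1) W1 (D i)

namespace Lvl_

/-! ### Push-forward -/

/-- The push-forward of the weights `g` on `S`. -/
noncomputable def pf {V Ω : Type} (S : Finset Ω) (hub : Ω → V) (g : Ω → ℝ) : V →₀ ℝ :=
  ∑ o ∈ S, Finsupp.single (hub o) (g o)

theorem ms_single {V : Type} (y : V) (a : ℝ) (Q : Set V) :
    ms (Finsupp.single y a) Q = if y ∈ Q then a else 0 := by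
  rw [ms_eq _ Q {y} Finsupp.support_single_subset]
  simp

theorem ms_pf {V Ω : Type} (S : Finset Ω) (hub : Ω → V) (g : Ω → ℝ) (Q : Set V) :
    ms (pf S hub g) Q = ∑ o ∈ S with hub o ∈ Q, g o := by
  unfold pf
  rw [ms_sum, Finset.sum_filter]
  exact Finset.sum_congr rfl fun o _ => ms_single _ _ _

theorem ms_pf_le {V Ω : Type} (S T : Finset Ω) (hub : Ω → V) (g : Ω → ℝ) (Q : Set V)
    (hg : ∀ o, 0 ≤ g o) (h : ∀ o ∈ S, hub o ∈ Q → o ∈ T) : ms (pf S hub g) Q ≤ ∑ o ∈ T, g o := by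
  rw [ms_pf]
  refine Finset.sum_le_sum_of_subset_of_nonneg ?_ fun o _ _ => hg o
  intro o ho
  rw [Finset.mem_filter] at ho
  exact h o ho.1 ho.2

theorem pf_apply {V Ω : Type} (S : Finset Ω) (hub : Ω → V) (g : Ω → ℝ) (y : V) :
    pf S hub g y = ∑ o ∈ S with hub o = y, g o := by
  unfold pf
  rw [Finsupp.finsetSum_apply, Finset.sum_filter]
  refine Finset.sum_congr rfl fun o _ => ?_
  rw [Finsupp.single_apply]

theorem pf_nn {V Ω : Type} (S : Finset Ω) (hub : Ω → V) (g : Ω → ℝ) (hg : ∀ o ∈ S, 0 ≤ g o)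
    (y : V) : 0 ≤ pf S hub g y := by
  rw [pf_apply]
  exact Finset.sum_nonneg fun o ho => hg o (Finset.mem_filter.1 ho).1

theorem pf_tot {V Ω : Type} (S : Finset Ω) (hub : Ω → V) (g : Ω → ℝ) :
    ∑ y ∈ (pf S hub g).support, pf S hub g y = ∑ o ∈ S, g o := by
  rw [← ms_univ, ms_pf]
  simp

/-! ### One stage -/

/-- The laws of one stage. -/
def StStg : Prop :=
  ∀ (D0 R : ℕ) (K ε : ℝ), 0 < K → 0 < ε → ∃ (B : ℕ) (K' : ℝ),
    ∀ (V Ω : Type) (G : SimpleGraph V) (A As : Finset V) (O : Finset Ω) (hub : Ω → V)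
      (E Nr : V → Ω → Prop) (r : V → ℝ) (w : Ω → ℝ), GIT.VC G D0 → A.Nonempty →
      Stg G K ε A As O hub E Nr r w →
      ∃ (i : V → Fin B) (P : V → V →₀ ℝ) (near : V → V → Prop),
        (∀ x ∈ A, ∀ y, 0 ≤ P x y) ∧ (∀ x ∈ A, ∑ y ∈ (P x).support, P x y = 1) ∧
        (∀ x ∈ A, ∀ y, P x y ≠ 0 → ∃ o ∈ O, hub o = y) ∧
        (∀ x ∈ A, ((R + 1 : ℕ) : ℝ) * ms (P x) {y | ¬ G.Adj x y} ≤ 1) ∧
        (∀ b, ∀ t ∈ A, ∀ X : Finset V, (∀ x ∈ X, x ∈ A ∧ i x = b ∧ near x t) →
          (∀ x ∈ X, ∀ x' ∈ X, P x = P x' → x = x') →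
            ∑ x ∈ X, ms (P x) {y | G.Adj y t} ≤ K') ∧
        ∀ x ∈ A, ∀ t ∈ A, Conf G As O hub E Nr x t → near x t

theorem vc_lab {V Ω : Type} {G : SimpleGraph V} {D0 : ℕ} (hG : GIT.VC G D0) (A : Finset V)
    (hub : Ω → V) (U : Finset Ω) (hU : max D0 2 ≤ U.card) :
    ∃ T, T ⊆ U ∧ ∀ x ∈ A, (U.filter fun o => G.Adj x (hub o)) ≠ T := by
  by_contra hcon
  push Not at hcon
  have hinj : ∀ o ∈ U, ∀ o' ∈ U, hub o = hub o' → o = o' := by
    intro o ho o' ho' he
    by_contra hne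
    obtain ⟨x, -, hx⟩ := hcon {o} (Finset.singleton_subset_iff.2 ho)
    have h1 : o ∈ U.filter fun o => G.Adj x (hub o) := by
      rw [hx]
      exact Finset.mem_singleton_self o
    have h2 : o' ∈ U.filter fun o => G.Adj x (hub o) :=
      Finset.mem_filter.2 ⟨ho', he ▸ (Finset.mem_filter.1 h1).2⟩
    rw [hx, Finset.mem_singleton] at h2
    exact hne h2.symm
  have hcard : (U.image hub).card = U.card :=
    Finset.card_image_of_injOn fun o ho o' ho' he => hinj o ho o' ho' he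
  obtain ⟨T, hT, hT'⟩ := hG (U.image hub) (by
    rw [hcard]
    exact (le_max_left _ _).trans hU)
  obtain ⟨x, -, hx⟩ := hcon (U.filter fun o => hub o ∈ T) (Finset.filter_subset _ _)
  refine hT' x ?_
  ext y
  unfold FracGS.nb
  rw [Finset.mem_filter, Finset.mem_image]
  constructor
  · rintro ⟨⟨o, ho, rfl⟩, hy⟩
    have h1 : o ∈ U.filter fun o => G.Adj x (hub o) := Finset.mem_filter.2 ⟨ho, hy⟩
    rw [hx] at h1
    exact (Finset.mem_filter.1 h1).2
  · intro hy
    obtain ⟨o, ho, rfl⟩ := Finset.mem_image.1 (hT hy)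
    have h1 : o ∈ U.filter fun o => hub o ∈ T := Finset.mem_filter.2 ⟨ho, hy⟩
    rw [← hx] at h1
    exact ⟨⟨o, ho, rfl⟩, (Finset.mem_filter.1 h1).2⟩

theorem stStg : StStg := by
  intro D0 R K ε hK hε
  obtain ⟨B, c, hc, hPt⟩ := stPt K ε hK hε
  have hR : (0 : ℝ) < (R + 1 : ℕ) := by positivity
  obtain ⟨n, hTr⟩ := stTr (max D0 2) (c / (R + 1 : ℕ)) K (by positivity) hK
  refine ⟨B, n * (K / c), ?_⟩
  intro V Ω G A As O hub E Nr r w hG hA hS
  obtain ⟨x0, hx0⟩ := hA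
  obtain ⟨cl, hcl1, hcl2⟩ := hPt V Ω As O E r w hS.r0 hS.w0 hS.wE hS.rE hS.kp
  -- the top class
  have h1 : ∀ x : V, ∃ (i : Fin B) (l : V), x ∈ A → c ≤ ∑ o ∈ O with E x o ∧ cl i o = some l, w o := by
    intro x
    by_cases hx : x ∈ A
    · obtain ⟨i, l, h⟩ := hcl2 x (hS.sub hx) (hS.ne x hx)
      exact ⟨i, l, fun _ => h⟩
    · obtain ⟨i, l, -⟩ := hcl2 x0 (hS.sub hx0) (hS.ne x0 hx0)
      exact ⟨i, l, fun h => absurd h hx⟩
  choose i l hil using h1
  -- the members of the class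
  have hmem : ∀ x ∈ A, ∃ o ∈ O, E x o ∧ cl (i x) o = some (l x) := by
    intro x hx
    by_contra hcon
    push Not at hcon
    have h2 := hil x hx
    rw [Finset.filter_false_of_mem fun o ho h => hcon o ho h.1 h.2, Finset.sum_empty] at h2
    linarith
  have hlAs : ∀ x ∈ A, l x ∈ As := by
    intro x hx
    obtain ⟨o, ho, -, h2⟩ := hmem x hx
    exact (hcl1 (i x) o ho (l x) h2).1
  -- the classes have bounded mass
  have hclK : ∀ (b : Fin B) (z : V), ∑ o ∈ O with cl b o = some z, w o ≤ K := by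
    intro b z
    by_cases hz : z ∈ As
    · refine le_trans (Finset.sum_le_sum_of_subset_of_nonneg ?_ fun o _ _ => hS.w0 o) (hS.wE z hz)
      intro o ho
      rw [Finset.mem_filter] at ho ⊢
      exact ⟨ho.1, (hcl1 b o ho.1 z ho.2).2⟩
    · rw [Finset.filter_false_of_mem fun o ho h => hz (hcl1 b o ho z h).1, Finset.sum_empty]
      exact hK.le
  -- the traces
  have h2 : ∀ (b : Fin B) (z : V), ∃ f : V → Fin n, ∀ x ∈ A, ∀ x' ∈ A, f x = f x' →
      ∑ o ∈ (O.filter fun o => cl b o = some z) with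
        ¬ (G.Adj x (hub o) ↔ G.Adj x' (hub o)), w o ≤ c / (R + 1 : ℕ) := by
    intro b z
    exact hTr V Ω A (O.filter fun o => cl b o = some z) (fun x o => G.Adj x (hub o)) w hS.w0
      (hclK b z) fun U _ hU' => vc_lab hG A hub U hU'
  choose tr htr using h2
  -- the names
  set nm : V → Fin B × V × Fin n := fun x => (i x, l x, tr (i x) (l x) x) with hnm
  have h3 : ∀ x : V, ∃ x' : V, x ∈ A → x' ∈ A ∧ nm x' = nm x := fun x => ⟨x, fun h => ⟨h, rfl⟩⟩
  set rp : V → V := fun x => if h : ∃ x', x' ∈ A ∧ nm x' = nm x then h.choose else x0 with hrp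
  have hrp1 : ∀ x ∈ A, rp x ∈ A ∧ nm (rp x) = nm x := by
    intro x hx
    have h : ∃ x', x' ∈ A ∧ nm x' = nm x := ⟨x, hx, rfl⟩
    rw [hrp]
    simp only
    rw [dif_pos h]
    exact h.choose_spec
  have hrp2 : ∀ x x', nm x = nm x' → rp x = rp x' := by
    intro x x' h
    rw [hrp]
    simp only
    rw [h]
  clear_value rp
  set S : V → Finset Ω := fun x =>
    O.filter fun o => cl (i x) o = some (l x) ∧ G.Adj (rp x) (hub o) with hSdef
  set tot : V → ℝ := fun x => ∑ o ∈ S x, w o with htot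
  have hSeq : ∀ x x', nm x = nm x' → S x = S x' := by
    intro x x' h
    have h4 := hrp2 x x' h
    rw [hnm] at h
    simp only [Prod.mk.injEq] at h
    rw [hSdef]
    simp only
    rw [h4, h.1, h.2.1]
  have htotc : ∀ x ∈ A, c ≤ tot x := by
    intro x hx
    obtain ⟨h4, h5⟩ := hrp1 x hx
    rw [hnm] at h5
    simp only [Prod.mk.injEq] at h5
    refine (hil (rp x) h4).trans ?_
    refine Finset.sum_le_sum_of_subset_of_nonneg ?_ fun o _ _ => hS.w0 o
    intro o ho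
    rw [Finset.mem_filter] at ho
    rw [hSdef]
    simp only
    rw [Finset.mem_filter, ← h5.1, ← h5.2.1]
    exact ⟨ho.1, ho.2.2, hS.adj _ (hS.sub h4) o ho.1 ho.2.1⟩
  have htot0 : ∀ x ∈ A, 0 < tot x := fun x hx => lt_of_lt_of_le hc (htotc x hx)
  refine ⟨i, fun x => pf (S x) hub fun o => w o / tot x, fun x t => ∀ o ∈ O,
    cl (i x) o = some (l x) → G.Adj (hub o) t → Nr t o, ?_, ?_, ?_, ?_, ?_, ?_⟩
  · -- nonnegative
    intro x hx y
    exact pf_nn _ _ _ (fun o _ => div_nonneg (hS.w0 o) (htot0 x hx).le) y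
  · -- total mass
    intro x hx
    simp only
    rw [pf_tot, ← Finset.sum_div]
    exact div_self (htot0 x hx).ne'
  · -- support
    intro x hx y hy
    simp only at hy
    rw [pf_apply] at hy
    obtain ⟨o, ho, -⟩ := Finset.exists_ne_zero_of_sum_ne_zero hy
    rw [Finset.mem_filter, hSdef] at ho
    exact ⟨o, (Finset.mem_filter.1 ho.1).1, ho.2⟩
  · -- the vertices which are not neighbours
    intro x hx
    obtain ⟨h4, h5⟩ := hrp1 x hx
    rw [hnm] at h5
    simp only [Prod.mk.injEq] at h5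
    have h6 : tr (i x) (l x) (rp x) = tr (i x) (l x) x := by
      have h7 := h5.2.2
      rw [h5.1, h5.2.1] at h7
      exact h7
    have h7 := htr (i x) (l x) (rp x) h4 x hx h6
    have h8 := ms_pf_le (S x) ((O.filter fun o => cl (i x) o = some (l x)).filter fun o =>
      ¬ (G.Adj (rp x) (hub o) ↔ G.Adj x (hub o))) hub (fun o => w o / tot x)
      {y | ¬ G.Adj x y} (fun o => div_nonneg (hS.w0 o) (htot0 x hx).le) (by
        intro o ho hQ
        rw [hSdef] at ho
        simp only at ho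
        rw [Finset.mem_filter] at ho
        rw [Finset.mem_filter, Finset.mem_filter]
        exact ⟨⟨ho.1, ho.2.1⟩, fun h => hQ (h.1 ho.2.2)⟩)
    rw [← Finset.sum_div] at h8
    refine (mul_le_mul_of_nonneg_left h8 hR.le).trans ?_
    rw [mul_div_assoc', div_le_one (htot0 x hx)]
    refine (mul_le_mul_of_nonneg_left h7 hR.le).trans ?_
    rw [mul_div_cancel₀ c hR.ne']
    exact htotc x hx
  · -- the budget
    intro b t ht X hX hinj
    simp only at hX hinj ⊢
    have hnr := hS.nr t ht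
    -- the mass seen in the class of `z`
    set g : V → ℝ := fun z => ∑ o ∈ O with cl b o = some z ∧ Nr t o, w o with hg
    have hg0 : ∀ z, 0 ≤ g z := fun z => Finset.sum_nonneg fun o _ => hS.w0 o
    have h4 : ∀ x ∈ X, ms (pf (S x) hub fun o => w o / tot x) {y | G.Adj y t} ≤ g (l x) / c := by
      intro x hx
      obtain ⟨hxA, hxb, hxn⟩ := hX x hx
      have h8 := ms_pf_le (S x) (O.filter fun o => cl b o = some (l x) ∧ Nr t o) hub
        (fun o => w o / tot x) {y | G.Adj y t} (fun o => div_nonneg (hS.w0 o) (htot0 x hxA).le) (by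
          intro o ho hQ
          rw [hSdef] at ho
          simp only at ho
          rw [Finset.mem_filter] at ho
          rw [Finset.mem_filter]
          refine ⟨ho.1, ?_, hxn o ho.1 ho.2.1 hQ⟩
          rw [← hxb]
          exact ho.2.1)
      rw [← Finset.sum_div] at h8
      exact h8.trans (div_le_div_of_nonneg_left (hg0 _) hc (htotc x hxA))
    refine (Finset.sum_le_sum h4).trans ?_
    have h5 : ∑ x ∈ X, g (l x) / c = ∑ z ∈ X.image l, ∑ x ∈ X with l x = z, g z / c := by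
      rw [← Finset.sum_fiberwise_of_maps_to (g := l) (t := X.image l)
        (fun x hx => Finset.mem_image_of_mem l hx)]
      refine Finset.sum_congr rfl fun z _ => Finset.sum_congr rfl fun x hx => ?_
      rw [(Finset.mem_filter.1 hx).2]
    have h6 : ∀ z, (X.filter fun x => l x = z).card ≤ n := by
      intro z
      have h7 : (X.filter fun x => l x = z).card ≤ (Finset.univ : Finset (Fin n)).card := by
        refine Finset.card_le_card_of_injOn (fun x => tr b z x) (fun x _ => Finset.mem_univ _) ?_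
        intro x hx x' hx' he
        rw [Finset.mem_coe, Finset.mem_filter] at hx hx'
        obtain ⟨hxA, hxb, -⟩ := hX x hx.1
        obtain ⟨hxA', hxb', -⟩ := hX x' hx'.1
        refine hinj x hx.1 x' hx'.1 ?_
        have h8 : nm x = nm x' := by
          rw [hnm]
          simp only [Prod.mk.injEq]
          refine ⟨hxb.trans hxb'.symm, hx.2.trans hx'.2.symm, ?_⟩
          rw [hxb, hxb', hx.2, hx'.2]
          exact he
        have h9 := hSeq x x' h8
        have h10 : tot x = tot x' := by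
          rw [htot]
          simp only
          rw [h9]
        rw [h9, h10]
      rwa [Finset.card_univ, Fintype.card_fin] at h7
    rw [h5]
    calc ∑ z ∈ X.image l, ∑ x ∈ X with l x = z, g z / c
        ≤ ∑ z ∈ X.image l, (n : ℝ) * (g z / c) := by
          refine Finset.sum_le_sum fun z _ => ?_
          rw [Finset.sum_const, nsmul_eq_mul]
          exact mul_le_mul_of_nonneg_right (by exact_mod_cast h6 z)
            (div_nonneg (hg0 z) hc.le)
      _ = n * ((∑ z ∈ X.image l, g z) / c) := by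
          rw [← Finset.mul_sum, Finset.sum_div]
      _ ≤ n * (K / c) := by
          refine mul_le_mul_of_nonneg_left ?_ (Nat.cast_nonneg n)
          refine div_le_div_of_nonneg_right ?_ hc.le
          refine le_trans ?_ hnr
          have h7 : ∑ z ∈ X.image l, g z =
              ∑ o ∈ (X.image l).biUnion (fun z => O.filter fun o => cl b o = some z ∧ Nr t o),
                w o := by
            rw [Finset.sum_biUnion]
            intro z _ z' _ hzz
            rw [Function.onFun, Finset.disjoint_left]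
            intro o ho ho'
            rw [Finset.mem_filter] at ho ho'
            exact hzz (Option.some.inj (ho.2.1.symm.trans ho'.2.1))
          rw [h7]
          refine Finset.sum_le_sum_of_subset_of_nonneg ?_ fun o _ _ => hS.w0 o
          intro o ho
          rw [Finset.mem_biUnion] at ho
          obtain ⟨z, -, ho⟩ := ho
          rw [Finset.mem_filter] at ho ⊢
          exact ⟨ho.1, ho.2.2⟩
  · -- near pairs
    intro x hx t _ hC o ho hcl hadj
    obtain ⟨o', ho', h4, h5⟩ := hmem x hx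
    exact hC (l x) (hlAs x hx) ⟨o', ho', h4, (hcl1 (i x) o' ho' (l x) h5).2⟩ o ho
      (hcl1 (i x) o ho (l x) hcl).2 hadj

end Lvl_

namespace Lvl_

theorem le_ms {V : Type} {p : V →₀ ℝ} (hp : ∀ y, 0 ≤ p y) {S : Set V} {y : V} (hy : y ∈ S) :
    p y ≤ ms p S := by
  by_cases h : p y = 0
  · rw [h]
    exact ms_nn hp S
  · exact Finset.single_le_sum (f := fun y => p y) (fun z _ => hp z)
      (Finset.mem_filter.2 ⟨Finsupp.mem_support_iff.2 h, hy⟩)

/-- Few heavy atoms. -/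
theorem heavy {V : Type} (p : V →₀ ℝ) (R : ℕ) (h0 : ∀ y, 0 ≤ p y)
    (h1 : ∑ y ∈ p.support, p y = 1) :
    (p.support.filter fun y => 1 < ((R + 1 : ℕ) : ℝ) * p y).card ≤ R + 1 := by
  have h2 : ((p.support.filter fun y => 1 < ((R + 1 : ℕ) : ℝ) * p y).card : ℝ) ≤
      ((R + 1 : ℕ) : ℝ) := by
    calc ((p.support.filter fun y => 1 < ((R + 1 : ℕ) : ℝ) * p y).card : ℝ)
        = ∑ y ∈ p.support with 1 < ((R + 1 : ℕ) : ℝ) * p y, (1 : ℝ) := by simp
      _ ≤ ∑ y ∈ p.support with 1 < ((R + 1 : ℕ) : ℝ) * p y, ((R + 1 : ℕ) : ℝ) * p y :=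
          Finset.sum_le_sum fun y hy => (Finset.mem_filter.1 hy).2.le
      _ ≤ ∑ y ∈ p.support, ((R + 1 : ℕ) : ℝ) * p y :=
          Finset.sum_le_sum_of_subset_of_nonneg (Finset.filter_subset _ _) fun y _ _ =>
            mul_nonneg (Nat.cast_nonneg _) (h0 y)
      _ = ((R + 1 : ℕ) : ℝ) := by rw [← Finset.mul_sum, h1, mul_one]
  exact_mod_cast h2

/-- A colouring which separates every node from its heavy atoms. -/
theorem atoms {V : Type} (q R : ℕ) (A : Finset V) (P : ℕ → V → V →₀ ℝ)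
    (h0 : ∀ s < q, ∀ x ∈ A, ∀ y, 0 ≤ P s x y)
    (h1 : ∀ s < q, ∀ x ∈ A, ∑ y ∈ (P s x).support, P s x y = 1) :
    ∃ φ : V → Fin (3 ^ (q * (R + 1))), ∀ s < q, ∀ x ∈ A, ∀ y, y ≠ x → φ y = φ x →
      ((R + 1 : ℕ) : ℝ) * P s x y ≤ 1 := by
  obtain ⟨φ, hφ⟩ := stDg V (q * (R + 1)) (fun x => if x ∈ A then (range q).biUnion fun s =>
    (P s x).support.filter fun y => 1 < ((R + 1 : ℕ) : ℝ) * P s x y else ∅) (by
      intro x
      split_ifs with hx
      · refine Finset.card_biUnion_le.trans ?_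
        calc ∑ s ∈ range q, ((P s x).support.filter fun y =>
              1 < ((R + 1 : ℕ) : ℝ) * P s x y).card ≤ ∑ _s ∈ range q, (R + 1) :=
              Finset.sum_le_sum fun s hs =>
                heavy (P s x) R (h0 s (Finset.mem_range.1 hs) x hx)
                  (h1 s (Finset.mem_range.1 hs) x hx)
          _ = q * (R + 1) := by rw [Finset.sum_const, Finset.card_range, smul_eq_mul]
      · exact Nat.zero_le _)
  refine ⟨φ, fun s hs x hx y hyx hy => ?_⟩
  by_contra hlt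
  push Not at hlt
  refine hφ x y ?_ hyx hy
  rw [if_pos hx, Finset.mem_biUnion]
  refine ⟨s, Finset.mem_range.2 hs, ?_⟩
  rw [Finset.mem_filter, Finsupp.mem_support_iff]
  refine ⟨fun h => ?_, hlt⟩
  rw [h, mul_zero] at hlt
  linarith

end Lvl_

open Lvl_

theorem stLvl : StLvl := by
  intro D0 R q K ε hK hε hRq
  obtain ⟨B, K', hStg⟩ := stStg D0 R K ε hK hε
  refine ⟨B ^ q * 3 ^ (q * (R + 1)) + 1, K', ?_⟩
  intro V Ω G m W1 A As O hub E Nr r w hG hAW hS hhub hconf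
  rcases A.eq_empty_or_nonempty with hA | hA
  · -- no nodes
    refine ⟨fun _ => 0, fun _ => ⟨q, fun _ _ => 0, fun _ _ _ => False, K', ∅, fun _ _ => 0⟩, ?_⟩
    intro i
    refine ⟨rfl, rfl, ?_, ?_⟩
    · simp [hA]
    · refine ⟨Set.empty_subset _, by omega, hRq, ?_, ?_, ?_, ?_, ?_, ?_, ?_⟩
      all_goals exact fun _ _ x hx => absurd hx (Set.notMem_empty x)
  have h1 : ∀ s : ℕ, ∃ (i : V → Fin B) (P : V → V →₀ ℝ) (near : V → V → Prop), s < q →
      (∀ x ∈ A, ∀ y, 0 ≤ P x y) ∧ (∀ x ∈ A, ∑ y ∈ (P x).support, P x y = 1) ∧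
      (∀ x ∈ A, ∀ y, P x y ≠ 0 → ∃ o ∈ O s, hub s o = y) ∧
      (∀ x ∈ A, ((R + 1 : ℕ) : ℝ) * ms (P x) {y | ¬ G.Adj x y} ≤ 1) ∧
      (∀ b, ∀ t ∈ A, ∀ X : Finset V, (∀ x ∈ X, x ∈ A ∧ i x = b ∧ near x t) →
        (∀ x ∈ X, ∀ x' ∈ X, P x = P x' → x = x') →
          ∑ x ∈ X, ms (P x) {y | G.Adj y t} ≤ K') ∧
      ∀ x ∈ A, ∀ t ∈ A, Conf G (As s) (O s) (hub s) (E s) (Nr s) x t → near x t := by
    intro s
    by_cases hs : s < q
    · obtain ⟨i, P, near, h⟩ := hStg V Ω G A (As s) (O s) (hub s) (E s) (Nr s) (r s) (w s) hG hA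
        (hS s hs)
      exact ⟨i, P, near, fun _ => h⟩
    · obtain ⟨i, P, near, -⟩ := hStg V Ω G A (As 0) (O 0) (hub 0) (E 0) (Nr 0) (r 0) (w 0) hG hA
        (hS 0 (by omega))
      exact ⟨i, P, near, fun h => absurd h hs⟩
  choose i P near hP using h1
  obtain ⟨φ, hφ⟩ := atoms q R A P (fun s hs x hx => (hP s hs).1 x hx)
    (fun s hs x hx => (hP s hs).2.1 x hx)
  set cl : V → Fin (B ^ q * 3 ^ (q * (R + 1))) := fun x =>
    finProdFinEquiv (finFunctionFinEquiv fun s : Fin q => i s x, φ x) with hcl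
  have hB : ∀ x : V, (cl x).1 < B ^ q * 3 ^ (q * (R + 1)) + 1 :=
    fun x => lt_of_lt_of_le (Fin.is_lt _) (Nat.le_succ _)
  refine ⟨fun x => ⟨(cl x).1, hB x⟩,
    fun k => ⟨q, P, near, K', {x | x ∈ A ∧ (⟨(cl x).1, hB x⟩ :
      Fin (B ^ q * 3 ^ (q * (R + 1)) + 1)) = k}, fun _ _ => 0⟩, ?_⟩
  intro k
  refine ⟨rfl, rfl, rfl, ?_⟩
  have hc : ∀ x x' : V, (⟨(cl x).1, hB x⟩ : Fin (B ^ q * 3 ^ (q * (R + 1)) + 1)) =
        ⟨(cl x').1, hB x'⟩ → (∀ s < q, i s x = i s x') ∧ φ x = φ x' := by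
    intro x x' h
    have h2 : (cl x).1 = (cl x').1 := by
      have h2' := Fin.val_eq_of_eq h
      exact h2'
    have h3 := finProdFinEquiv.injective (Fin.ext h2)
    have h4 := congrArg Prod.fst h3
    have h5 := congrArg Prod.snd h3
    have h6 := finFunctionFinEquiv.injective h4
    exact ⟨fun s hs => congrFun h6 ⟨s, hs⟩, h5⟩
  have hi : ∀ x x' : V, (⟨(cl x).1, hB x⟩ : Fin (B ^ q * 3 ^ (q * (R + 1)) + 1)) =
        ⟨(cl x').1, hB x'⟩ → ∀ s < q, i s x = i s x' := fun x x' h => (hc x x' h).1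
  refine ⟨fun x hx => hAW x hx.1, by omega, hRq, ?_, ?_, ?_, ?_, ?_, ?_, ?_⟩
  · exact fun s hs x hx y => (hP s hs).1 x hx.1 y
  · exact fun s hs x hx => (hP s hs).2.1 x hx.1
  · intro s hs x hx y hy
    obtain ⟨o, ho, rfl⟩ := (hP s hs).2.2.1 x hx.1 y hy
    exact ⟨hhub s hs o ho, trivial⟩
  · intro s hs x hx y hy
    rcases eq_or_ne y x with rfl | hyx
    · refine le_trans ?_ ((hP s hs).2.2.2.1 y hx.1)
      refine mul_le_mul_of_nonneg_left ?_ (Nat.cast_nonneg _)
      exact le_ms (fun z => (hP s hs).1 y hx.1 z) (G.loopless.irrefl y)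
    · exact hφ s hs x hx.1 y hyx (hc y x (hy.2.trans hx.2.symm)).2
  · exact fun s hs x hx => (hP s hs).2.2.2.1 x hx.1
  · intro s hs t ht X hX hinj
    rcases X.eq_empty_or_nonempty with hX0 | ⟨x1, hx1⟩
    · have h2 := (hP s hs).2.2.2.2.1 (i s t) t ht.1 ∅ (by simp) (by simp)
      rw [hX0]
      exact h2
    · refine (hP s hs).2.2.2.2.1 (i s x1) t ht.1 X ?_ hinj
      intro x hx
      exact ⟨(hX x hx).1.1, hi x x1 ((hX x hx).1.2.trans (hX x1 hx1).1.2.symm) s hs, (hX x hx).2⟩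
  · intro x hx t ht
    refine le_trans (Finset.card_le_card ?_) (hconf x hx.1 t ht.1)
    intro s hs
    rw [Finset.mem_filter] at hs ⊢
    exact ⟨hs.1, fun h => hs.2 ((hP s (Finset.mem_range.1 hs.1)).2.2.2.2.2 x hx.1 t ht.1 h)⟩

end Pool.Agent.Lib.TCH
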