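import Pool.Agent.Lib.TCH.Defs

/-!
# Chains of windows in graphs without an induced tree: statements of the tools
-/

set_option autoImplicit false

namespace Pool.Agent.Lib.TCH

open Finset Classical
open Pool.Agent.Lib.ILT (Par)

/-- Module `CL`, the chain lemma: if every big set carries level data then there is an infinite
chain on which all statistics of a countable family converge. -/
def StCL : Prop :=
  ∀ (V Lev ι : Type), Countable ι → ∀ big : Set V → Prop, Ide big →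
    ∀ (Av : Set V → Lev → Set V → Prop) (W0 : Set V), big W0 →
      (∀ W, W ⊆ W0 → big W → ∃ D W', Av W D W' ∧ W' ⊆ W ∧ big W') →
        ∀ F : ι → Stt V Lev, (∀ i a x, 0 ≤ (F i).f a x ∧ (F i).f a x ≤ 1) →
          ∃ (W : ℕ → Set V) (D : ℕ → Lev) (c : ι → ℝ), W 0 ⊆ W0 ∧ (∀ n, big (W n)) ∧
            (∀ n, ∃ W', Av (W n) (D n) W' ∧ W' ⊆ W n ∧ W (n + 1) ⊆ W') ∧
            ∀ i, ∀ ε : ℝ, 0 < ε → ∃ n0 : ℕ, ∀ a : Fin (F i).k → ℕ, StrictMono a →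
              (∀ j, n0 ≤ a j) → ∀ N, n0 ≤ N → (∀ j, a j < N) → ∀ x ∈ W N,
                |(F i).f (fun j => D (a j)) x - c i| ≤ ε

/-- Module `Jen`: spreadable events are positively correlated. -/
def StJen : Prop :=
  ∀ (Ω : Type) (A : Finset Ω) (p : Ω → ℝ), (∀ x, 0 ≤ p x) → ∑ x ∈ A, p x = 1 →
    ∀ (N k : ℕ), 1 ≤ N → ∀ (E : Fin N → Ω → Prop) (a b : ℝ), 0 ≤ a → 0 ≤ b →
      (∀ i, a ≤ ∑ x ∈ A with E i x, p x) →
      (∀ g : Fin k → Fin N, StrictMono g → ∑ x ∈ A with ∀ j, E (g j) x, p x ≤ b) →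
        a ^ k ≤ b + (k : ℝ) ^ 2 / N

/-- Module `Blk`: block averages of vectors with almost constant inner products. -/
def StBlk : Prop :=
  ∀ (L : Type) (A : Finset L) (w : L → ℝ), (∀ l, 0 ≤ w l) → ∀ (n : ℕ), 1 ≤ n →
    ∀ (f g : Fin n → L → ℝ) (ρ ε : ℝ), (∀ c l, 0 ≤ f c l) → (∀ c l, 0 ≤ g c l) →
      (∀ c, ∑ l ∈ A, w l * f c l ^ 2 ≤ 1) → (∀ c, ∑ l ∈ A, w l * g c l ^ 2 ≤ 1) →
      (∀ c c', c ≠ c' → ∑ l ∈ A, w l * (f c l * f c' l) ≤ ρ + ε) →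
      (∀ c c', c ≠ c' → ∑ l ∈ A, w l * (g c l * g c' l) ≤ ρ + ε) →
      (∀ c c', ρ - ε ≤ ∑ l ∈ A, w l * (f c l * g c' l)) → 0 ≤ ρ → 0 ≤ ε →
        ∑ l ∈ A, w l * ((∑ c, f c l) / n - (∑ c, g c l) / n) ^ 2 ≤ 2 / n + 4 * ε

/-- Module `Dg`: digraphs of bounded outdegree, possibly infinite, are finitely colourable. -/
def StDg : Prop :=
  ∀ (L : Type) (D : ℕ) (F : L → Finset L), (∀ l, (F l).card ≤ D) →
    ∃ φ : L → Fin (3 ^ D), ∀ l, ∀ l' ∈ F l, l' ≠ l → φ l' ≠ φ l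

/-- Module `PL`, the placement lemma: the nodes `0, ..., n` of a tree in breadth first order are
placed at random, the law `K j x v` of the node `j` depends on its grandparent `x` and its parent
`v`; `Cf j l w z` is a conflict between the nodes `j` and `l < j` placed at `w` and `z`. -/
def StPL : Prop :=
  ∀ (X : Type) (A : Finset X) (n : ℕ) (par : ℕ → ℕ), Par par →
    ∀ (Ad : ℕ → Set X) (K : ℕ → X → X → X → ℝ) (Cf : ℕ → ℕ → X → X → Prop) (ε : ℝ) (r : X),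
      r ∈ A → r ∈ Ad 0 → 0 ≤ ε → (∀ j x v w, 0 ≤ K j x v w) →
      (∀ j, 1 ≤ j → j ≤ n → ∀ x ∈ A, x ∈ Ad (par (par j)) → ∀ v ∈ A, v ∈ Ad (par j) →
        ∑ w ∈ A, K j x v w = 1) →
      (∀ j, 1 ≤ j → j ≤ n → ∀ x ∈ A, x ∈ Ad (par (par j)) → ∀ v ∈ A, v ∈ Ad (par j) →
        ∀ w ∈ A, K j x v w ≠ 0 → w ∈ Ad j) →
      (∀ j l, 1 ≤ j → j ≤ n → l < j → par l < par j → l ≠ par j →
        ∀ y ∈ A, y ∈ Ad (par (par (par j))) → ∀ x ∈ A, x ∈ Ad (par (par j)) →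
        ∀ z ∈ A, z ∈ Ad l →
          ∑ v ∈ A, K (par j) y x v * ∑ w ∈ A with Cf j l w z, K j x v w ≤ ε) →
      (∀ j l, 1 ≤ l → l < j → j ≤ n → par l = par j → ∀ x ∈ A, x ∈ Ad (par (par j)) →
        ∀ v ∈ A, v ∈ Ad (par j) → ∀ z ∈ A, K l x v z ≠ 0 →
          ∑ w ∈ A with Cf j l w z, K j x v w ≤ ε) →
      (n : ℝ) * (n + 1) * ε < 1 →
        ∃ φ : ℕ → X, φ 0 = r ∧ (∀ j ≤ n, φ j ∈ A ∧ φ j ∈ Ad j) ∧
          (∀ j, 1 ≤ j → j ≤ n → K j (φ (par (par j))) (φ (par j)) (φ j) ≠ 0) ∧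
          ∀ j ≤ n, ∀ l < j, l ≠ par j → ¬ Cf j l (φ j) (φ l)

/-- Module `Tr`: a bounded number of traces up to small symmetric differences. -/
def StTr : Prop :=
  ∀ (D : ℕ) (e K : ℝ), 0 < e → 0 < K → ∃ t : ℕ, ∀ (X Ω : Type) (A : Finset X) (O : Finset Ω)
    (R : X → Ω → Prop) (w : Ω → ℝ), (∀ o, 0 ≤ w o) → ∑ o ∈ O, w o ≤ K →
      (∀ U, U ⊆ O → D ≤ U.card → ∃ T, T ⊆ U ∧ ∀ x ∈ A, (U.filter fun o => R x o) ≠ T) →
        ∃ f : X → Fin t, ∀ x ∈ A, ∀ x' ∈ A, f x = f x' →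
          ∑ o ∈ O with ¬ (R x o ↔ R x' o), w o ≤ e

/-- Module `Mx`: a spread law or a bounded cover, for set systems. -/
def StMx : Prop :=
  ∀ (D : ℕ) (e : ℝ), 0 < e → ∃ t : ℕ, ∀ (X Q : Type) (A : Finset X) (B : Finset Q)
    (R : X → Q → Prop), A.Nonempty →
      (∀ U, U ⊆ B → D ≤ U.card → ∃ T, T ⊆ U ∧ ∀ x ∈ A, (U.filter fun q => R x q) ≠ T) →
        (∃ l : X → ℝ, (∀ x, 0 ≤ l x) ∧ (∀ x, l x ≠ 0 → x ∈ A) ∧ ∑ x ∈ A, l x = 1 ∧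
          ∀ q ∈ B, ∑ x ∈ A with R x q, l x ≤ e) ∨
        (∃ F : Finset Q, F ⊆ B ∧ F.card ≤ t ∧ ∀ x ∈ A, ∃ q ∈ F, R x q)

/-- Module `Pt`: self-linked incidences have partitions of the labels. -/
def StPt : Prop :=
  ∀ K ε : ℝ, 0 < K → 0 < ε → ∃ (B : ℕ) (c : ℝ), 0 < c ∧
    ∀ (V Ω : Type) (A : Finset V) (O : Finset Ω) (E : V → Ω → Prop) (r : V → ℝ) (w : Ω → ℝ),
      (∀ x, 0 ≤ r x) → (∀ o, 0 ≤ w o) →
      (∀ x ∈ A, ∑ o ∈ O with E x o, w o ≤ K) → (∀ o ∈ O, ∑ x ∈ A with E x o, r x ≤ K) →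
      (∀ x ∈ A, ∀ o ∈ O, E x o → ε ≤ kap A O E r w x o) →
        ∃ cl : Fin B → Ω → Option V,
          (∀ i, ∀ o ∈ O, ∀ l, cl i o = some l → l ∈ A ∧ E l o) ∧
          ∀ x ∈ A, (∃ o ∈ O, E x o) → ∃ i l, c ≤ ∑ o ∈ O with E x o ∧ cl i o = some l, w o

/-- Module `LL`: an incidence with few 4-cycles contains all trees without conflicts. -/
def StLL : Prop :=
  ∀ (n : ℕ) (C K : ℝ), 0 < C → 0 < K → ∃ ε : ℝ, 0 < ε ∧
    ∀ (V Ω : Type) (A : Finset V) (O : Finset Ω) (E N : V → Ω → Prop) (Ev : V → V → Prop)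
      (Eo : Ω → Ω → Prop) (F : V → Ω → ℝ) (r : V → ℝ) (w : Ω → ℝ),
      Inc A O E N Ev Eo F r w C K ε → ∑ x ∈ A, ∑ o ∈ O, F x o * kap A O E r w x o ≤ ε →
        ∀ par : ℕ → ℕ, (∀ j, 1 ≤ j → par j < j) →
          ∃ φ : ℕ → V ⊕ Ω, (∃ x ∈ A, φ 0 = Sum.inl x) ∧
            (∀ j, 1 ≤ j → j ≤ n → EP A O E (φ (par j)) (φ j)) ∧
            ∀ j ≤ n, ∀ i < j, i ≠ par j → ¬ CP N Ev Eo (φ i) (φ j)

/-- Module `Pe`: peeling of the incidences with few 4-cycles; `m` is the weight of the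
incidences, comparable with `a x * r x * w o` where `a` is almost constant along incidences. -/
def StPe : Prop :=
  ∀ (V Ω : Type) (A : Finset V) (O : Finset Ω) (E : V → Ω → Prop) (r : V → ℝ) (w : Ω → ℝ)
    (a : V → ℝ) (Gam K ε : ℝ), (∀ x, 0 ≤ r x) → (∀ o, 0 ≤ w o) → (∀ x, 0 ≤ a x) → 0 ≤ ε →
      1 ≤ Gam → (∀ x ∈ A, ∀ x' ∈ A, ∀ o ∈ O, E x o → E x' o → a x ≤ Gam * a x') →
      ∑ x ∈ A, ∑ o ∈ O with E x o, a x * r x * w o ≤ K →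
        ∃ E' : V → Ω → Prop, (∀ x o, E' x o → x ∈ A ∧ o ∈ O ∧ E x o) ∧
          (∀ x o, E' x o → ε < kap A O E' r w x o) ∧
          ∑ x ∈ A, ∑ o ∈ O with E x o ∧ ¬ E' x o,
            a x * r x * w o * kap A O (fun x o => E x o ∧ ¬ E' x o) r w x o ≤
              4 * Gam ^ 2 * K * ε

end Pool.Agent.Lib.TCH
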